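import Pool.Agent.Lib.MP_8a3537_gt.LL2.SpecA
import Pool.Agent.Lib.MP_8a3537_gt.AR.LOC
import Pool.Agent.Lib.MP_8a3537_gt.ROK.TFA

/-!
# Short chains (MP_8a3537_gt, folder LL2): torsion-free abelian stabilizers modulo a normal subgroup (helper30)

`A` is a normal subgroup which acts trivially on the tree, `G / A` has no element of order two, `H / A` is
torsion-free abelian, and the elements which exchange two vertices `x`, `y` whose path passes through `v` and then
`w` commute with `G_x ∩ G_y` modulo `A` (automatic if `H / A` is locally infinite cyclic: `cycA`). Then there are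
no chains (`chainA`), and the lines have locally a homomorphism to the integers as in Theorem Λ (`lineA`).
-/

set_option autoImplicit false

namespace Pool.Agent.Lib.MP8a3537.LL2

open Pool.Agent.Lib.MP8a3537.RO Pool.Agent.Lib.MP8a3537.ROK Pool.Agent.Lib.MP8a3537.LL
open Pool.Agent.Lib.MP8a3537

/-- The group `G_v ∩ G_w` is torsion-free abelian modulo `A`, and exchanging elements commute modulo `A`. -/
structure AbA (G : Type) {V : Type} [Group G] [MulAction G V] (d : V → V → ℕ) (v w : V)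
    (A : Subgroup G) : Prop where
  triv : ∀ a ∈ A, ∀ x : V, a • x = x
  two : ∀ g : G, g * g ∈ A → g ∈ A
  ab : ∀ a ∈ MulAction.stabilizer G v ⊓ MulAction.stabilizer G w,
    ∀ b ∈ MulAction.stabilizer G v ⊓ MulAction.stabilizer G w, a * b * a⁻¹ * b⁻¹ ∈ A
  tf : ∀ a ∈ MulAction.stabilizer G v ⊓ MulAction.stabilizer G w, ∀ n : ℕ, n ≠ 0 → a ^ n ∈ A → a ∈ A
  ex : ∀ (x y : V) (g : G), d x y = d x v + d v w + d w y → g • x = y → g • y = x →
    ∀ h ∈ MulAction.stabilizer G x ⊓ MulAction.stabilizer G y, g * h * g⁻¹ * h⁻¹ ∈ A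

namespace ABAM

variable {G V : Type} [Group G] [MulAction G V] {d : V → V → ℕ} {v w : V} {A : Subgroup G}

theorem le_H (hd : TM G d) {x y : V} (h : d x y = d x v + d v w + d w y) :
    MulAction.stabilizer G x ⊓ MulAction.stabilizer G y ≤
      MulAction.stabilizer G v ⊓ MulAction.stabilizer G w := by
  intro g hg
  rw [Subgroup.mem_inf, MulAction.mem_stabilizer_iff, MulAction.mem_stabilizer_iff] at hg ⊢
  have t1 := hd.tri x v y
  have t2 := hd.tri v w y
  have t3 := hd.tri x w y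
  have t4 := hd.tri x v w
  refine ⟨(specTFA G V d hd).1 g x v y (by omega) hg.1 hg.2,
    (specTFA G V d hd).1 g x w y (by omega) hg.1 hg.2⟩

theorem cm_mk [A.Normal] {a b : G} (h : a * b * a⁻¹ * b⁻¹ ∈ A) :
    Commute ((QuotientGroup.mk' A) a) ((QuotientGroup.mk' A) b) := by
  have h1 : (QuotientGroup.mk' A) (a * b * a⁻¹ * b⁻¹) = 1 := (QuotientGroup.eq_one_iff _).2 h
  rw [map_mul, map_mul, map_mul, map_inv, map_inv] at h1
  have h2 := mul_inv_eq_one.1 h1
  exact mul_inv_eq_iff_eq_mul.1 h2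

theorem mk_cm [A.Normal] {a b : G} (h : Commute ((QuotientGroup.mk' A) a) ((QuotientGroup.mk' A) b)) :
    a * b * a⁻¹ * b⁻¹ ∈ A := by
  rw [← AR.LOCM.one_iff, map_mul, map_mul, map_mul, map_inv, map_inv, h.eq]
  group

/-- If `u x = y`, and `u` commutes with `k` modulo `A`, and `k` fixes `x`, then `k` fixes `y`. -/
theorem fix [A.Normal] (hA : AbA G d v w A) {u k : G} {x : V}
    (hc : Commute ((QuotientGroup.mk' A) u) ((QuotientGroup.mk' A) k)) (hk : k • x = x) :
    k • u • x = u • x := by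
  have h1 : u⁻¹ * k * u * k⁻¹ ∈ A := by
    rw [← AR.LOCM.one_iff, map_mul, map_mul, map_mul, map_inv, map_inv]
    have h2 := (hc.inv_left).eq
    rw [h2, inv_mul_cancel_right, mul_inv_cancel]
  have h3 := hA.triv _ h1 x
  have h4 : (u⁻¹ * k * u) • x = x := by
    calc (u⁻¹ * k * u) • x = (u⁻¹ * k * u * k⁻¹ * k) • x := by rw [inv_mul_cancel_right]
      _ = (u⁻¹ * k * u * k⁻¹) • k • x := mul_smul _ _ _
      _ = x := by rw [hk, h3]
  calc k • u • x = (u * (u⁻¹ * k * u)) • x := by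
        rw [← mul_smul]; congr 1; group
    _ = u • x := by rw [mul_smul, h4]

end ABAM

open ABAM

/-- **No chains.** -/
theorem chainA {G V : Type} [Group G] [MulAction G V] {d : V → V → ℕ} (hd : TM G d) {v w : V}
    {A : Subgroup G} [A.Normal] (hA : AbA G d v w A) (x y : ℕ → V) (u : ℕ → G)
    (h1 : ∀ i, d (x i) (y i) = d (x i) v + d v w + d w (y i))
    (h2 : ∀ i, u i • x i = y i ∧ u i • y i = x i)
    (h3 : ∀ i, x (i + 1) = x i ∨ y (i + 1) = y i)
    (h5 : ∀ i, MulAction.stabilizer G (x (i + 1)) ⊓ MulAction.stabilizer G (y (i + 1)) <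
        MulAction.stabilizer G (x i) ⊓ MulAction.stabilizer G (y i))
    (h6 : ∀ i, ∃ h ∈ MulAction.stabilizer G (x i) ⊓ MulAction.stabilizer G (y i),
      u (i + 2) = h * u i) : False := by
  obtain ⟨h, hh, hu⟩ := h6 0
  have hcm : ∀ k ∈ MulAction.stabilizer G (x 1) ⊓ MulAction.stabilizer G (y 1),
      Commute ((QuotientGroup.mk' A) (u 2)) ((QuotientGroup.mk' A) k) := by
    intro k hk
    have hk0 : k ∈ MulAction.stabilizer G (x 0) ⊓ MulAction.stabilizer G (y 0) := (h5 0).le hk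
    have e1 := cm_mk (hA.ex (x 0) (y 0) (u 0) (h1 0) (h2 0).1 (h2 0).2 k hk0)
    have e2 := cm_mk (hA.ab h (le_H hd (h1 0) hh) k (le_H hd (h1 0) hk0))
    have e3 : u 2 = h * u 0 := hu
    rw [e3, map_mul]
    exact e2.mul_left e1
  have hle : MulAction.stabilizer G (x 1) ⊓ MulAction.stabilizer G (y 1) ≤
      MulAction.stabilizer G (x 2) ⊓ MulAction.stabilizer G (y 2) := by
    intro k hk
    have hc := hcm k hk
    rw [Subgroup.mem_inf, MulAction.mem_stabilizer_iff, MulAction.mem_stabilizer_iff] at hk ⊢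
    rcases h3 1 with e | e
    · have e' : x 2 = x 1 := e
      refine ⟨by rw [e']; exact hk.1, ?_⟩
      rw [← (h2 2).1, e']
      exact fix hA hc hk.1
    · have e' : y 2 = y 1 := e
      refine ⟨?_, by rw [e']; exact hk.2⟩
      rw [← (h2 2).2, e']
      exact fix hA hc hk.2
  exact absurd (lt_of_lt_of_le (h5 1) hle) (lt_irrefl _)

/-- **Lines.** -/
theorem lineA (hABQ : SpecABQ) {G V : Type} [Group G] [MulAction G V] {d : V → V → ℕ}
    (hd : TM G d) {v w : V} (hvw : v ≠ w) {A : Subgroup G} [A.Normal] (hA : AbA G d v w A)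
    (x y : V) (g f : G) (h1 : d x y = d x v + d v w + d w y) (hgx : g • x = y) (hgy : g • y = x)
    (hf : Ns (MulAction.stabilizer G x ⊓ MulAction.stabilizer G y) f)
    (hff : f * f ∈ MulAction.stabilizer G x ⊓ MulAction.stabilizer G y)
    (h2 : d y (f • y) = d y x + d x (f • y)) :
    AR.Lam (MulAction.stabilizer G x ⊓ MulAction.stabilizer G y) g f := by
  classical
  obtain ⟨K, hK⟩ : ∃ K, K = MulAction.stabilizer G x ⊓ MulAction.stabilizer G y := ⟨_, rfl⟩
  have hvw0 : d v w ≠ 0 := fun h => hvw ((hd.d0 v w).1 h)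
  have hKH := le_H hd h1
  have hgg : g * g ∈ K := by
    rw [hK, Subgroup.mem_inf, MulAction.mem_stabilizer_iff, MulAction.mem_stabilizer_iff, mul_smul,
      mul_smul, hgx, hgy, hgx]
    exact ⟨rfl, rfl⟩
  have hAK : ∀ a ∈ A, a ∈ K := by
    intro a ha
    rw [hK, Subgroup.mem_inf, MulAction.mem_stabilizer_iff, MulAction.mem_stabilizer_iff]
    exact ⟨hA.triv a ha x, hA.triv a ha y⟩
  -- `f` commutes with `K` modulo `A`
  have hffy : f • f • y = y := by
    have := (Subgroup.mem_inf.1 hff).2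
    rw [MulAction.mem_stabilizer_iff, mul_smul] at this
    exact this
  have hpath : d (f • y) y = d (f • y) v + d v w + d w y := by
    have t1 := hd.tri (f • y) x v
    have t2 := hd.tri (f • y) v y
    have t3 := hd.tri v w y
    have c1 := hd.cm (f • y) y
    have c2 := hd.cm y x
    have c3 := hd.cm x (f • y)
    omega
  have hKf : ∀ k ∈ K, k ∈ MulAction.stabilizer G (f • y) ⊓ MulAction.stabilizer G y := by
    intro k hk
    have h3 := (hf k (by rw [← hK]; exact hk)).2
    rw [hK] at hk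
    rw [Subgroup.mem_inf, MulAction.mem_stabilizer_iff, MulAction.mem_stabilizer_iff] at h3 hk ⊢
    refine ⟨?_, hk.2⟩
    calc k • f • y = (f * (f⁻¹ * k * f)) • y := by rw [← mul_smul]; congr 1; group
      _ = f • y := by rw [mul_smul, h3.2]
  have hcf : ∀ k ∈ K, Commute ((QuotientGroup.mk' A) f) ((QuotientGroup.mk' A) k) := fun k hk =>
    cm_mk (hA.ex (f • y) y f hpath hffy rfl k (hKf k hk))
  have hcg : ∀ k ∈ K, Commute ((QuotientGroup.mk' A) g) ((QuotientGroup.mk' A) k) := fun k hk =>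
    cm_mk (hA.ex x y g h1 hgx hgy k (by rw [← hK]; exact hk))
  -- no squares in `A`
  have hg2 : ∀ k ∈ K, k * g * (k * g) ∉ A := by
    intro k hk h0
    have h3 := hA.triv _ (hA.two _ h0) x
    rw [hK, Subgroup.mem_inf, MulAction.mem_stabilizer_iff, MulAction.mem_stabilizer_iff] at hk
    rw [mul_smul, hgx, hk.2] at h3
    have h4 : d x y = 0 := (hd.d0 x y).2 h3.symm
    omega
  have hf2 : ∀ k ∈ K, k * f * (k * f) ∉ A := by
    intro k hk h0
    have h3 := hA.triv _ (hA.two _ h0) y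
    have h5 : f • y = y := by
      have h6 : k⁻¹ • y = y := by
        rw [hK, Subgroup.mem_inf, MulAction.mem_stabilizer_iff, MulAction.mem_stabilizer_iff] at hk
        rw [inv_smul_eq_iff]
        exact hk.2.symm
      rw [mul_smul] at h3
      have h7 : f • y = k⁻¹ • y := by rw [eq_inv_smul_iff]; exact h3
      rw [h7, h6]
    rw [h5] at h2
    have t1 := (hd.d0 y y).2 rfl
    have c2 := hd.cm y x
    omega
  rw [← hK]
  rw [← hK] at hKH hff
  intro F hF
  obtain ⟨p, hp⟩ : ∃ p, p = QuotientGroup.mk' A := ⟨_, rfl⟩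
  rw [← hp] at hcf hcg
  have hone : ∀ z, p z = 1 ↔ z ∈ A := by
    intro z
    rw [hp]
    exact AR.LOCM.one_iff
  obtain ⟨F', hF'⟩ : ∃ F' : Finset G, F' = insert (g * g) (insert (f * f) F) := ⟨_, rfl⟩
  have hF'K : ∀ z ∈ F', z ∈ K := by
    intro z hz
    rw [hF'] at hz
    rcases Finset.mem_insert.1 hz with rfl | hz
    · exact hgg
    rcases Finset.mem_insert.1 hz with rfl | hz
    · exact hff
    · exact hF z hz
  obtain ⟨K0, hK0⟩ : ∃ K0 : Subgroup (G ⧸ A), K0 = Subgroup.closure ((F'.image p : Finset (G ⧸ A)) :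
    Set (G ⧸ A)) := ⟨_, rfl⟩
  have hfg : K0.FG := ⟨F'.image p, hK0.symm⟩
  have hK0K : K0 ≤ K.map p := by
    rw [hK0, Subgroup.closure_le]
    intro z hz
    obtain ⟨z', hz', rfl⟩ := Finset.mem_image.1 (Finset.mem_coe.1 hz)
    exact ⟨z', hF'K z' hz', rfl⟩
  have hmem : ∀ z ∈ F', p z ∈ K0 := by
    intro z hz
    rw [hK0]
    exact Subgroup.subset_closure (Finset.mem_coe.2 (Finset.mem_image_of_mem p hz))
  have htfa : TFA K0 := by
    constructor
    · intro a ha b hb
      obtain ⟨a', ha', rfl⟩ := hK0K ha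
      obtain ⟨b', hb', rfl⟩ := hK0K hb
      have := cm_mk (hA.ab a' (hKH ha') b' (hKH hb'))
      rw [← hp] at this
      exact this.eq
    · intro a ha n hn hn1
      obtain ⟨a', ha', rfl⟩ := hK0K ha
      rw [← map_pow, hone] at hn1
      exact (hone a').2 (hA.tf a' (hKH ha') n hn hn1)
  have hsq : ∀ u : G, (∀ k ∈ K, k * u * (k * u) ∉ A) → ∀ k ∈ K0, k * p u * (k * p u) ≠ 1 := by
    intro u hu k hk h0
    obtain ⟨k', hk', rfl⟩ := hK0K hk
    rw [← map_mul, ← map_mul, hone] at h0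
    exact hu k' hk' h0
  have hcm : ∀ u : G, (∀ k ∈ K, Commute (p u) (p k)) → ∀ k ∈ K0, p u * k = k * p u := by
    intro u hu k hk
    obtain ⟨k', hk', rfl⟩ := hK0K hk
    exact (hu k' hk').eq
  obtain ⟨Q, hL, hgQ, hfQ, lam, h3, h4, h5⟩ := hABQ (G ⧸ A) K0 (p g) (p f) hfg htfa (hcm g hcg)
    (hcm f hcf) (by rw [← map_mul]; exact hmem _ (by rw [hF']; simp))
    (by rw [← map_mul]; exact hmem _ (by rw [hF']; simp)) (hsq g hg2) (hsq f hf2)
  refine ⟨Q.comap p, hgQ, hfQ, lam.comp (p.subgroupComap Q), ?_, h4, h5⟩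
  intro z hz
  have h6 : p z ∈ K0 := hmem z (by
    rw [hF']
    exact Finset.mem_insert_of_mem (Finset.mem_insert_of_mem hz))
  exact ⟨hL h6, h3 _ h6⟩

/-- **The case that `H / A` is locally infinite cyclic.** -/
theorem cycA {G V : Type} [Group G] [MulAction G V] {d : V → V → ℕ} (hd : TM G d) {v w : V}
    (hvw : v ≠ w) {A : Subgroup G} [A.Normal] (triv : ∀ a ∈ A, ∀ x : V, a • x = x)
    (two : ∀ g : G, g * g ∈ A → g ∈ A)
    (h : AR.LIC A (MulAction.stabilizer G v ⊓ MulAction.stabilizer G w)) : AbA G d v w A := by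
  have hvw0 : d v w ≠ 0 := fun h => hvw ((hd.d0 v w).1 h)
  refine ⟨triv, two, ?_, ?_, ?_⟩
  · intro a ha b hb
    obtain ⟨z, hz, i, j, h1, h2⟩ := h.1 a ha b hb
    refine mk_cm ?_
    rw [AR.LOCM.mk_eq h1, AR.LOCM.mk_eq h2]
    exact ((Commute.refl _).zpow_left i).zpow_right j
  · intro a ha n hn hn1
    rcases h.2 a ha n (by rw [zpow_natCast]; exact hn1) with h0 | h0
    · exact absurd (Int.natCast_eq_zero.1 h0) hn
    · exact h0
  · intro x y g h1 hgx hgy k hk
    have hKH := le_H hd h1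
    refine mk_cm (AR.LOCM.comm' h hKH ?_ ?_ ?_ hk)
    · -- `g` normalizes the stabilizer
      have hgi : g⁻¹ • x = y := by rw [inv_smul_eq_iff]; exact hgy.symm
      have hgi' : g⁻¹ • y = x := by rw [inv_smul_eq_iff]; exact hgx.symm
      intro k hk
      rw [Subgroup.mem_inf, MulAction.mem_stabilizer_iff, MulAction.mem_stabilizer_iff] at hk
      constructor
      · rw [Subgroup.mem_inf, MulAction.mem_stabilizer_iff, MulAction.mem_stabilizer_iff, mul_smul,
          mul_smul, mul_smul, mul_smul, hgi, hgi', hk.1, hk.2, hgx, hgy]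
        exact ⟨rfl, rfl⟩
      · rw [Subgroup.mem_inf, MulAction.mem_stabilizer_iff, MulAction.mem_stabilizer_iff, mul_smul,
          mul_smul, mul_smul, mul_smul, hgx, hgy, hk.1, hk.2, hgi, hgi']
        exact ⟨rfl, rfl⟩
    · rw [Subgroup.mem_inf, MulAction.mem_stabilizer_iff, MulAction.mem_stabilizer_iff, mul_smul,
        mul_smul, hgx, hgy, hgx]
      exact ⟨rfl, rfl⟩
    · intro h0
      have h3 := triv _ (two _ h0) x
      rw [hgx] at h3
      have h4 : d x y = 0 := (hd.d0 x y).2 h3.symm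
      omega

end Pool.Agent.Lib.MP8a3537.LL2
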