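import Pool.Agent.Lib.MP_8a3537_gt.LLX.Main

/-!
# Short chains (MP_8a3537_gt, folder LL2): definitions and Specs (helper28)

In the folders LL and LLX an unstable flip `x` of a pair `x1`, `x2` is handled by the whole theorem for the longer pair
`x1`, `x x1` (`HU`, `SE`). Here only the two pieces `x`, `y'`, `y' ∈ D2 L y`, of the longer pair are used, with the
same nilpotency index. Consequence: the chain condition is only needed for chains of exchanged pairs with stabilizers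
`K i` and exchanging elements `u i` such that `u (i + 2) ∈ K i * u i`.

Every module `XXX` is a file `Pool/Agent/Lib/MP_8a3537_gt/LL2/XXX.lean` which imports this file and proves
`theorem specXXX (deps, in this order) : SpecXXX` in the namespace `Pool.Agent.Lib.MP8a3537.LL2`, own lemmas in
the namespace `XXXM`. All landed lemmas of the folders UV, AU, RO, ROK, ROW, LL, LLX may be used, in particular
`mWDA`, `mWNI`, `mEFA`, `mNWT`, `mWDK`, `mSBK`, `mBLK`, `mBLG`, `mSTY`, `mMNK` of `ROK/Main.lean`, `LL.mDWP`, `LL.specDWG`,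
`LL.mDCM`, `LL.specSGN LL.mDWP LL.specDWG`, `LL.SGSM.lines`, `LL.SGSM.swap0`, `LL.SGSM.swapUF`, `LL.SGSM.Cl_swap`, `LL.SGSM.D2_flip`,
`LL.SGSM.D2_nonflip`, `LL.SGSM.dc_La`, `LL.DCMM.pt_D2`, `LL.DCMM.self_mem`, `LL.CHNM.lt_of`, `LLX.hln`. IMPORTANT: a script
replaces `StablyHyperbolic` by `AR.SHp` in all these folders; so use only facts on `StablyHyperbolic` which are stated as
theorems (never unfold it).
-/

set_option autoImplicit false

namespace Pool.Agent.Lib.MP8a3537.LL2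

open Matrix Pool.Agent.Lib.MP8a3537.UV Pool.Agent.Lib.MP8a3537.AU Pool.Agent.Lib.MP8a3537.RO
open Pool.Agent.Lib.MP8a3537.ROK Pool.Agent.Lib.MP8a3537.LL

/-! ### Definitions -/

section Groups

variable {G : Type} [Group G]

/-- No element of the double coset of `x` has order `2`. -/
def NI (K : Subgroup G) (x : G) : Prop := ∀ z ∈ dc K x, z * z ≠ 1

end Groups

/-- The matrix `Ξ` (entries in `R[L]`) cancels on the right of matrices with entries in a set `W` which meets the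
right cosets of `K` in `L` at most once: `w t = w' t'` implies `K t = K t'`. -/
def Cnc {R G : Type} [Ring R] [Group G] (L K : Subgroup G) {r n : ℕ}
    (Ξ : Matrix (Fin r) (Fin n) (MonoidAlgebra R G)) : Prop :=
  ∀ W : Set G, (∀ w ∈ W, ∀ w' ∈ W, ∀ t ∈ L, ∀ t' ∈ L, w * t = w' * t' → t' * t⁻¹ ∈ K) →
    ∀ (m : Type) (Y : Matrix m (Fin r) (MonoidAlgebra R G)), SuppIn W Y → Y * Ξ = 0 → Y = 0

section Geometry

variable (R G : Type) {V : Type} [Ring R] [StarRing R] [Group G] [MulAction G V] (d : V → V → ℕ)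

/-- The claim for the index `N` and the two pieces `D2 L x`, `D2 L y` of the pair `x1`, `x2`. -/
def SP (N : ℕ) (x1 x2 : V) (x y : G) : Prop :=
  ∀ (L : Subgroup G) (X1 X2 Yp Ym : Set G), PPK L X1 X2 ∅ Yp Ym → Geo d L X1 X2 ∅ x1 x2 →
    x ∈ X1 → y ∈ X2 → ∀ (ε : ℤˣ) (n : ℕ) (ψ χ : Matrix (Fin n) (Fin n) (MonoidAlgebra R G)),
    SuppIn (D2 L x) ψ → SuppIn (D2 L y) χ →
    (nu ε (ψ + (ε : ℤ) • ψᴴ) 0 (χ + (ε : ℤ) • χᴴ)) ^ N = 0 → StablyHyperbolic ε (UF ψ 0 χ)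

/-- Good pairs of flips `x`, `y` of the pair `x1`, `x2`. -/
inductive GP (Q : Subgroup G → Prop) : V → V → G → G → Prop
  | reg {x1 x2 : V} {x y : G} : Q (MulAction.stabilizer G x1 ⊓ MulAction.stabilizer G x2) →
      GP Q x1 x2 x y
  | line {x1 x2 : V} {x y : G} :
      Ns (MulAction.stabilizer G x1 ⊓ MulAction.stabilizer G x2) x →
      Ns (MulAction.stabilizer G x1 ⊓ MulAction.stabilizer G x2) y → HS R G d x1 x2 →
      GP Q x1 x2 x y
  | stx {x1 x2 : V} {x y : G} :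
      (∀ y' ∈ dc (MulAction.stabilizer G x1 ⊓ MulAction.stabilizer G x2) y,
        y' * y' ∈ MulAction.stabilizer G x1 ⊓ MulAction.stabilizer G (x • x1) →
        GP Q x1 (x • x1) x y') → GP Q x1 x2 x y
  | sty {x1 x2 : V} {x y : G} :
      (∀ x' ∈ dc (MulAction.stabilizer G x1 ⊓ MulAction.stabilizer G x2) x,
        x' * x' ∈ MulAction.stabilizer G (y • x2) ⊓ MulAction.stabilizer G x2 →
        GP Q (y • x2) x2 x' y) → GP Q x1 x2 x y

/-- The pairs of the class `P` can be made longer on both sides. -/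
structure Lng (P : V → V → Prop) : Prop where
  r : ∀ (x1 x2 : V) (x : G), P x1 x2 → x • x • x1 = x1 →
    d x1 (x • x1) = d x1 x2 + d x2 (x • x1) → P x1 (x • x1)
  l : ∀ (x1 x2 : V) (y : G), P x1 x2 → y • y • x2 = x2 →
    d x2 (y • x2) = d x2 x1 + d x1 (y • x2) → P (y • x2) x2

end Geometry

/-! ### Part 1: forms -/

/-- **FAT** (size 220; see `RO/FAC.lean`): factorization of `ψ` through `K' g`, `K' = Kg L g`.

PROOF. `g` normalizes `K'`: `k ∈ K'`: `g k g⁻¹ = (g g) (g⁻¹ k g) (g g)⁻¹ ∈ L`, `g⁻¹ (g k g⁻¹) g = k ∈ L`; the same for `g⁻¹`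
(`g⁻¹ = (g g)⁻¹ g`). Let `ρ a` be a representative of the right coset `K' a` (`Quotient.out` for `QuotientGroup.rightRel K'`, or
choice): `ρ a * a⁻¹ ∈ K'`, `ρ a = ρ b` if `b a⁻¹ ∈ K'`. For `x = h g h'`, `h, h' ∈ L`, put `s = ρ h⁻¹`, `t = ρ h'` (in `L`): `h = s⁻¹ k1`,
`h' = k2 t`, so `x = s⁻¹ (k1 (g k2 g⁻¹)) g t ∈ s⁻¹ K' g t`. Let `T : Finset G` be the set of the `s`, `t` for all `x` in the supports of the entries of
`ψ` (finitely many): `T ⊆ L`, and `s, s' ∈ T`, `s' s⁻¹ ∈ K'` implies `s = s'`. Index set `Fin n × T ≃ Fin r`. `Ξ ((i, s), j) = single s 1` if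
`i = j`, else `0`. The set of the matrices `Ξᴴ ψ' Ξ` with `SuppIn (La K' g) ψ'` is closed under sums and contains the matrix with the only
entry `single x c` at `(i, j)` for `x = s⁻¹ k g t` (take `ψ'` with the only entry `single (k g) c` at `((i, s), (j, t))`); so it contains
`ψ`. `Cnc`: `(Y Ξ)_{a j} = ∑_{s ∈ T} Y_{a (j, s)} * single s 1`; if `Y_{a (j, s0)}` is not `0` at `w`, then look at `x = w s0`: if `Y_{a (j, s)}` is not `0` at
`x s⁻¹` then `(x s⁻¹) s = w s0`, both in `W`, so `s0 s⁻¹ ∈ K'`, `s = s0`. So the coefficient of `(Y Ξ)_{a j}` at `x` is that of `Y_{a (j, s0)}` at `w`. -/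
def SpecFAT : Prop :=
  ∀ (R G : Type) [Ring R] [StarRing R] [Group G] (L : Subgroup G) (g : G), g * g ∈ L →
    ∀ (n : ℕ) (ψ : Matrix (Fin n) (Fin n) (MonoidAlgebra R G)), SuppIn (dc L g) ψ →
    ∃ (r : ℕ) (Ξ : Matrix (Fin r) (Fin n) (MonoidAlgebra R G))
      (ψ' : Matrix (Fin r) (Fin r) (MonoidAlgebra R G)), SuppIn (L : Set G) Ξ ∧
      SuppIn (La (Kg L g) g) ψ' ∧ ψ = Ξᴴ * ψ' * Ξ ∧ Cnc L (Kg L g) Ξ

/-- **UWD** (size 60): uniqueness for words of the same length.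

PROOF. Induction on `k`. `k = 0`: both in `H`. `k + 1`: `z = x z1`, `z' = x' z1'`; `z1 y`, `z1' y'` are in `YB` (`mWDA` (4) with `X1' = X1`;
`Sub1 H X1 X2 X3 Yp Ym X1`); `RO.specUNQ` (2): the same type, `h = x⁻¹ x' ∈ H`; `z1 y = (h z1') y'`, `h z1'` is a word of length `k` (`mWDA` (1));
induction: `z1⁻¹ (h z1') ∈ H`, which is `z⁻¹ z'`. -/
def SpecUWD : Prop :=
  ∀ (G : Type) [Group G] (H : Subgroup G) (X1 X2 X3 Yp Ym : Set G), PingPong H X1 X2 X3 Yp Ym →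
    ∀ (k : ℕ) (s t : Bool) (z z' y y' : G), Wd H X1 X2 X3 k s t z → Wd H X1 X2 X3 k s t z' →
    y ∈ YB Yp Ym t → y' ∈ YB Yp Ym t → z * y = z' * y' → z⁻¹ * z' ∈ H

/-- **IDX** (size 250, dep `SpecUWD`; see `UV/NIL.lean`): the index is preserved.

PROOF. `α = ψ' + ε ψ'ᴴ`, `b = χ + ε χᴴ`, `a = Ξᴴ α Ξ`, `θ = Ξ b Ξᴴ` (these are the polarizations of `Ξᴴ ψ' Ξ`, `Ξ χ Ξᴴ`), `ν = nu ε a 0 b`,
`ν' = nu ε α 0 θ`. `τ = fromBlocks 0 (ε b) (Ξᴴ α) 0` (rows `n ⊕ n`, columns `r ⊕ n`), `P = fromBlocks Ξ 0 0 1` (rows `r ⊕ n`, columns `n ⊕ n`),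
`Q = fromBlocks 1 0 0 Ξᴴ` (rows `r ⊕ n`, columns `r ⊕ r`), `M = P τ = fromBlocks 0 (ε Ξ b) (Ξᴴ α) 0`. `ν = τ P`, `Q ν' = M Q`, so `P ν^N = M^N P`,
`Q ν'^N = M^N Q`. Supports: the block `(s, t)` of `M^k` is supported in `{z | Wd L X1 X2 ∅ k s t z}` (`Ξ b`: `L X2 ⊆ X2`; `Ξᴴ α`: `La K' g ⊆ X1` and it is closed
under inverses (`mSBK` (2), (3)), `L X1 ⊆ X1`); the same for `ν'^k`. Let `WE k s = {z | ∃ u, Wd L X1 X2 ∅ k s false u ∧ ∃ e ∈ La K' g, z = u * e}`.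
CLAIM: `WE k s` satisfies the hypothesis in `Cnc`: `u e t = u' e' t'`, `t, t' ∈ L`: `e t`, `e' t' ∈ Ym` (`X1Y`, `Yp1`, `Ypl`), UWD: `h = u⁻¹ u' ∈ L`,
`e t = h e' t'`, `e = k g`, `e' = k' g`, so `g (t t'⁻¹) g⁻¹ = k⁻¹ h k' ∈ L`; `g⁻¹ (t t'⁻¹) g = (g g)⁻¹ (g (t t'⁻¹) g⁻¹) (g g) ∈ L`, so `t t'⁻¹ ∈ K'`. The column
`inl` of `M^N = M^(N-1) M` is `(M^(N-1))_(s,inr) Ξᴴ α`, supported in `WE (N-1) s` (`u l` is a word for `l ∈ L`), `M^N P = 0`: cancel `Ξ` in the column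
`inl`: `M^N = 0`. (HINT for the supports: `ty : α ⊕ β → Bool`, `ty (inl _) = true`, `ty (inr _) = false`, and the predicate `∀ i j z, (M^k i j).coeff z ≠ 0 →
Wd L X1 X2 ∅ k (ty i) (ty j) z`.) So `Q ν'^N = 0`: the rows `inl` of `ν'^N` are `0`, and `Ξᴴ (rows inr) = 0`; the rows `inr` of `ν'^N = ν' ν'^(N-1)` are
`α (ν'^(N-1))_(inl, t)`, so the star of them is supported in `{u⁻¹ e⁻¹}`, contained in `WE (N-1) (!t)` (`mWDA` (3)), and (star) `(rows)ᴴ Ξ = 0`: cancel. -/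
def SpecIDX : Prop :=
  ∀ (R G : Type) [Ring R] [StarRing R] [Group G] (L : Subgroup G) (X1 X2 Yp Ym : Set G),
    PingPong L X1 X2 ∅ Yp Ym → ∀ g ∈ X1, g * g ∈ L → ∀ (ε : ℤˣ) (n r N : ℕ), 1 ≤ N →
    ∀ (Ξ : Matrix (Fin r) (Fin n) (MonoidAlgebra R G))
      (ψ' : Matrix (Fin r) (Fin r) (MonoidAlgebra R G))
      (χ : Matrix (Fin n) (Fin n) (MonoidAlgebra R G)), SuppIn (L : Set G) Ξ →
    Cnc L (Kg L g) Ξ → SuppIn (La (Kg L g) g) ψ' → SuppIn X2 χ →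
    (nu ε (Ξᴴ * ψ' * Ξ + (ε : ℤ) • (Ξᴴ * ψ' * Ξ)ᴴ) 0 (χ + (ε : ℤ) • χᴴ)) ^ N = 0 →
    (nu ε (ψ' + (ε : ℤ) • ψ'ᴴ) 0 (Ξ * χ * Ξᴴ + (ε : ℤ) • (Ξ * χ * Ξᴴ)ᴴ)) ^ N = 0

/-- **SGV** (size 80, deps `SpecFAT`, `SpecIDX`; imports `UV/EMV`): a flip `g`, forms.

PROOF. FAT: `ψ = Ξᴴ ψ' Ξ`; `κ = Ξ χ Ξᴴ` is supported in `c` (`L c L ⊆ c`). IDX. `specEMV` (or its name in `UV/EMV.lean`) with `m' = 0`, `p = Ξ`:
`UF ψ' (Ξ * 0) (Ξ * χ * Ξᴴ)` stably hyperbolic implies `UF (Ξᴴ * ψ' * Ξ) (0 * Ξ) χ` stably hyperbolic. -/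
def SpecSGV : Prop :=
  ∀ (R G : Type) [Ring R] [StarRing R] [Group G] (L : Subgroup G) (X1 X2 Yp Ym : Set G),
    PingPong L X1 X2 ∅ Yp Ym → ∀ g ∈ X1, g * g ∈ L → ∀ c : Set G, Pt L X2 c →
    ∀ (ε : ℤˣ) (n N : ℕ), 1 ≤ N → ∀ ψ χ : Matrix (Fin n) (Fin n) (MonoidAlgebra R G),
    SuppIn (dc L g) ψ → SuppIn c χ →
    (nu ε (ψ + (ε : ℤ) • ψᴴ) 0 (χ + (ε : ℤ) • χᴴ)) ^ N = 0 →
    (∀ (r : ℕ) (ψ' κ : Matrix (Fin r) (Fin r) (MonoidAlgebra R G)),
      SuppIn (La (Kg L g) g) ψ' → SuppIn c κ →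
      (nu ε (ψ' + (ε : ℤ) • ψ'ᴴ) 0 (κ + (ε : ℤ) • κᴴ)) ^ N = 0 →
      StablyHyperbolic ε (UF ψ' 0 κ)) → StablyHyperbolic ε (UF ψ 0 χ)

/-! ### Part 2: pieces -/

/-- **STP** (size 180, dep `SpecSGV`): the step from the pair `x1`, `x2` to the pair `x1`, `x x1`.

PROOF. `D2 L x = dc L x` (`x x ∈ L`; `SGSM.D2_flip` with `h = 1`, or `ELMAux.dc_inv`). SGV with `c = D2 L y` (`Pt L X2 c`: `DCMM.pt_D2` for the
exchanged data, `specSYK`). `K' = Kg L x`. `mBLK`, `mBLG`: `PPK K' (La K' x) (BX L X1 X2 ∅ x) ∅ ..`, `Geo d K' (La K' x) (BX ..) ∅ x1 (x • x1)`. `c ⊆ X2 ⊆ BX ..`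
(`mWDA` (5): words with one letter; `Sub1`: `mSBK` (4)). `Pt K' (BX ..) c` (`K' ≤ L`), `Pt K' (La K' x) (La K' x)` (`mSBK` (3)). `mDWP`, `specDWG` (second
parts): data `K'`, `La K' x`, `c`, ends `x1`, `x • x1`. `mDCM` for these data (index `N`): pieces `x' ∈ La K' x`, `y' ∈ c`: `D2 K' x' ⊆ D2 K' x`
(`SGSM.dc_trans`), so `SP R G d N x1 (x • x1) x y'` applies (`x ∈ La K' x`). -/
def SpecSTP : Prop :=
  ∀ (R G V : Type) [Ring R] [StarRing R] [Group G] [MulAction G V] (d : V → V → ℕ), TM G d →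
    ∀ (N : ℕ) (x1 x2 : V), 1 ≤ N →
    ∀ (L : Subgroup G) (X1 X2 Yp Ym : Set G), PPK L X1 X2 ∅ Yp Ym → Geo d L X1 X2 ∅ x1 x2 →
    ∀ x ∈ X1, x * x ∈ L → ∀ y ∈ X2, (3 ≤ N → Cl R G d (N - 1) x1 (x • x1)) →
    (∀ y' ∈ D2 L y, SP R G d N x1 (x • x1) x y') →
    ∀ (ε : ℤˣ) (n : ℕ) (ψ χ : Matrix (Fin n) (Fin n) (MonoidAlgebra R G)),
      SuppIn (D2 L x) ψ → SuppIn (D2 L y) χ →
      (nu ε (ψ + (ε : ℤ) • ψᴴ) 0 (χ + (ε : ℤ) • χᴴ)) ^ N = 0 → StablyHyperbolic ε (UF ψ 0 χ)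

/-- **SPB** (size 150, dep `SpecSTP`): a flip `x` and a non-flip `y`; and the exchange.

PROOF. Part 1: `specSYK` (3), (4), `SGSM.swapUF`, `SGSM.swap0` (as `SGSM.Cl_swap`). Part 2: data `L` with the ends `x1`, `x2`:
`L = stabilizer x1 ⊓ stabilizer x2` (`st`). STP; let `y' ∈ D2 L y`, and take data `L'`, `X1'`, .. with the ends `x1`, `x • x1`:
`L' = stabilizer x1 ⊓ stabilizer (x • x1)`, which is `Kg L x` by `mBLG` (`st`), so `L' ≤ L`. `x x ∈ L'` (`x x` fixes `x1` and so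
`x • x1`), `Ns L' x` (`x` exchanges `x1` and `x • x1`). `Flip L' y'` would imply `Flip L y'`, contradiction to `SGSM.D2_nonflip`. So
`LL.specSGN mDWP specDWG` for the ends `x1`, `x • x1` applies (`D2 L' x ⊆ dc L' x`; the elements of `D2 L' y'` are not flips: `D2_nonflip`). -/
def SpecSPB : Prop :=
  ∀ (R G V : Type) [Ring R] [StarRing R] [Group G] [MulAction G V] (d : V → V → ℕ), TM G d →
    ∀ (N : ℕ) (x1 x2 : V) (x y : G), 1 ≤ N →
    (SP R G d N x2 x1 y x → SP R G d N x1 x2 x y) ∧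
    (x * x ∈ MulAction.stabilizer G x1 ⊓ MulAction.stabilizer G x2 →
      ¬ Flip (MulAction.stabilizer G x1 ⊓ MulAction.stabilizer G x2) y →
      (3 ≤ N → Cl R G d (N - 1) x1 (x • x1)) → SP R G d N x1 x2 x y)

/-- **SPC** (size 220, deps `SpecSTP`, `SpecSPB`): good pairs of flips.

PROOF. Induction on `GP` (for all `P x1 x2`, `x x ∈ K`, `y y ∈ K`; `K = stabilizer x1 ⊓ stabilizer x2`; for data with these ends `L = K`).
`reg`: `hQ` (`D2 L x ⊆ X1`, `D2 L y ⊆ X2`: `DCMM.D2_sub`). `line`: `SGSM.lines` (and `SGSM.dc_La`, `D2_flip`). `stx`: data `L` with `x ∈ X1`, `y ∈ X2`;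
`mv`: `d x1 (x • x1) = d x1 x2 + d x2 (x • x1)` (see `SGSM.lines`), `x • x • x1 = x1`, so `P x1 (x • x1)` (`Lng.r`). STP: let `y' ∈ D2 L y` (`= dc L y`, as
`y y ∈ L`), `K' = stabilizer x1 ⊓ stabilizer (x • x1)` (`≤ K`, it is `Kg L x` by `mBLG`), `x x ∈ K'`. If `¬ Flip K' y'`: SPB, part 2, for the pair
`x1`, `x • x1`; its hypothesis is `3 ≤ N → Cl R G d (N - 1) x1 (x • x1)` again. If `Flip K' y'`: `y'' = y' k`, `k ∈ K'`, `y'' y'' ∈ K'`,
`y' ∈ dc K' y''` (`ROTAux.exists_flip`); `y'' ∈ dc K y`, so `GP Q x1 (x • x1) x y''`, induction: `SP R G d N x1 (x • x1) x y''`, so (for the data of `SP`: `y'' ∈ X2`,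
`D2 K' y' ⊆ D2 K' y''`) `SP R G d N x1 (x • x1) x y'`. `sty`: the same for the exchanged pair: SPB, part 1, STP for the ends `x2`, `x1` and the
flips `y`, `x`: let `x' ∈ D2 L x`; `SP R G d N x2 (y • x2) y x'` from `SP R G d N (y • x2) x2 x' y` (SPB, part 1), by induction or, if `x'` is not a flip for
`stabilizer (y • x2) ⊓ stabilizer x2` (`inf_comm`), by SPB, part 2; `Cl R G d (N - 1) x2 (y • x2)`: `SGSM.Cl_swap`. -/
def SpecSPC : Prop :=
  ∀ (R G V : Type) [Ring R] [StarRing R] [Group G] [MulAction G V] (d : V → V → ℕ), TM G d →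
    ∀ (Q : Subgroup G → Prop) (P : V → V → Prop) (N : ℕ), 1 ≤ N →
    (∀ x1 x2 : V, Q (MulAction.stabilizer G x1 ⊓ MulAction.stabilizer G x2) →
      Cl R G d N x1 x2) → Lng G d P → (3 ≤ N → ∀ x1 x2 : V, P x1 x2 → Cl R G d (N - 1) x1 x2) →
    ∀ (x1 x2 : V) (x y : G), GP R G d Q x1 x2 x y → P x1 x2 →
      x * x ∈ MulAction.stabilizer G x1 ⊓ MulAction.stabilizer G x2 →
      y * y ∈ MulAction.stabilizer G x1 ⊓ MulAction.stabilizer G x2 → SP R G d N x1 x2 x y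

/-- **CLN** (size 180, deps `SpecSPB`, `SpecSPC`): all pairs of the class `P`.

PROOF. Induction on `N` (`N = 1`: `3 ≤ N` is false). `mDCM` for the pair `x1`, `x2`: pieces `x ∈ X1`, `y ∈ X2` (`L = K` by `st`). Neither is a flip:
`mNWT` (see `LL/SGS.lean`). If `x` is a flip: `g = x h`, `g g ∈ L`, `D2 L x ⊆ D2 L g` (`ROTAux.exists_flip`); the same for `y`: `f = y k`. `x` a flip, `y` not:
SPB, part 2, for `g`, `y` (`P x1 (g • x1)` by `Lng.r`: `mv` for `g`). `y` a flip, `x` not: SPB, part 1, and part 2 for `f`, `x` and the ends `x2`, `x1`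
(`Cl_swap`, `Lng.l`). Both flips: the hypothesis gives `GP R G d Q x1 x2 g f` (`mv` for `g` at `x1` and for `f` at `x2`; `NI`: `dc L g ⊆ X1`, `X1n`), SPC.
Second part: `SE`: see `LL/CLM.lean` (`IsNilpotent` gives `N ≥ 1`), and `Cl_swap`. -/
def SpecCLN : Prop :=
  ∀ (R G V : Type) [Ring R] [StarRing R] [Group G] [MulAction G V] (d : V → V → ℕ), TM G d →
    ∀ (Q : Subgroup G → Prop) (P : V → V → Prop),
    (∀ N : ℕ, 1 ≤ N → ∀ x1 x2 : V,
      Q (MulAction.stabilizer G x1 ⊓ MulAction.stabilizer G x2) → Cl R G d N x1 x2) →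
    Lng G d P →
    (∀ (x1 x2 : V) (x y : G), P x1 x2 →
      x * x ∈ MulAction.stabilizer G x1 ⊓ MulAction.stabilizer G x2 →
      y * y ∈ MulAction.stabilizer G x1 ⊓ MulAction.stabilizer G x2 →
      d x1 (x • x1) = d x1 x2 + d x2 (x • x1) → d x2 (y • x2) = d x2 x1 + d x1 (y • x2) →
      NI (MulAction.stabilizer G x1 ⊓ MulAction.stabilizer G x2) x →
      NI (MulAction.stabilizer G x1 ⊓ MulAction.stabilizer G x2) y → GP R G d Q x1 x2 x y) →
    (∀ N : ℕ, 1 ≤ N → ∀ x1 x2 : V, P x1 x2 → Cl R G d N x1 x2) ∧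
    ∀ x1 x2 : V, P x1 x2 → SE R G d x1 x2 ∧ SE R G d x2 x1

/-! ### Part 3: chains -/

/-- **CHS** (size 300; see `LL/CHN.lean`, `LLX/Main.lean`): chains.

PROOF. Put `K = stabilizer x ⊓ stabilizer y` for a pair `x`, `y`, `Bt p q r : d p r = d p q + d q r`. By contradiction. A STATE is
(`x`, `y`, `side : Bool`, `u`, `w`) with: `d x y = d x v + d v w0 + d w0 y` (`w0` the vertex `w` of the statement), `u • x = y`, `u • y = x`,
`w * w ∈ K`, `NI K u`, `NI K w`, and for `side = true`: `Bt y x (w • y)`, `¬ GP x y u w`; for `side = false`: `Bt x y (w • x)`, `¬ GP x y w u`.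
STEP (`side = true`): `x ≠ y` (`d v w0 ≠ 0`). `Q K` fails (`reg`), so `HS` (`hline`). `Ns K u` because `u` exchanges `x`, `y`. So `¬ Ns K w` (`line`). `¬ sty`: there is
`u' ∈ dc K u` with `u' u' ∈ K' = stabilizer (w • y) ⊓ stabilizer y` and `¬ GP (w • y) y u' w`. The new state: `w • y`, `y`, `false`, `w`, `u'`. Checks:
`w • w • y = y`; `Bt (w • y) x y` gives the path condition (`FinalAux`, or `omega` with `hd.tri`, as in `LL/CHN.lean`); `K' < K` by `CHNM.lt_of`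
(`¬ Ns K w`; see `LL/CHN.lean`), `NI K' w`, `NI K' u'` (`dc K' u' ⊆ dc K u`). `u' = k u`, `k ∈ K` (`SGSM.dc_La`), so `u'` exchanges `x` and `y`; `Bt (w • y) y (u' • w • y)`:
apply `u'` to `Bt y x (w • y)`: `Bt x y (u' • w • y)`; with `Bt y x (w • y)` and `x ≠ y`: `specTFA` (2): `d (w • y) (u' • w • y) = d (w • y) x + d x y + d y (u' • w • y)`. The step for
`side = false` is the same with the roles exchanged: `¬ stx`, `u' ∈ dc K u`, new state `x`, `w • x`, `true`, `w`, `u'`. FIRST STATE from the data (`x1`, `x2`, `x`, `y`),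
`¬ GP x1 x2 x y`: not `Q K`, so `HS`, so one of `x`, `y` is not in `Ns K`. If `¬ Ns K x`: `¬ stx`: `y' ∈ dc K y`, `y' y' ∈ K'`, `¬ GP x1 (x • x1) x y'`: state `x1`, `x • x1`, `true`,
`x`, `y'`. `Bt (x • x1) x1 (y' • x • x1)`: put `q = x • x1`, `p = y' • x2`. `y' x2 = k y x2` with `k ∈ K`, so `Bt x2 x1 p` (`iso`); `y' y'` fixes `x1`, `q` and so `x2`. `y'` applied to
`Bt x1 x2 q`: `Bt (y' x1) p (y' q)`; `y'` applied to `Bt x2 x1 p`: `Bt p (y' x1) x2`. TFA (2): `d q p = d q x2 + d x2 x1 + d x1 p`, `d x2 (y' q) = d x2 (y' x1) + d (y' x1) p + d p (y' q)`;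
so `Bt q x2 p`, `Bt x2 p (y' q)`, `x2 ≠ p`: `d q (y' q) = d q x2 + d x2 p + d p (y' q)`, and `d x2 p = d x2 x1 + d x1 p`; with the triangle inequalities
`Bt q x1 (y' q)`. If `¬ Ns K y`: the same with the roles exchanged (`¬ sty`, state `y • x2`, `x2`, `false`, `y`, `x'`). The sequence of the states (choose) contradicts
`hchain`: `x i`, `y i`, `u i`; `u (i + 2)` is the `u'` of the step `i`, `u (i + 1) = w i`, `h * u i ∈ dc (K i) (u i)` and `NI`. -/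
def SpecCHS : Prop :=
  ∀ (R G V : Type) [Ring R] [StarRing R] [Group G] [MulAction G V] (d : V → V → ℕ), TM G d →
    ∀ (Q : Subgroup G → Prop) (v w : V), v ≠ w →
    (∀ x y : V, d x y = d x v + d v w + d w y → (∃ g : G, g • x = y ∧ g • y = x) →
      Q (MulAction.stabilizer G x ⊓ MulAction.stabilizer G y) ∨ HS R G d x y) →
    (∀ (x y : ℕ → V) (u : ℕ → G), (∀ i, d (x i) (y i) = d (x i) v + d v w + d w (y i)) →
      (∀ i, u i • x i = y i ∧ u i • y i = x i) →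
      (∀ i, x (i + 1) = x i ∨ y (i + 1) = y i) →
      (∀ i, d (x (i + 1)) (y (i + 1)) = d (x (i + 1)) (x i) + d (x i) (y i) + d (y i) (y (i + 1))) →
      (∀ i, MulAction.stabilizer G (x (i + 1)) ⊓ MulAction.stabilizer G (y (i + 1)) <
        MulAction.stabilizer G (x i) ⊓ MulAction.stabilizer G (y i)) →
      (∀ i, ∃ h ∈ MulAction.stabilizer G (x i) ⊓ MulAction.stabilizer G (y i), u (i + 2) = h * u i) →
      (∀ i, ∀ h ∈ MulAction.stabilizer G (x i) ⊓ MulAction.stabilizer G (y i),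
        h * u i * (h * u i) ≠ 1) →
      ∃ i, Q (MulAction.stabilizer G (x i) ⊓ MulAction.stabilizer G (y i))) →
    ∀ (x1 x2 : V) (x y : G), d x1 x2 = d x1 v + d v w + d w x2 →
      (∃ g : G, g • x1 = x2 ∧ g • x2 = x1) →
      x * x ∈ MulAction.stabilizer G x1 ⊓ MulAction.stabilizer G x2 →
      y * y ∈ MulAction.stabilizer G x1 ⊓ MulAction.stabilizer G x2 →
      d x1 (x • x1) = d x1 x2 + d x2 (x • x1) → d x2 (y • x2) = d x2 x1 + d x1 (y • x2) →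
      NI (MulAction.stabilizer G x1 ⊓ MulAction.stabilizer G x2) x →
      NI (MulAction.stabilizer G x1 ⊓ MulAction.stabilizer G x2) y → GP R G d Q x1 x2 x y

/-- **FLS** (size 150, deps `SpecCLN`, `SpecCHS`): the theorem for trees (see `LLX.fll`, `LLX.main` in `LLX/Main.lean`).

PROOF. `P x y : d x y = d x v + d v w + d w y ∧ ∃ g, g • x = y ∧ g • y = x` satisfies `Lng` (`x • x • x1 = x1`: `x` exchanges `x1` and `x • x1`; the path: `omega`
with `hd.tri`, see `LLX.chn`). CHS with `hline` from `LLX.hln` (as in `LLX.main`), CLN: `SE` for the pairs of `P`. `mMNK` with the ends `w`, `v`, as in `LLX.fll`: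
for `g` with `g v = v`, `g w ≠ w`, `g g ∈ H` the pair `g w`, `w` is in `P`, for `g` with `g w = w`, `g v ≠ v` the pair `v`, `g v`. -/
def SpecFLS : Prop :=
  ∀ (R G V : Type) [Ring R] [StarRing R] [Group G] [MulAction G V] (Q : Subgroup G → Prop)
    (T : SimpleGraph V) (v w : V),
    (∀ N : ℕ, 1 ≤ N → ∀ x y : V,
      Q (MulAction.stabilizer G x ⊓ MulAction.stabilizer G y) → Cl R G T.dist N x y) →
    T.IsTree → (∀ (g : G) (x y : V), T.Adj x y → T.Adj (g • x) (g • y)) → T.Adj v w →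
    (∀ g : G, ¬ (g • v = w ∧ g • w = v)) →
    (∀ g : G, g * g = 1 → (g • v = v ↔ g • w = w)) →
    (∀ (x y : V) (g f : G), T.dist x y = T.dist x v + 1 + T.dist w y → g • x = y →
      g • y = x → Ns (MulAction.stabilizer G x ⊓ MulAction.stabilizer G y) f →
      f * f ∈ MulAction.stabilizer G x ⊓ MulAction.stabilizer G y →
      T.dist y (f • y) = T.dist y x + T.dist x (f • y) → f • y ≠ x →
      (∀ h ∈ MulAction.stabilizer G x ⊓ MulAction.stabilizer G y, h * g * (h * g) ≠ 1) →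
      (∀ h ∈ MulAction.stabilizer G x ⊓ MulAction.stabilizer G y, h * f * (h * f) ≠ 1) →
      Q (MulAction.stabilizer G x ⊓ MulAction.stabilizer G y) ∨
        Blk R (La (MulAction.stabilizer G x ⊓ MulAction.stabilizer G y) g)
          (La (MulAction.stabilizer G x ⊓ MulAction.stabilizer G y) f)) →
    (∀ (x y : ℕ → V) (u : ℕ → G),
      (∀ i, T.dist (x i) (y i) = T.dist (x i) v + 1 + T.dist w (y i)) →
      (∀ i, u i • x i = y i ∧ u i • y i = x i) →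
      (∀ i, x (i + 1) = x i ∨ y (i + 1) = y i) →
      (∀ i, T.dist (x (i + 1)) (y (i + 1)) =
        T.dist (x (i + 1)) (x i) + T.dist (x i) (y i) + T.dist (y i) (y (i + 1))) →
      (∀ i, MulAction.stabilizer G (x (i + 1)) ⊓ MulAction.stabilizer G (y (i + 1)) <
        MulAction.stabilizer G (x i) ⊓ MulAction.stabilizer G (y i)) →
      (∀ i, ∃ h ∈ MulAction.stabilizer G (x i) ⊓ MulAction.stabilizer G (y i), u (i + 2) = h * u i) →
      (∀ i, ∀ h ∈ MulAction.stabilizer G (x i) ⊓ MulAction.stabilizer G (y i),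
        h * u i * (h * u i) ≠ 1) →
      ∃ i, Q (MulAction.stabilizer G (x i) ⊓ MulAction.stabilizer G (y i))) →
    ∀ (ε : ℤˣ) (n : ℕ) (ψ μ χ : Matrix (Fin n) (Fin n) (MonoidAlgebra R G)),
      SuppIn {g | g • v = v ∧ g • w ≠ w} ψ → SuppIn {g | g • v = w} μ →
      SuppIn {g | g • w = w ∧ g • v ≠ v} χ →
      IsNilpotent (nu ε (ψ + (ε : ℤ) • ψᴴ) μ (χ + (ε : ℤ) • χᴴ)) →
      StablyHyperbolic ε (UF ψ μ χ)

end Pool.Agent.Lib.MP8a3537.LL2
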