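import Pool.Agent.Lib.MP_8a3537_gt.LL2.Spec

/-! # folder LL2, module CHS: chains of states (helper21) -/

set_option autoImplicit false

namespace Pool.Agent.Lib.MP8a3537.LL2

open Matrix Pool.Agent.Lib.MP8a3537.UV Pool.Agent.Lib.MP8a3537.AU Pool.Agent.Lib.MP8a3537.RO
open Pool.Agent.Lib.MP8a3537.ROK Pool.Agent.Lib.MP8a3537.LL

namespace CHSM

section

variable {G V : Type} [Group G] [MulAction G V] {d : V → V → ℕ}

/-- the path condition of a step -/
theorem stepBt (hd : TM G d) {x y p : V} {u : G} (hne : x ≠ y) (hb : d y p = d y x + d x p)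
    (hux : u • x = y) (huy : u • y = x) : d p (u • p) = d p y + d y (u • p) := by
  have h1 : d x (u • p) = d x y + d y (u • p) := by
    have e1 := hd.iso u y p
    have e2 := hd.iso u y x
    have e3 := hd.iso u x p
    rw [huy] at e1 e2
    rw [hux] at e2 e3
    omega
  have h2 := (specTFA G V d hd).2.1 x y (u • p) p hne h1 hb
  have c1 := hd.cm (u • p) p
  have c2 := hd.cm (u • p) y
  have c3 := hd.cm p y
  omega

/-- the path condition of the first state -/
theorem firstBt (hd : TM G d) {x1 x2 q : V} {y y' k k' : G} (hne : x1 ≠ x2)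
    (hq : d x1 q = d x1 x2 + d x2 q) (hy : d x2 (y • x2) = d x2 x1 + d x1 (y • x2))
    (hk1 : k • x1 = x1) (hk2 : k • x2 = x2) (hk'2 : k' • x2 = x2)
    (he : y' = k * y * k') (hyx : (y' * y') • x1 = x1) (hyq : (y' * y') • q = q) :
    d q (y' • q) = d q x1 + d x1 (y' • q) := by
  have hp : y' • x2 = k • (y • x2) := by
    rw [he, mul_smul, mul_smul, hk'2]
  have hb : d x2 (y' • x2) = d x2 x1 + d x1 (y' • x2) := by
    have e1 := hd.iso k x2 (y • x2)
    have e2 := hd.iso k x1 (y • x2)
    rw [hk2] at e1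
    rw [hk1] at e2
    rw [hp]
    omega
  have hyy2 : (y' * y') • x2 = x2 := (specTFA G V d hd).1 (y' * y') x1 x2 q hq hyx hyq
  rw [mul_smul] at hyy2
  -- `y'` applied to the two paths
  have ha1 : d (y' • x1) (y' • q) = d (y' • x1) (y' • x2) + d (y' • x2) (y' • q) := by
    rw [hd.iso, hd.iso, hd.iso]
    exact hq
  have ha2 : d (y' • x2) x2 = d (y' • x2) (y' • x1) + d (y' • x1) x2 := by
    have e1 := hd.iso y' x2 (y' • x2)
    have e2 := hd.iso y' x2 x1
    have e3 := hd.iso y' x1 (y' • x2)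
    rw [hyy2] at e1 e3
    omega
  have hne' : y' • x1 ≠ y' • x2 := by
    intro h
    exact hne (MulAction.injective y' h)
  have ht1 := (specTFA G V d hd).2.1 x1 x2 q (y' • x2) hne hq hb
  have ht2 := (specTFA G V d hd).2.1 (y' • x1) (y' • x2) (y' • q) x2 hne' ha1 ha2
  have hne'' : x2 ≠ y' • x2 := by
    intro h
    have e1 := (hd.d0 x2 (y' • x2)).2 h
    have e2 : d x2 x1 = 0 := by omega
    exact hne ((hd.d0 x2 x1).1 e2).symm
  have c1 := hd.cm x2 (y' • x2)
  have c2 := hd.cm (y' • q) x2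
  have c3 := hd.cm (y' • q) (y' • x2)
  have c4 := hd.cm q (y' • x2)
  have c5 := hd.cm x2 q
  have hf1 : d x2 (y' • q) = d x2 (y' • x2) + d (y' • x2) (y' • q) := by omega
  have hf2 : d (y' • x2) q = d (y' • x2) x2 + d x2 q := by omega
  have ht3 := (specTFA G V d hd).2.1 x2 (y' • x2) (y' • q) q hne'' hf1 hf2
  have c6 := hd.cm (y' • q) q
  have c7 := hd.cm x2 x1
  have t1 := hd.tri q x2 x1
  have t2 := hd.tri x1 (y' • x2) (y' • q)
  have t3 := hd.tri q x1 (y' • q)
  omega

theorem ni_mono {K K' : Subgroup G} (h : K' ≤ K) {x z : G} (hz : z ∈ dc K x) (hx : NI K x) :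
    NI K' z := by
  intro t ht
  refine hx t ?_
  obtain ⟨a, ha, b, hb, rfl⟩ := ht
  exact SGSM.dc_trans hz ⟨a, h ha, b, h hb, rfl⟩

theorem self_dc (K : Subgroup G) (x : G) : x ∈ dc K x :=
  ⟨1, K.one_mem, 1, K.one_mem, by group⟩

/-- an exchanging element normalizes the stabilizer of the pair -/
theorem ns_of {x y : V} {u : G} (hux : u • x = y) (huy : u • y = x) :
    Ns (MulAction.stabilizer G x ⊓ MulAction.stabilizer G y) u := by
  have i1 : u⁻¹ • x = y := by rw [inv_smul_eq_iff, huy]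
  have i2 : u⁻¹ • y = x := by rw [inv_smul_eq_iff, hux]
  intro h hh
  rw [Subgroup.mem_inf, MulAction.mem_stabilizer_iff, MulAction.mem_stabilizer_iff] at hh
  obtain ⟨a, b⟩ := hh
  refine ⟨?_, ?_⟩
  · rw [Subgroup.mem_inf, MulAction.mem_stabilizer_iff, MulAction.mem_stabilizer_iff]
    constructor
    · rw [mul_smul, mul_smul, i1, b, huy]
    · rw [mul_smul, mul_smul, i2, a, hux]
  · rw [Subgroup.mem_inf, MulAction.mem_stabilizer_iff, MulAction.mem_stabilizer_iff]
    constructor
    · rw [mul_smul, mul_smul, hux, b, i2]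
    · rw [mul_smul, mul_smul, huy, a, i1]

/-- the stabilizer of a longer pair is smaller -/
theorem le_of (hd : TM G d) {x y z : V} (h : d x z = d x y + d y z) :
    MulAction.stabilizer G x ⊓ MulAction.stabilizer G z ≤
      MulAction.stabilizer G x ⊓ MulAction.stabilizer G y := by
  intro g hg
  rw [Subgroup.mem_inf, MulAction.mem_stabilizer_iff, MulAction.mem_stabilizer_iff] at hg ⊢
  exact ⟨hg.1, (specTFA G V d hd).1 g x y z h hg.1 hg.2⟩

end

section

variable (R G : Type) {V : Type} [Ring R] [StarRing R] [Group G] [MulAction G V] (d : V → V → ℕ)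
  (Q : Subgroup G → Prop) (v w0 : V)

/-- a state of the chain -/
structure St where
  x : V
  y : V
  s : Bool
  u : G
  w : G
  path : d x y = d x v + d v w0 + d w0 y
  ux : u • x = y
  uy : u • y = x
  ww : w * w ∈ MulAction.stabilizer G x ⊓ MulAction.stabilizer G y
  nu : NI (MulAction.stabilizer G x ⊓ MulAction.stabilizer G y) u
  nw : NI (MulAction.stabilizer G x ⊓ MulAction.stabilizer G y) w
  tr : s = true → d y (w • y) = d y x + d x (w • y) ∧ ¬ GP R G d Q x y u w
  fl : s = false → d x (w • x) = d x y + d y (w • x) ∧ ¬ GP R G d Q x y w u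

end

section

variable {R G V : Type} [Ring R] [StarRing R] [Group G] [MulAction G V] {d : V → V → ℕ}
  {Q : Subgroup G → Prop} {v w0 : V}

/-- the step -/
theorem step (hd : TM G d) (hvw : v ≠ w0)
    (hline : ∀ x y : V, d x y = d x v + d v w0 + d w0 y → (∃ g : G, g • x = y ∧ g • y = x) →
      Q (MulAction.stabilizer G x ⊓ MulAction.stabilizer G y) ∨ HS R G d x y)
    (b : St R G d Q v w0) : ∃ b' : St R G d Q v w0, b'.u = b.w ∧
      (∃ h ∈ MulAction.stabilizer G b.x ⊓ MulAction.stabilizer G b.y, b'.w = h * b.u) ∧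
      (b'.x = b.x ∨ b'.y = b.y) ∧
      d b'.x b'.y = d b'.x b.x + d b.x b.y + d b.y b'.y ∧
      MulAction.stabilizer G b'.x ⊓ MulAction.stabilizer G b'.y <
        MulAction.stabilizer G b.x ⊓ MulAction.stabilizer G b.y := by
  obtain ⟨x, y, s, u, w, path, ux, uy, ww, hnu, hnw, tr, fl⟩ := b
  have hvw0 : d v w0 ≠ 0 := fun h => hvw ((hd.d0 v w0).1 h)
  have hxy : x ≠ y := by
    intro h
    have := (hd.d0 x y).2 h
    omega
  have hNu : Ns (MulAction.stabilizer G x ⊓ MulAction.stabilizer G y) u := ns_of ux uy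
  have hwx : w • w • x = x := by
    have := ww
    rw [Subgroup.mem_inf, MulAction.mem_stabilizer_iff, mul_smul] at this
    exact this.1
  have hwy : w • w • y = y := by
    have := ww
    rw [Subgroup.mem_inf, MulAction.mem_stabilizer_iff, MulAction.mem_stabilizer_iff, mul_smul,
      mul_smul] at this
    exact this.2
  -- elements of the double coset of `u` exchange `x` and `y`
  have hex : ∀ u' ∈ dc (MulAction.stabilizer G x ⊓ MulAction.stabilizer G y) u,
      (∃ h ∈ MulAction.stabilizer G x ⊓ MulAction.stabilizer G y, u' = h * u) ∧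
      u' • x = y ∧ u' • y = x := by
    intro u' hu'
    obtain ⟨h, hh, e⟩ := SGSM.dc_La hNu hu'
    refine ⟨⟨h, hh, e⟩, ?_, ?_⟩
    · rw [e, mul_smul, ux]
      exact (Subgroup.mem_inf.1 hh).2
    · rw [e, mul_smul, uy]
      exact (Subgroup.mem_inf.1 hh).1
  cases s with
  | true =>
    obtain ⟨hB, hn⟩ := tr rfl
    have hQ : ¬ Q (MulAction.stabilizer G x ⊓ MulAction.stabilizer G y) := fun h => hn (GP.reg h)
    have hHS : HS R G d x y := by
      rcases hline x y path ⟨u, ux, uy⟩ with h | h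
      · exact absurd h hQ
      · exact h
    have hNw : ¬ Ns (MulAction.stabilizer G x ⊓ MulAction.stabilizer G y) w :=
      fun h => hn (GP.line hNu h hHS)
    have hsty : ¬ ∀ x' ∈ dc (MulAction.stabilizer G x ⊓ MulAction.stabilizer G y) u,
        x' * x' ∈ MulAction.stabilizer G (w • y) ⊓ MulAction.stabilizer G y →
        GP R G d Q (w • y) y x' w := fun h => hn (GP.sty h)
    push Not at hsty
    obtain ⟨u', hu', huu, hg⟩ := hsty
    obtain ⟨⟨h, hh, e⟩, hu1, hu2⟩ := hex u' hu'
    have hlt : MulAction.stabilizer G (w • y) ⊓ MulAction.stabilizer G y <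
        MulAction.stabilizer G x ⊓ MulAction.stabilizer G y := by
      rw [inf_comm (MulAction.stabilizer G (w • y)), inf_comm (MulAction.stabilizer G x)]
      refine CHNM.lt_of hd hwy hB ?_
      rw [inf_comm]
      exact hNw
    refine ⟨⟨w • y, y, false, w, u', ?_, hwy, rfl, huu, ?_, ?_, ?_, ?_⟩, rfl, ⟨h, hh, e⟩,
      Or.inr rfl, ?_, hlt⟩
    · have t1 := hd.tri (w • y) x v
      have t2 := hd.tri (w • y) v y
      have t3 := hd.tri v w0 y
      have c1 := hd.cm (w • y) y
      have c2 := hd.cm y x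
      have c3 := hd.cm x (w • y)
      omega
    · exact ni_mono hlt.le (self_dc _ _) hnw
    · exact ni_mono hlt.le hu' hnu
    · intro h
      exact absurd h (by decide)
    · intro _
      exact ⟨stepBt hd hxy hB hu1 hu2, hg⟩
    · show d (w • y) y = d (w • y) x + d x y + d y y
      have t1 := (hd.d0 y y).2 rfl
      have c1 := hd.cm (w • y) y
      have c2 := hd.cm y x
      have c3 := hd.cm x (w • y)
      omega
  | false =>
    obtain ⟨hB, hn⟩ := fl rfl
    have hQ : ¬ Q (MulAction.stabilizer G x ⊓ MulAction.stabilizer G y) := fun h => hn (GP.reg h)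
    have hHS : HS R G d x y := by
      rcases hline x y path ⟨u, ux, uy⟩ with h | h
      · exact absurd h hQ
      · exact h
    have hNw : ¬ Ns (MulAction.stabilizer G x ⊓ MulAction.stabilizer G y) w :=
      fun h => hn (GP.line h hNu hHS)
    have hstx : ¬ ∀ y' ∈ dc (MulAction.stabilizer G x ⊓ MulAction.stabilizer G y) u,
        y' * y' ∈ MulAction.stabilizer G x ⊓ MulAction.stabilizer G (w • x) →
        GP R G d Q x (w • x) w y' := fun h => hn (GP.stx h)
    push Not at hstx
    obtain ⟨u', hu', huu, hg⟩ := hstx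
    obtain ⟨⟨h, hh, e⟩, hu1, hu2⟩ := hex u' hu'
    have hlt : MulAction.stabilizer G x ⊓ MulAction.stabilizer G (w • x) <
        MulAction.stabilizer G x ⊓ MulAction.stabilizer G y := CHNM.lt_of hd hwx hB hNw
    refine ⟨⟨x, w • x, true, w, u', ?_, rfl, hwx, huu, ?_, ?_, ?_, ?_⟩, rfl, ⟨h, hh, e⟩,
      Or.inl rfl, ?_, hlt⟩
    · have t1 := hd.tri w0 y (w • x)
      have t2 := hd.tri x v (w • x)
      have t3 := hd.tri v w0 (w • x)
      omega
    · exact ni_mono hlt.le (self_dc _ _) hnw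
    · exact ni_mono hlt.le hu' hnu
    · intro _
      exact ⟨stepBt hd hxy.symm hB hu2 hu1, hg⟩
    · intro h
      exact absurd h (by decide)
    · show d x (w • x) = d x x + d x y + d y (w • x)
      have t1 := (hd.d0 x x).2 rfl
      omega

/-- the first state -/
theorem first (hd : TM G d) (hvw : v ≠ w0)
    (hline : ∀ x y : V, d x y = d x v + d v w0 + d w0 y → (∃ g : G, g • x = y ∧ g • y = x) →
      Q (MulAction.stabilizer G x ⊓ MulAction.stabilizer G y) ∨ HS R G d x y)
    {x1 x2 : V} {x y : G} (path : d x1 x2 = d x1 v + d v w0 + d w0 x2)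
    (hex : ∃ g : G, g • x1 = x2 ∧ g • x2 = x1)
    (hxx : x * x ∈ MulAction.stabilizer G x1 ⊓ MulAction.stabilizer G x2)
    (hyy : y * y ∈ MulAction.stabilizer G x1 ⊓ MulAction.stabilizer G x2)
    (hx : d x1 (x • x1) = d x1 x2 + d x2 (x • x1)) (hy : d x2 (y • x2) = d x2 x1 + d x1 (y • x2))
    (hnx : NI (MulAction.stabilizer G x1 ⊓ MulAction.stabilizer G x2) x)
    (hny : NI (MulAction.stabilizer G x1 ⊓ MulAction.stabilizer G x2) y)
    (hn : ¬ GP R G d Q x1 x2 x y) : Nonempty (St R G d Q v w0) := by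
  have hvw0 : d v w0 ≠ 0 := fun h => hvw ((hd.d0 v w0).1 h)
  have hxy : x1 ≠ x2 := by
    intro h
    have := (hd.d0 x1 x2).2 h
    omega
  have hQ : ¬ Q (MulAction.stabilizer G x1 ⊓ MulAction.stabilizer G x2) := fun h => hn (GP.reg h)
  have hHS : HS R G d x1 x2 := by
    rcases hline x1 x2 path hex with h | h
    · exact absurd h hQ
    · exact h
  have hxx1 : x • x • x1 = x1 := by
    have := hxx
    rw [Subgroup.mem_inf, MulAction.mem_stabilizer_iff, mul_smul] at this
    exact this.1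
  have hyy2 : y • y • x2 = x2 := by
    have := hyy
    rw [Subgroup.mem_inf, MulAction.mem_stabilizer_iff, MulAction.mem_stabilizer_iff, mul_smul,
      mul_smul] at this
    exact this.2
  by_cases hNx : Ns (MulAction.stabilizer G x1 ⊓ MulAction.stabilizer G x2) x
  · have hsty : ¬ ∀ x' ∈ dc (MulAction.stabilizer G x1 ⊓ MulAction.stabilizer G x2) x,
        x' * x' ∈ MulAction.stabilizer G (y • x2) ⊓ MulAction.stabilizer G x2 →
        GP R G d Q (y • x2) x2 x' y := fun h => hn (GP.sty h)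
    push Not at hsty
    obtain ⟨x', hx', hxx', hg⟩ := hsty
    have hle : MulAction.stabilizer G (y • x2) ⊓ MulAction.stabilizer G x2 ≤
        MulAction.stabilizer G x1 ⊓ MulAction.stabilizer G x2 := by
      rw [inf_comm (MulAction.stabilizer G (y • x2)), inf_comm (MulAction.stabilizer G x1)]
      exact le_of hd hy
    obtain ⟨k, hk, k', hk', e⟩ := hx'
    have hx'' : x' ∈ dc (MulAction.stabilizer G x1 ⊓ MulAction.stabilizer G x2) x :=
      ⟨k, hk, k', hk', e⟩
    refine ⟨⟨y • x2, x2, false, y, x', ?_, hyy2, rfl, hxx', ?_, ?_, ?_, ?_⟩⟩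
    · have t1 := hd.tri (y • x2) x1 v
      have t2 := hd.tri (y • x2) v x2
      have t3 := hd.tri v w0 x2
      have c1 := hd.cm (y • x2) x2
      have c2 := hd.cm x2 x1
      have c3 := hd.cm x1 (y • x2)
      omega
    · exact ni_mono hle (self_dc _ _) hny
    · exact ni_mono hle hx'' hnx
    · intro h
      exact absurd h (by decide)
    · intro _
      refine ⟨?_, hg⟩
      exact firstBt hd hxy.symm hy hx (Subgroup.mem_inf.1 hk).2 (Subgroup.mem_inf.1 hk).1
        (Subgroup.mem_inf.1 hk').1 e (Subgroup.mem_inf.1 hxx').2 (Subgroup.mem_inf.1 hxx').1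
  · have hstx : ¬ ∀ y' ∈ dc (MulAction.stabilizer G x1 ⊓ MulAction.stabilizer G x2) y,
        y' * y' ∈ MulAction.stabilizer G x1 ⊓ MulAction.stabilizer G (x • x1) →
        GP R G d Q x1 (x • x1) x y' := fun h => hn (GP.stx h)
    push Not at hstx
    obtain ⟨y', hy', hyy', hg⟩ := hstx
    have hle : MulAction.stabilizer G x1 ⊓ MulAction.stabilizer G (x • x1) ≤
        MulAction.stabilizer G x1 ⊓ MulAction.stabilizer G x2 := le_of hd hx
    obtain ⟨k, hk, k', hk', e⟩ := hy'
    have hy'' : y' ∈ dc (MulAction.stabilizer G x1 ⊓ MulAction.stabilizer G x2) y :=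
      ⟨k, hk, k', hk', e⟩
    refine ⟨⟨x1, x • x1, true, x, y', ?_, rfl, hxx1, hyy', ?_, ?_, ?_, ?_⟩⟩
    · have t1 := hd.tri w0 x2 (x • x1)
      have t2 := hd.tri x1 v (x • x1)
      have t3 := hd.tri v w0 (x • x1)
      omega
    · exact ni_mono hle (self_dc _ _) hnx
    · exact ni_mono hle hy'' hny
    · intro _
      refine ⟨?_, hg⟩
      exact firstBt hd hxy hx hy (Subgroup.mem_inf.1 hk).1 (Subgroup.mem_inf.1 hk).2
        (Subgroup.mem_inf.1 hk').2 e (Subgroup.mem_inf.1 hyy').1 (Subgroup.mem_inf.1 hyy').2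
    · intro h
      exact absurd h (by decide)

end

end CHSM

open CHSM in
theorem specCHS : SpecCHS := by
  intro R G V _ _ _ _ d hd Q v w hvw hline hchain x1 x2 x y path hex hxx hyy hx hy hnx hny
  by_contra hn
  obtain ⟨b0⟩ := first (R := R) hd hvw hline path hex hxx hyy hx hy hnx hny hn
  choose nx hn1 hn2 hn3 hn4 hn5 using step (R := R) (Q := Q) hd hvw hline
  let s : ℕ → St R G d Q v w := fun n => Nat.rec b0 (fun _ b => nx b) n
  obtain ⟨i, hi⟩ := hchain (fun n => (s n).x) (fun n => (s n).y) (fun n => (s n).u)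
    (fun n => (s n).path) (fun n => ⟨(s n).ux, (s n).uy⟩) (fun n => hn3 (s n)) (fun n => hn4 (s n))
    (fun n => hn5 (s n))
    (fun n => by
      obtain ⟨h, hh, e⟩ := hn2 (s n)
      refine ⟨h, hh, ?_⟩
      have e1 : (s (n + 2)).u = (s (n + 1)).w := hn1 (s (n + 1))
      have e2 : (s (n + 1)).w = h * (s n).u := e
      show (s (n + 2)).u = h * (s n).u
      rw [e1, e2])
    (fun n h hh => (s n).nu _ ⟨h, hh, 1, Subgroup.one_mem _, by group⟩)
  cases hs : (s i).s with
  | true => exact ((s i).tr hs).2 (GP.reg hi)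
  | false => exact ((s i).fl hs).2 (GP.reg hi)

end Pool.Agent.Lib.MP8a3537.LL2
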