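import Pool.Agent.Lib.MP_8a3537_gt.LL2.Spec

/-! # folder LL2, module CLN: all pairs of the class `P` (helper51) -/

set_option autoImplicit false

namespace Pool.Agent.Lib.MP8a3537.LL2

open Matrix Pool.Agent.Lib.MP8a3537.UV Pool.Agent.Lib.MP8a3537.AU Pool.Agent.Lib.MP8a3537.RO
open Pool.Agent.Lib.MP8a3537.ROK Pool.Agent.Lib.MP8a3537.LL

namespace CLNM

section

variable {G V : Type} [Group G] [MulAction G V] {d : V → V → ℕ} {L : Subgroup G}
  {X1 X2 Yp Ym : Set G} {x1 x2 : V}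

/-- the group of the data is the common stabilizer of the ends -/
theorem stab (hg : Geo d L X1 X2 ∅ x1 x2) :
    L = MulAction.stabilizer G x1 ⊓ MulAction.stabilizer G x2 := by
  ext a
  rw [Subgroup.mem_inf, MulAction.mem_stabilizer_iff, MulAction.mem_stabilizer_iff]
  exact hg.st a

theorem mv1 (hT : TM G d) (hg : Geo d L X1 X2 ∅ x1 x2) {g : G} (hg1 : g ∈ X1) :
    d x1 (g • x1) = d x1 x2 + d x2 (g • x1) := by
  have z1 : d x1 x1 = 0 := (hT.d0 x1 x1).2 rfl
  exact hg.mv false true g x1 hg1 (show d x2 x1 = d x2 x1 + d x1 x1 by rw [z1, add_zero])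

theorem mv2 (hT : TM G d) (hg : Geo d L X1 X2 ∅ x1 x2) {f : G} (hf2 : f ∈ X2) :
    d x2 (f • x2) = d x2 x1 + d x1 (f • x2) := by
  have z2 : d x2 x2 = 0 := (hT.d0 x2 x2).2 rfl
  exact hg.mv true false f x2 hf2 (show d x1 x2 = d x1 x2 + d x2 x2 by rw [z2, add_zero])

theorem ni1 (P : PPK L X1 X2 ∅ Yp Ym) {g : G} (hg1 : g ∈ X1) : NI L g := by
  rintro z ⟨a, ha, b, hb, rfl⟩ e
  exact P.X1n _ (P.X1r b hb _ (P.X1l a ha g hg1)) (inv_eq_of_mul_eq_one_right e)

theorem ni2 (P : PPK L X1 X2 ∅ Yp Ym) {f : G} (hf2 : f ∈ X2) : NI L f := by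
  rintro z ⟨a, ha, b, hb, rfl⟩ e
  exact P.X2n _ (P.X2r b hb _ (P.X2l a ha f hf2)) (inv_eq_of_mul_eq_one_right e)

/-- the piece of an element of `X2` is contained in `X2` -/
theorem sub2 (P : PPK L X1 X2 ∅ Yp Ym) {y : G} (hy : y ∈ X2) : ∀ z ∈ D2 L y, z ∈ X2 := by
  have h : ∀ x ∈ X2, ∀ y ∈ dc L x, y ∈ X2 := by
    rintro x hx y ⟨a, ha, b, hb, rfl⟩
    exact P.X2r b hb _ (P.X2l a ha x hx)
  rintro z (hz | hz)
  · exact h y hy z hz
  · exact h _ (P.X2i y hy) z hz

variable {R : Type} [Ring R] [StarRing R]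

/-- the claims for all indices give `SE` -/
theorem se_of (h : ∀ N : ℕ, 1 ≤ N → Cl R G d N x1 x2) : SE R G d x1 x2 := by
  intro L g Xb Yp Ym P hg _ _ ε n ψ χ hψ hχ hν
  obtain ⟨N, hN⟩ := hν
  refine h (N + 1) (by omega) L (La L g) Xb Yp Ym P hg ε n ψ χ hψ hχ ?_
  rw [pow_succ, hN, zero_mul]

end

end CLNM

open CLNM SGSM in
/-- **CLN**: all pairs of the class `P`. -/
theorem specCLN (hSPB : SpecSPB) (hSPC : SpecSPC) : SpecCLN := by
  intro R G V _ _ _ _ d hT Q P hQ hP hGP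
  have hCl : ∀ N : ℕ, 1 ≤ N → ∀ x1 x2 : V, P x1 x2 → Cl R G d N x1 x2 := by
    intro N
    induction N with
    | zero => intro h; omega
    | succ N ih =>
      intro hN x1 x2 hx
      have hc : 3 ≤ N + 1 → ∀ x1 x2 : V, P x1 x2 → Cl R G d (N + 1 - 1) x1 x2 := fun h => by
        rw [Nat.add_sub_cancel]
        exact ih (by omega)
      intro L X1 X2 Yp Ym PP hg ε n ψ χ hψ hχ hν
      refine mDCM R G V d hT (N + 1) x1 x2 hN (fun h => hc h x1 x2 hx) L X1 X2 Yp Ym PP hg ?_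
        ε n ψ χ hψ hχ hν
      clear hψ hχ hν ψ χ n ε
      intro x hx1 y hy2 ε n ψ χ hψ hχ hν
      have hL := stab hg
      subst hL
      have sm : ∀ g : G, g * g ∈ MulAction.stabilizer G x1 ⊓ MulAction.stabilizer G x2 →
          g • g • x1 = x1 ∧ g • g • x2 = x2 := by
        intro g h
        rw [← mul_smul, ← mul_smul]
        exact (hg.st _).1 h
      by_cases fx : Flip (MulAction.stabilizer G x1 ⊓ MulAction.stabilizer G x2) x
      · obtain ⟨h, hh, hgg, hxd⟩ := ROTAux.exists_flip fx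
        have hgX : x * h ∈ X1 := PP.X1r h hh x hx1
        have hψg : SuppIn (D2 (MulAction.stabilizer G x1 ⊓ MulAction.stabilizer G x2) (x * h)) ψ :=
          fun i j z hz => Or.inl (D2_flip hgg hxd (hψ i j z hz))
        by_cases fy : Flip (MulAction.stabilizer G x1 ⊓ MulAction.stabilizer G x2) y
        · obtain ⟨k, hk, hff, hyd⟩ := ROTAux.exists_flip fy
          have hfX : y * k ∈ X2 := PP.X2r k hk y hy2
          have hχf : SuppIn (D2 (MulAction.stabilizer G x1 ⊓ MulAction.stabilizer G x2) (y * k)) χ :=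
            fun i j z hz => Or.inl (D2_flip hff hyd (hχ i j z hz))
          exact hSPC R G V d hT Q P (N + 1) hN (hQ (N + 1) hN) hP hc x1 x2 (x * h) (y * k)
            (hGP x1 x2 (x * h) (y * k) hx hgg hff (mv1 hT hg hgX) (mv2 hT hg hfX) (ni1 PP hgX)
              (ni2 PP hfX)) hx hgg hff _ X1 X2 Yp Ym PP hg hgX hfX ε n ψ χ hψg hχf hν
        · exact (hSPB R G V d hT (N + 1) x1 x2 (x * h) y hN).2 hgg fy
            (fun h3 => hc h3 x1 _ (hP.r x1 x2 (x * h) hx (sm _ hgg).1 (mv1 hT hg hgX)))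
            _ X1 X2 Yp Ym PP hg hgX hy2 ε n ψ χ hψg hχ hν
      · by_cases fy : Flip (MulAction.stabilizer G x1 ⊓ MulAction.stabilizer G x2) y
        · obtain ⟨k, hk, hff, hyd⟩ := ROTAux.exists_flip fy
          have hfX : y * k ∈ X2 := PP.X2r k hk y hy2
          have hχf : SuppIn (D2 (MulAction.stabilizer G x1 ⊓ MulAction.stabilizer G x2) (y * k)) χ :=
            fun i j z hz => Or.inl (D2_flip hff hyd (hχ i j z hz))
          have hff' : y * k * (y * k) ∈ MulAction.stabilizer G x2 ⊓ MulAction.stabilizer G x1 := by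
            rw [inf_comm]
            exact hff
          have fx' : ¬ Flip (MulAction.stabilizer G x2 ⊓ MulAction.stabilizer G x1) x := by
            rw [inf_comm]
            exact fx
          exact (hSPB R G V d hT (N + 1) x1 x2 x (y * k) hN).1
            ((hSPB R G V d hT (N + 1) x2 x1 (y * k) x hN).2 hff' fx' (fun h3 => Cl_swap
              (hc h3 _ x2 (hP.l x1 x2 (y * k) hx (sm _ hff).2 (mv2 hT hg hfX)))))
            _ X1 X2 Yp Ym PP hg hx1 hfX ε n ψ χ hψ hχf hν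
        · have h0 : SuppIn (∅ : Set G) (0 : Matrix (Fin n) (Fin n) (MonoidAlgebra R G)) := by
            intro i j z hz
            exact absurd rfl hz
          exact mNWT R G _ X1 X2 ∅ Yp Ym PP.toPingPong ε n ψ 0 χ
            (fun i j z hz => DCMM.D2_sub PP hx1 z (hψ i j z hz)) h0
            (fun i j z hz => sub2 PP hy2 z (hχ i j z hz)) ⟨N + 1, hν⟩
            (fun i j z hz => D2_nonflip fx (hψ i j z hz))
            (fun i j z hz => D2_nonflip fy (hχ i j z hz))
  refine ⟨hCl, fun x1 x2 hx => ⟨se_of fun N hN => hCl N hN x1 x2 hx, se_of fun N hN => ?_⟩⟩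
  exact Cl_swap (hCl N hN x1 x2 hx)

end Pool.Agent.Lib.MP8a3537.LL2
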