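import Pool.Agent.Lib.MP_8a3537_gt.LL2.Spec

/-!
# Short chains (MP_8a3537_gt, folder LL2), module SPC: good pairs of flips (helper45)
-/

set_option autoImplicit false

namespace Pool.Agent.Lib.MP8a3537.LL2

open Matrix Pool.Agent.Lib.MP8a3537.UV Pool.Agent.Lib.MP8a3537.AU Pool.Agent.Lib.MP8a3537.RO
open Pool.Agent.Lib.MP8a3537.ROK Pool.Agent.Lib.MP8a3537.LL

namespace SPCM

section Sets

variable {G : Type} [Group G] {L : Subgroup G}

/-- If `x x ∈ L` then `D2 L x` is `dc L x`. -/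
theorem D2_dc {x y : G} (hxx : x * x ∈ L) (hy : y ∈ D2 L x) : y ∈ dc L x := by
  rcases hy with hy | hy
  · exact hy
  · exact SGSM.dc_trans (RO.ELMAux.dc_inv L x hxx
      ⟨1, L.one_mem, 1, L.one_mem, by rw [one_mul, mul_one]⟩) hy

theorem D2_mono {x z y : G} (h : x ∈ dc L z) (hy : y ∈ D2 L x) : y ∈ D2 L z := by
  rcases hy with hy | hy
  · exact Or.inl (SGSM.dc_trans h hy)
  · exact Or.inr (SGSM.dc_trans (SGSM.dc_inv_inv h) hy)

end Sets

section Geometry

variable {R G V : Type} [Ring R] [StarRing R] [Group G] [MulAction G V] {d : V → V → ℕ}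

theorem eqL {L : Subgroup G} {X1 X2 : Set G} {x1 x2 : V} (hg : Geo d L X1 X2 ∅ x1 x2) :
    L = MulAction.stabilizer G x1 ⊓ MulAction.stabilizer G x2 := by
  ext a
  rw [Subgroup.mem_inf, MulAction.mem_stabilizer_iff, MulAction.mem_stabilizer_iff]
  exact hg.st a

theorem mv1 (hT : TM G d) {L : Subgroup G} {X1 X2 : Set G} {x1 x2 : V}
    (hg : Geo d L X1 X2 ∅ x1 x2) {x : G} (hx : x ∈ X1) :
    d x1 (x • x1) = d x1 x2 + d x2 (x • x1) := by
  have z1 : d x1 x1 = 0 := (hT.d0 x1 x1).2 rfl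
  exact hg.mv false true x x1 hx (show d x2 x1 = d x2 x1 + d x1 x1 by rw [z1, add_zero])

/-- The stabilizer of `x1`, `x • x1` is contained in that of `x1`, `x2`. -/
theorem le1 (hT : TM G d) {x1 x2 : V} {x : G} (hm : d x1 (x • x1) = d x1 x2 + d x2 (x • x1)) :
    MulAction.stabilizer G x1 ⊓ MulAction.stabilizer G (x • x1) ≤
      MulAction.stabilizer G x1 ⊓ MulAction.stabilizer G x2 := by
  intro g hg
  rw [Subgroup.mem_inf, MulAction.mem_stabilizer_iff, MulAction.mem_stabilizer_iff] at hg ⊢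
  exact ⟨hg.1, (ROK.specTFA G V d hT).1 g x1 x2 (x • x1) hm hg.1 hg.2⟩

theorem sq1 {x1 x2 : V} {x : G}
    (hxx : x * x ∈ MulAction.stabilizer G x1 ⊓ MulAction.stabilizer G x2) :
    x • x • x1 = x1 ∧ x * x ∈ MulAction.stabilizer G x1 ⊓ MulAction.stabilizer G (x • x1) := by
  rw [Subgroup.mem_inf, MulAction.mem_stabilizer_iff, MulAction.mem_stabilizer_iff] at hxx
  have h1 : x • x • x1 = x1 := by rw [← mul_smul]; exact hxx.1
  refine ⟨h1, ?_⟩
  rw [Subgroup.mem_inf, MulAction.mem_stabilizer_iff, MulAction.mem_stabilizer_iff]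
  refine ⟨hxx.1, ?_⟩
  rw [mul_smul, h1]

/-- `SP` for `y` from `SP` for a flip in the coset of `y`. -/
theorem sp_mono {N : ℕ} {x1 x2 : V} {x y k : G} (h : SP R G d N x1 x2 x (y * k))
    (hk : k ∈ MulAction.stabilizer G x1 ⊓ MulAction.stabilizer G x2)
    (hy : y ∈ dc (MulAction.stabilizer G x1 ⊓ MulAction.stabilizer G x2) (y * k)) :
    SP R G d N x1 x2 x y := by
  intro L X1 X2 Yp Ym P hg hx1 hy2 ε n ψ χ hψ hχ hν
  have hL := eqL hg
  rw [← hL] at hk hy
  exact h L X1 X2 Yp Ym P hg hx1 (P.X2r k hk y hy2) ε n ψ χ hψ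
    (fun i j z hz => D2_mono hy (hχ i j z hz)) hν

end Geometry

end SPCM

open SPCM in
/-- **SPC**: good pairs of flips. -/
theorem specSPC (hSTP : SpecSTP) (hSPB : SpecSPB) : SpecSPC := by
  intro R G V _ _ _ _ d hT Q P N hN hQ hLng hCl x1 x2 x y hGP
  induction hGP with
  | @reg x1 x2 x y hq =>
    intro _ _ _ L X1 X2 Yp Ym PP hg hx hy ε n ψ χ hψ hχ hν
    obtain ⟨-, -, s3, s4⟩ := specSYK G L X1 X2 ∅ Yp Ym
    exact hQ x1 x2 hq L X1 X2 Yp Ym PP hg ε n ψ χ
      (fun i j z hz => DCMM.D2_sub PP hx z (hψ i j z hz))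
      (fun i j z hz => DCMM.D2_sub (s3 PP) hy z (hχ i j z hz)) hν
  | @line x1 x2 x y hnx hny hHS =>
    intro _ hxx hyy L X1 X2 Yp Ym PP hg hx hy ε n ψ χ hψ hχ hν
    have hL := eqL hg
    rw [← hL] at hnx hny hxx hyy
    exact SGSM.lines hT hHS PP hg hx hy hnx hny hxx hyy ε n ψ χ
      (fun i j z hz => SGSM.dc_La hnx (D2_dc hxx (hψ i j z hz)))
      (fun i j z hz => SGSM.dc_La hny (D2_dc hyy (hχ i j z hz))) ⟨N, hν⟩
  | @stx x1 x2 x y _ ih =>
    intro hP hxx hyy L X1 X2 Yp Ym PP hg hx hy ε n ψ χ hψ hχ hν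
    have hL := eqL hg
    have hm := mv1 hT hg hx
    obtain ⟨hx1, hxx'⟩ := sq1 hxx
    have hP' : P x1 (x • x1) := hLng.r x1 x2 x hP hx1 hm
    have hle := le1 hT hm
    refine hSTP R G V d hT N x1 x2 hN L X1 X2 Yp Ym PP hg x hx (by rw [hL]; exact hxx) y hy
      (fun h3 => hCl h3 x1 (x • x1) hP') (fun y' hy' => ?_) ε n ψ χ hψ hχ hν
    have hy1 : y' ∈ dc (MulAction.stabilizer G x1 ⊓ MulAction.stabilizer G x2) y := by
      rw [hL] at hy'
      exact D2_dc hyy hy'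
    by_cases hf : Flip (MulAction.stabilizer G x1 ⊓ MulAction.stabilizer G (x • x1)) y'
    · obtain ⟨k, hk, hkk, hyd⟩ := ROTAux.exists_flip hf
      have hy2 : y' * k ∈ dc (MulAction.stabilizer G x1 ⊓ MulAction.stabilizer G x2) y :=
        RO.ELMAux.dc_right _ y (hle hk) hy1
      exact sp_mono (ih (y' * k) hy2 hkk hP' hxx' hkk) hk hyd
    · exact (hSPB R G V d hT N x1 (x • x1) x y' hN).2 hxx' hf
        (fun h3 => hCl h3 x1 (x • x1) hP')
  | @sty x1 x2 x y _ ih =>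
    intro hP hxx hyy
    refine (hSPB R G V d hT N x1 x2 x y hN).1 ?_
    intro L X1 X2 Yp Ym PP hg hy hx ε n ψ χ hψ hχ hν
    have hL := eqL hg
    have hm := mv1 hT hg hy
    rw [inf_comm] at hxx hyy
    obtain ⟨hy1, hyy'⟩ := sq1 hyy
    have hP' : P (y • x2) x2 := hLng.l x1 x2 y hP hy1 hm
    have hle := le1 hT hm
    refine hSTP R G V d hT N x2 x1 hN L X1 X2 Yp Ym PP hg y hy (by rw [hL]; exact hyy) x hx
      (fun h3 => SGSM.Cl_swap (hCl h3 (y • x2) x2 hP')) (fun x' hx' => ?_) ε n ψ χ hψ hχ hν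
    have hx1 : x' ∈ dc (MulAction.stabilizer G x2 ⊓ MulAction.stabilizer G x1) x := by
      rw [hL] at hx'
      exact D2_dc hxx hx'
    by_cases hf : Flip (MulAction.stabilizer G x2 ⊓ MulAction.stabilizer G (y • x2)) x'
    · obtain ⟨k, hk, hkk, hxd⟩ := ROTAux.exists_flip hf
      have hx2 : x' * k ∈ dc (MulAction.stabilizer G x2 ⊓ MulAction.stabilizer G x1) x :=
        RO.ELMAux.dc_right _ x (hle hk) hx1
      have e1 : MulAction.stabilizer G (y • x2) ⊓ MulAction.stabilizer G x2 =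
          MulAction.stabilizer G x2 ⊓ MulAction.stabilizer G (y • x2) := inf_comm _ _
      have e2 : MulAction.stabilizer G x1 ⊓ MulAction.stabilizer G x2 =
          MulAction.stabilizer G x2 ⊓ MulAction.stabilizer G x1 := inf_comm _ _
      have hsp : SP R G d N (y • x2) x2 (x' * k) y :=
        ih (x' * k) (by rw [e2]; exact hx2) (by rw [e1]; exact hkk) hP'
          (by rw [e1]; exact hkk) (by rw [e1]; exact hyy')
      exact sp_mono ((hSPB R G V d hT N x2 (y • x2) y (x' * k) hN).1 hsp) hk hxd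
    · exact (hSPB R G V d hT N x2 (y • x2) y x' hN).2 hyy' hf
        (fun h3 => SGSM.Cl_swap (hCl h3 (y • x2) x2 hP'))

end Pool.Agent.Lib.MP8a3537.LL2
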