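import Pool.Agent.Lib.MP_8a3537_gt.LL2.Spec

/-!
# LL2, module FAT: factorization through `K' g`, `K' = Kg L g`
-/

set_option autoImplicit false

namespace Pool.Agent.Lib.MP8a3537.LL2

open Matrix Pool.Agent.Lib.MP8a3537.UV Pool.Agent.Lib.MP8a3537.AU Pool.Agent.Lib.MP8a3537.RO
open Pool.Agent.Lib.MP8a3537.ROK Pool.Agent.Lib.MP8a3537.LL

namespace FATM

section Cosets

variable {G : Type} [Group G]

/-- a representative of the right coset `K a` -/
noncomputable def rho (K : Subgroup G) (a : G) : G :=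
  (Quotient.mk (QuotientGroup.rightRel K) a).out

theorem rho_mul_inv (K : Subgroup G) (a : G) : rho K a * a⁻¹ ∈ K := by
  have h : (QuotientGroup.rightRel K) (rho K a) a :=
    Quotient.exact (Quotient.out_eq (Quotient.mk (QuotientGroup.rightRel K) a))
  rw [QuotientGroup.rightRel_apply] at h
  have h2 := K.inv_mem h
  rwa [_root_.mul_inv_rev, inv_inv] at h2

theorem mul_rho_inv (K : Subgroup G) (a : G) : a * (rho K a)⁻¹ ∈ K := by
  have h := K.inv_mem (rho_mul_inv K a)
  rwa [_root_.mul_inv_rev, inv_inv] at h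

theorem rho_eq {K : Subgroup G} {a b : G} (h : b * a⁻¹ ∈ K) : rho K a = rho K b := by
  unfold rho
  have e : (Quotient.mk (QuotientGroup.rightRel K) a) = Quotient.mk (QuotientGroup.rightRel K) b := by
    apply Quotient.sound
    change (QuotientGroup.rightRel K) a b
    rw [QuotientGroup.rightRel_apply]
    exact h
  rw [e]

theorem rho_mem {L K : Subgroup G} (hK : K ≤ L) {a : G} (ha : a ∈ L) : rho K a ∈ L := by
  have e : rho K a = rho K a * a⁻¹ * a := by group
  rw [e]
  exact L.mul_mem (hK (rho_mul_inv K a)) ha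

theorem rho_inj {K : Subgroup G} {a b : G} (h : rho K b * (rho K a)⁻¹ ∈ K) :
    rho K a = rho K b := by
  apply rho_eq
  have e : b * a⁻¹ = b * (rho K b)⁻¹ * (rho K b * (rho K a)⁻¹) * (rho K a * a⁻¹) := by group
  rw [e]
  exact K.mul_mem (K.mul_mem (mul_rho_inv K b) h) (rho_mul_inv K a)

theorem Kg_le (L : Subgroup G) (g : G) : Kg L g ≤ L := fun x hx => ((mem_Kg L g x).1 hx).1

theorem conj_mem {L : Subgroup G} {g : G} (hgg : g * g ∈ L) {l : G} (hl : l ∈ Kg L g) :
    g * l * g⁻¹ ∈ Kg L g := by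
  rw [mem_Kg] at hl ⊢
  constructor
  · have e : g * l * g⁻¹ = g * g * (g⁻¹ * l * g) * (g * g)⁻¹ := by group
    rw [e]
    exact L.mul_mem (L.mul_mem hgg hl.2) (L.inv_mem hgg)
  · have e : g⁻¹ * (g * l * g⁻¹) * g = l := by group
    rw [e]
    exact hl.1

/-- the decomposition of the elements of `L g L` -/
theorem dec {L : Subgroup G} {g : G} (hgg : g * g ∈ L) {x : G} (hx : x ∈ dc L g) :
    ∃ a b k : G, a ∈ L ∧ b ∈ L ∧ k ∈ Kg L g ∧
      x = (rho (Kg L g) a)⁻¹ * (k * g) * rho (Kg L g) b := by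
  obtain ⟨h, hh, h', hh', rfl⟩ := hx
  set K := Kg L g with hK
  have h1 : h * (rho K h⁻¹) ∈ L := L.mul_mem hh (rho_mem (Kg_le L g) (L.inv_mem hh))
  have h2 : rho K h⁻¹ * h ∈ K := by
    have := rho_mul_inv K h⁻¹
    rwa [inv_inv] at this
  have h3 : h' * (rho K h')⁻¹ ∈ K := mul_rho_inv K h'
  refine ⟨h⁻¹, h', rho K h⁻¹ * h * (g * (h' * (rho K h')⁻¹) * g⁻¹), L.inv_mem hh, hh',
    K.mul_mem h2 (conj_mem hgg h3), ?_⟩
  group

end Cosets

section Forms

variable {R G : Type} [Ring R] [StarRing R] [Group G]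

/-- the matrix `Ξ` -/
noncomputable def Xi (R : Type) [Ring R] {G : Type} [Group G] (n : ℕ) (T : Finset G) :
    Matrix (Fin n × T) (Fin n) (MonoidAlgebra R G) :=
  fun p j => if p.1 = j then MonoidAlgebra.single (p.2 : G) 1 else 0

/-- `ψ` has a factorization with `Ξ` -/
def Fac (L : Subgroup G) (g : G) {n : ℕ} (T : Finset G)
    (ψ : Matrix (Fin n) (Fin n) (MonoidAlgebra R G)) : Prop :=
  ∃ ψ' : Matrix (Fin n × T) (Fin n × T) (MonoidAlgebra R G), SuppIn (La (Kg L g) g) ψ' ∧
    ψ = (Xi R n T)ᴴ * ψ' * Xi R n T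

theorem zero (L : Subgroup G) (g : G) {n : ℕ} (T : Finset G) :
    Fac L g T (0 : Matrix (Fin n) (Fin n) (MonoidAlgebra R G)) :=
  ⟨0, fun _ _ _ hx => absurd rfl hx, by rw [Matrix.mul_zero, Matrix.zero_mul]⟩

theorem add {L : Subgroup G} {g : G} {n : ℕ} {T : Finset G}
    {ψ1 ψ2 : Matrix (Fin n) (Fin n) (MonoidAlgebra R G)} (h1 : Fac L g T ψ1)
    (h2 : Fac L g T ψ2) : Fac L g T (ψ1 + ψ2) := by
  obtain ⟨p1, a1, b1⟩ := h1
  obtain ⟨p2, a2, b2⟩ := h2
  refine ⟨p1 + p2, ?_, ?_⟩
  · intro i j x hx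
    by_contra hc
    have e1 : (p1 i j).coeff x = 0 := by
      by_contra h
      exact hc (a1 i j x h)
    have e2 : (p2 i j).coeff x = 0 := by
      by_contra h
      exact hc (a2 i j x h)
    apply hx
    rw [Matrix.add_apply, MonoidAlgebra.coeff_add, Finsupp.add_apply, e1, e2, add_zero]
  · rw [b1, b2, Matrix.mul_add, Matrix.add_mul]

theorem term (L : Subgroup G) (g : G) {n : ℕ} (T : Finset G) (i j : Fin n) {s t k : G}
    (hs : s ∈ T) (ht : t ∈ T) (hk : k ∈ Kg L g) (c : R) :
    Fac L g T (Matrix.single i j (MonoidAlgebra.single (s⁻¹ * (k * g) * t) c)) := by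
  classical
  refine ⟨Matrix.single (i, ⟨s, hs⟩) (j, ⟨t, ht⟩) (MonoidAlgebra.single (k * g) c), ?_, ?_⟩
  · intro p q x hx
    rw [Matrix.single_apply] at hx
    split_ifs at hx with h1
    · rw [MonoidAlgebra.coeff_single, Finsupp.single_apply] at hx
      split_ifs at hx with h2
      · exact ⟨k, hk, h2.symm⟩
      · exact absurd rfl hx
    · exact absurd rfl hx
  · ext a b : 1
    rw [Matrix.mul_apply, Finset.sum_eq_single (j, ⟨t, ht⟩)]
    · rw [Matrix.mul_apply, Finset.sum_eq_single (i, ⟨s, hs⟩)]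
      · rw [Matrix.single_apply_same, Matrix.conjTranspose_apply, Matrix.single_apply]
        unfold Xi
        by_cases h1 : i = a
        · by_cases h2 : j = b
          · rw [if_pos ⟨h1, h2⟩, if_pos h1, if_pos h2, star_single, star_one,
              MonoidAlgebra.single_mul_single, MonoidAlgebra.single_mul_single, one_mul, mul_one]
          · rw [if_neg (fun h => h2 h.2), if_neg h2, mul_zero]
        · rw [if_neg (fun h => h1 h.1), if_neg h1, star_zero, zero_mul, zero_mul]
      · intro p _ hp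
        rw [Matrix.single_apply_of_row_ne (by exact fun h => hp h.symm), mul_zero]
      · intro h
        exact absurd (Finset.mem_univ _) h
    · intro p _ hp
      have e : ((Xi R n T)ᴴ * Matrix.single ((i, ⟨s, hs⟩) : Fin n × T) (j, ⟨t, ht⟩)
          (MonoidAlgebra.single (k * g) c : MonoidAlgebra R G)) a p = 0 := by
        rw [Matrix.mul_apply]
        refine Finset.sum_eq_zero fun q _ => ?_
        rw [Matrix.single_apply_of_col_ne _ _ (by exact fun h => hp h.symm), mul_zero]
      rw [e, zero_mul]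
    · intro h
      exact absurd (Finset.mem_univ _) h

omit [StarRing R] in
theorem cnc {L K : Subgroup G} {n : ℕ} {T : Finset G} (hT : ∀ s ∈ T, s ∈ L)
    (hK : ∀ s ∈ T, ∀ s' ∈ T, s' * s⁻¹ ∈ K → s = s')
    (W : Set G) (hW : ∀ w ∈ W, ∀ w' ∈ W, ∀ t ∈ L, ∀ t' ∈ L, w * t = w' * t' → t' * t⁻¹ ∈ K)
    (m : Type) (Y : Matrix m (Fin n × T) (MonoidAlgebra R G)) (hY : SuppIn W Y)
    (h0 : Y * Xi R n T = 0) : Y = 0 := by
  classical
  ext a p w
  obtain ⟨j, s0⟩ := p
  rw [Matrix.zero_apply]
  change (Y a (j, s0)).coeff w = 0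
  by_contra hne
  have hw : w ∈ W := hY a (j, s0) w hne
  have e1 : (Y * Xi R n T) a j = ∑ s : T, Y a (j, s) * MonoidAlgebra.single (s : G) 1 := by
    rw [Matrix.mul_apply, Fintype.sum_prod_type, Finset.sum_eq_single j]
    · refine Finset.sum_congr rfl fun s _ => ?_
      unfold Xi
      rw [if_pos rfl]
    · intro i _ hi
      refine Finset.sum_eq_zero fun s _ => ?_
      unfold Xi
      rw [if_neg hi, mul_zero]
    · intro h
      exact absurd (Finset.mem_univ _) h
  have e2 : ((Y * Xi R n T) a j).coeff (w * s0) = (Y a (j, s0)).coeff w := by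
    rw [e1, MonoidAlgebra.coeff_sum, Finsupp.finsetSum_apply, Finset.sum_eq_single s0]
    · rw [MonoidAlgebra.coeff_mul_single_apply, mul_one, mul_inv_cancel_right]
    · intro s _ hs
      rw [MonoidAlgebra.coeff_mul_single_apply, mul_one]
      by_contra h
      have hw' := hY a (j, s) _ h
      have hk := hW _ hw' _ hw _ (hT _ s.2) _ (hT _ s0.2) (by group)
      exact hs (Subtype.ext (hK _ s.2 _ s0.2 hk))
    · intro h
      exact absurd (Finset.mem_univ _) h
  rw [h0, Matrix.zero_apply] at e2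
  exact hne (e2.symm.trans rfl)

end Forms

end FATM

open FATM in
theorem specFAT : SpecFAT := by
  intro R G _ _ _ L g hgg n ψ hψ
  classical
  set K := Kg L g with hK
  have key : ∀ x : G, ∃ a b k : G, x ∈ dc L g → a ∈ L ∧ b ∈ L ∧ k ∈ K ∧
      x = (rho K a)⁻¹ * (k * g) * rho K b := by
    intro x
    by_cases hx : x ∈ dc L g
    · obtain ⟨a, b, k, h⟩ := dec hgg hx
      exact ⟨a, b, k, fun _ => h⟩
    · exact ⟨1, 1, 1, fun h => absurd h hx⟩
  choose fa fb fk hf using key
  let S : Finset G := (Finset.univ : Finset (Fin n × Fin n)).biUnion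
    (fun p => (ψ p.1 p.2).coeff.support)
  have hS : ∀ x ∈ S, x ∈ dc L g := by
    intro x hx
    obtain ⟨p, _, hp⟩ := Finset.mem_biUnion.1 hx
    exact hψ p.1 p.2 x (Finsupp.mem_support_iff.1 hp)
  let T : Finset G := S.image (fun x => rho K (fa x)) ∪ S.image (fun x => rho K (fb x))
  have hTa : ∀ s ∈ T, ∃ a ∈ L, s = rho K a := by
    intro s hs
    rcases Finset.mem_union.1 hs with h | h
    · obtain ⟨x, hx, rfl⟩ := Finset.mem_image.1 h
      exact ⟨_, (hf x (hS x hx)).1, rfl⟩
    · obtain ⟨x, hx, rfl⟩ := Finset.mem_image.1 h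
      exact ⟨_, (hf x (hS x hx)).2.1, rfl⟩
  have hTL : ∀ s ∈ T, s ∈ L := by
    intro s hs
    obtain ⟨a, ha, rfl⟩ := hTa s hs
    exact rho_mem (Kg_le L g) ha
  have hTK : ∀ s ∈ T, ∀ s' ∈ T, s' * s⁻¹ ∈ K → s = s' := by
    intro s hs s' hs' h
    obtain ⟨a, ha, rfl⟩ := hTa s hs
    obtain ⟨b, hb, rfl⟩ := hTa s' hs'
    exact rho_inj h
  have hfac : Fac L g T ψ := by
    rw [Matrix.matrix_eq_sum_single ψ]
    refine Finset.sum_induction _ (Fac L g T) (fun _ _ => FATM.add) (FATM.zero L g T) ?_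
    intro i _
    refine Finset.sum_induction _ (Fac L g T) (fun _ _ => FATM.add) (FATM.zero L g T) ?_
    intro j _
    have hs : ψ i j = ∑ y ∈ (ψ i j).coeff.support, MonoidAlgebra.single y ((ψ i j).coeff y) := by
      ext y
      rw [MonoidAlgebra.coeff_sum, Finsupp.finsetSum_apply]
      simp only [MonoidAlgebra.coeff_single, Finsupp.single_apply]
      rw [Finset.sum_ite_eq']
      split_ifs with h
      · rfl
      · exact Finsupp.notMem_support_iff.1 h
    rw [hs]
    have hsum : Matrix.single i j (∑ y ∈ (ψ i j).coeff.support,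
          MonoidAlgebra.single y ((ψ i j).coeff y)) =
        ∑ y ∈ (ψ i j).coeff.support, Matrix.single i j
          (MonoidAlgebra.single y ((ψ i j).coeff y)) :=
      map_sum (Matrix.singleAddMonoidHom i j) _ _
    rw [hsum]
    refine Finset.sum_induction _ (Fac L g T) (fun _ _ => FATM.add) (FATM.zero L g T) ?_
    intro y hy
    have hyS : y ∈ S := Finset.mem_biUnion.2 ⟨(i, j), Finset.mem_univ _, hy⟩
    obtain ⟨-, -, hk, he⟩ := hf y (hS y hyS)
    have h1 : rho K (fa y) ∈ T := Finset.mem_union_left _ (Finset.mem_image_of_mem _ hyS)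
    have h2 : rho K (fb y) ∈ T := Finset.mem_union_right _ (Finset.mem_image_of_mem _ hyS)
    have := term L g T i j h1 h2 hk ((ψ i j).coeff y)
    rw [← he] at this
    exact this
  obtain ⟨ψ', hψ', he⟩ := hfac
  let e := Fintype.equivFin (Fin n × T)
  refine ⟨Fintype.card (Fin n × T), (Xi R n T).submatrix e.symm id,
    ψ'.submatrix e.symm e.symm, ?_, ?_, ?_, ?_⟩
  · intro i j x hx
    rw [Matrix.submatrix_apply] at hx
    unfold Xi at hx
    split_ifs at hx with h1
    · rw [MonoidAlgebra.coeff_single, Finsupp.single_apply] at hx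
      split_ifs at hx with h2
      · rw [← h2]
        exact hTL _ (e.symm i).2.2
      · exact absurd rfl hx
    · exact absurd rfl hx
  · intro i j x hx
    exact hψ' _ _ x hx
  · rw [he, conjTranspose_submatrix, Matrix.submatrix_mul_equiv, Matrix.submatrix_mul_equiv]
    rfl
  · intro W hW m Y hY h0
    have h1 : Y.submatrix id e * Xi R n T = 0 := by
      have e1 : Y.submatrix id e * Xi R n T = Y * (Xi R n T).submatrix e.symm id := by
        have := Matrix.submatrix_mul_equiv Y ((Xi R n T).submatrix e.symm id) id e id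
        rw [Matrix.submatrix_submatrix, Equiv.symm_comp_self] at this
        exact this
      rw [e1]
      exact h0
    have h2 := cnc hTL hTK W hW m (Y.submatrix id e) (fun i j x hx => hY i (e j) x hx) h1
    ext i j : 1
    have h3 := congrFun (congrFun h2 i) (e.symm j)
    rw [Matrix.submatrix_apply, Equiv.apply_symm_apply] at h3
    exact h3

end Pool.Agent.Lib.MP8a3537.LL2
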