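import Pool.Agent.Lib.MP_8a3537_gt.LL2.Spec

/-!
# Short chains (MP_8a3537_gt, folder LL2), module UWD: uniqueness for words of the same length
-/

set_option autoImplicit false

namespace Pool.Agent.Lib.MP8a3537.LL2

open Matrix Pool.Agent.Lib.MP8a3537.UV Pool.Agent.Lib.MP8a3537.AU Pool.Agent.Lib.MP8a3537.RO
open Pool.Agent.Lib.MP8a3537.ROK Pool.Agent.Lib.MP8a3537.LL

namespace UWDM

/-- The whole set `X1` satisfies `Sub1`. -/
theorem sub1 {G : Type} [Group G] {H : Subgroup G} {X1 X2 X3 Yp Ym : Set G}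
    (hp : PingPong H X1 X2 X3 Yp Ym) : Sub1 H X1 X2 X3 Yp Ym X1 :=
  ⟨hp, fun _ hx => hx, (specUNQ G H X1 X2 X3 Yp Ym hp).2.2.1 false true, hp.X1i⟩

end UWDM

theorem specUWD : SpecUWD := by
  intro G _ H X1 X2 X3 Yp Ym hp k
  obtain ⟨-, unq, bi, -⟩ := specUNQ G H X1 X2 X3 Yp Ym hp
  obtain ⟨w1, -, -, w4, -⟩ := mWDA G H X1 X2 X3 Yp Ym X1 (UWDM.sub1 hp)
  induction k with
  | zero =>
    intro s t z z' y y' hz hz' hy hy' he
    cases hz with
    | base h1 =>
      cases hz' with
      | base h2 => exact H.mul_mem (H.inv_mem h1) h2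
  | succ k ih =>
    intro s t z z' y y' hz hz' hy hy' he
    cases hz with
    | cons hx h1 =>
      rename_i r x z1
      cases hz' with
      | cons hx' h1' =>
        rename_i r' x' z1'
        have e1 : x * (z1 * y) = x' * (z1' * y') := by
          rw [← mul_assoc, ← mul_assoc]
          exact he
        obtain ⟨hr, hh⟩ := unq s r r' x (z1 * y) x' (z1' * y') hx (w4 k r t z1 y h1 hy) hx'
          (w4 k r' t z1' y' h1' hy') e1
        subst hr
        have e2 : z1 * y = (x⁻¹ * x' * z1') * y' := by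
          calc z1 * y = x⁻¹ * (x * (z1 * y)) := by group
            _ = x⁻¹ * (x' * (z1' * y')) := by rw [e1]
            _ = (x⁻¹ * x' * z1') * y' := by group
        have h3 := ih r t z1 (x⁻¹ * x' * z1') y y' h1 (w1 k r t z1' _ hh h1').1 hy hy' e2
        have e3 : (x * z1)⁻¹ * (x' * z1') = z1⁻¹ * (x⁻¹ * x' * z1') := by group
        rw [e3]
        exact h3

end Pool.Agent.Lib.MP8a3537.LL2
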