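import Pool.Agent.Lib.MP_8a3537_gt.LL2.Spec

/-!
# Short chains (MP_8a3537_gt, folder LL2): torsion-free abelian stabilizers, Specs (helper28)

For every coefficient ring: if `H = G_v ∩ G_w` is torsion-free abelian, and the elements which exchange two vertices `x`,
`y` whose path passes through `v` and then `w` commute with `G_x ∩ G_y` (this is automatic if `H` is infinite
cyclic), then there are no long chains, and the lines have a homomorphism to `ℤ` as in Theorem Λ (`AR/LBK.lean`).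

Modules as in `LL2/Spec.lean` (`theorem specXXX (deps) : SpecXXX`, own lemmas in `XXXM`). These modules do not
mention forms.
-/

set_option autoImplicit false

namespace Pool.Agent.Lib.MP8a3537.LL2

open Pool.Agent.Lib.MP8a3537.RO Pool.Agent.Lib.MP8a3537.ROK Pool.Agent.Lib.MP8a3537.LL

/-- `K` is torsion-free abelian. -/
def TFA {G : Type} [Group G] (K : Subgroup G) : Prop :=
  (∀ a ∈ K, ∀ b ∈ K, a * b = b * a) ∧ ∀ a ∈ K, ∀ n : ℕ, n ≠ 0 → a ^ n = 1 → a = 1

/-- `G_v ∩ G_w` is torsion-free abelian, and every `g` which exchanges two vertices `x`, `y` with `v`, `w` (in this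
order) on their path, such that `g h` has order `≠ 2` for `h ∈ G_x ∩ G_y`, commutes with `G_x ∩ G_y`. -/
def Ab (G : Type) {V : Type} [Group G] [MulAction G V] (d : V → V → ℕ) (v w : V) : Prop :=
  TFA (MulAction.stabilizer G v ⊓ MulAction.stabilizer G w) ∧
    ∀ (x y : V) (g : G), d x y = d x v + d v w + d w y → g • x = y → g • y = x →
      (∀ h ∈ MulAction.stabilizer G x ⊓ MulAction.stabilizer G y, h * g * (h * g) ≠ 1) →
      ∀ h ∈ MulAction.stabilizer G x ⊓ MulAction.stabilizer G y, g * h = h * g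

/-- **ABF** (size 120): a homomorphism which is odd at `a` and `b`.

PROOF. `K` (written additively) is a finitely generated torsion-free abelian group, so free (`Module.Free ℤ`, `Module.Finite`,
`Module.free_of_finite_type_torsion_free'` or the present name). Basis `e`, coordinates. Some coordinate `a_i` is odd (otherwise `a = k k`), some `b_j` is odd.
If `b_i` is odd: `φ = e_i^*`. If `a_j` is odd: `φ = e_j^*`. Otherwise `b_i`, `a_j` are even: `φ = e_i^* + e_j^*`. -/
def SpecABF : Prop :=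
  ∀ (G : Type) [Group G] (K : Subgroup G), K.FG → TFA K → ∀ a b : K,
    (∀ k : K, k * k ≠ a) → (∀ k : K, k * k ≠ b) →
    ∃ φ : K →* Multiplicative ℤ, Odd (Multiplicative.toAdd (φ a)) ∧ Odd (Multiplicative.toAdd (φ b))

/-- The homomorphism of Theorem Λ. -/
def Lam {G : Type} [Group G] (K : Subgroup G) (g f : G) : Prop :=
  ∃ (Q : Subgroup G) (hL : K ≤ Q) (hg : g ∈ Q) (hf : f ∈ Q) (lam : Q →* Multiplicative ℤ),
    (∀ (l : G) (hl : l ∈ K), Even (Multiplicative.toAdd (lam ⟨l, hL hl⟩))) ∧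
      Odd (Multiplicative.toAdd (lam ⟨g, hg⟩)) ∧ Odd (Multiplicative.toAdd (lam ⟨f, hf⟩))

/-- **ABQ** (size 220, dep `SpecABF`, and the hypothesis `lam_cyc` of `AR/LCY.lean`, here as a second dep `SpecLCY`).

PROOF. `a = g g`, `b = f f`: `k k = g g` would give `(k⁻¹ g) (k⁻¹ g) = 1`. ABF: `φ`. `Q1 = Subgroup.closure (K ∪ {g, f})`: its elements commute with `K`
(`Subgroup.closure_induction`). `K0 = {q ∈ Q1 | q ∈ K, φ q = 1}` is a subgroup of `Q1`, normal (central). The image of `φ` is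
`m ℤ`, `m` odd (it contains the odd number `φ a`): let `φ z = m`, `z ∈ K`; every `k ∈ K` is in `z^j K0`. In `Q1 ⧸ K0`: the image `z'` of `z` has infinite order
(`z^n ∈ K0` gives `m n = 0`), the images of `g`, `f` commute with it, `g' g' ∈ zpowers z'`, and `z'^j g'` has a square `≠ 1` (`φ (z^(2 j) a) = 2 m j + φ a` is odd). `SpecLCY` for
`Q1 ⧸ K0`, `z'`, `g'`, `f'`: `Lam (zpowers z') g' f'`. Pull back to `Q1` (`Subgroup.comap`) and to `G` (`Subgroup.map Q1.subtype`, or
`Subgroup.comap`/`subgroupOf`). -/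
def SpecLCY : Prop :=
  ∀ (G : Type) [Group G] (z g f : G), (∀ n : ℤ, z ^ n = 1 → n = 0) →
    Ns (Subgroup.zpowers z) g → Ns (Subgroup.zpowers z) f → g * g ∈ Subgroup.zpowers z →
    f * f ∈ Subgroup.zpowers z → (∀ k ∈ Subgroup.zpowers z, k * g * (k * g) ≠ 1) →
    (∀ k ∈ Subgroup.zpowers z, k * f * (k * f) ≠ 1) → Lam (Subgroup.zpowers z) g f

@[inherit_doc SpecLCY]
def SpecABQ : Prop :=
  ∀ (G : Type) [Group G] (K : Subgroup G) (g f : G), K.FG → TFA K →
    (∀ k ∈ K, g * k = k * g) → (∀ k ∈ K, f * k = k * f) → g * g ∈ K → f * f ∈ K →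
    (∀ k ∈ K, k * g * (k * g) ≠ 1) → (∀ k ∈ K, k * f * (k * f) ≠ 1) → Lam K g f

/-- **ABC** (size 150): chains and lines.

PROOF. Put `K x y = stabilizer x ⊓ stabilizer y`. If `d x y = d x v + d v w + d w y` then `K x y ≤ K v w` (`specTFA` (1) twice, for elements of `K x y`: they fix
`v` and `w`; `d x y = d x v + d v y` and `d x y = d x w + d w y` by the triangle inequality), so `K x y` is `TFA`. (1) `u 0` commutes with `K 0` (`Ab`),
`u 2 = h * u 0` with `h ∈ K 0`, so `u 2` commutes with `K 0 ≥ K 1`. If `x 2 = x 1`: `k ∈ K 1` fixes `x 2` and `y 2 = u 2 • x 2 = u 2 • x 1`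
(`k u 2 x 1 = u 2 k x 1`), so `K 1 ≤ K 2`: contradiction. If `y 2 = y 1`: `x 2 = u 2 • y 2 = u 2 • y 1`: the same. (2) `g` commutes with `K x y`
(`Ab`). `f`: the pair `f y`, `y` is exchanged by `f` (`f f y = y`), `d (f y) y = d (f y) x + d x y`, the path passes through `v`, `w` (triangle inequalities as in
`LLX.chn`). `stabilizer (f y) ⊓ stabilizer y = K x y`: `≤`: `specTFA` (1) (`x` is between); `≥`: for `k ∈ K x y`: `f⁻¹ k f ∈ K x y` fixes `y`, so `k` fixes `f y`. So `Ab`
for `f y`, `y`, `f` says that `f` commutes with `K x y`. -/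
def SpecABC : Prop :=
  ∀ (G V : Type) [Group G] [MulAction G V] (d : V → V → ℕ), TM G d → ∀ v w : V, Ab G d v w →
    (∀ (x y : ℕ → V) (u : ℕ → G), (∀ i, d (x i) (y i) = d (x i) v + d v w + d w (y i)) →
      (∀ i, u i • x i = y i ∧ u i • y i = x i) →
      (∀ i, x (i + 1) = x i ∨ y (i + 1) = y i) →
      (∀ i, MulAction.stabilizer G (x (i + 1)) ⊓ MulAction.stabilizer G (y (i + 1)) <
        MulAction.stabilizer G (x i) ⊓ MulAction.stabilizer G (y i)) →
      (∀ i, ∃ h ∈ MulAction.stabilizer G (x i) ⊓ MulAction.stabilizer G (y i), u (i + 2) = h * u i) →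
      (∀ i, ∀ h ∈ MulAction.stabilizer G (x i) ⊓ MulAction.stabilizer G (y i),
        h * u i * (h * u i) ≠ 1) → False) ∧
    ∀ (x y : V) (g f : G), d x y = d x v + d v w + d w y → g • x = y → g • y = x →
      Ns (MulAction.stabilizer G x ⊓ MulAction.stabilizer G y) f →
      f * f ∈ MulAction.stabilizer G x ⊓ MulAction.stabilizer G y →
      d y (f • y) = d y x + d x (f • y) →
      (∀ h ∈ MulAction.stabilizer G x ⊓ MulAction.stabilizer G y, h * g * (h * g) ≠ 1) →
      (∀ h ∈ MulAction.stabilizer G x ⊓ MulAction.stabilizer G y, h * f * (h * f) ≠ 1) →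
      TFA (MulAction.stabilizer G x ⊓ MulAction.stabilizer G y) ∧
      (∀ h ∈ MulAction.stabilizer G x ⊓ MulAction.stabilizer G y, g * h = h * g) ∧
      ∀ h ∈ MulAction.stabilizer G x ⊓ MulAction.stabilizer G y, f * h = h * f

/-- **CYH** (size 100): infinite cyclic stabilizers.

PROOF. `H = stabilizer v ⊓ stabilizer w = zpowers z` is `TFA`. Let `g` exchange `x`, `y`, `K = stabilizer x ⊓ stabilizer y ≤ H` (see ABC). `g g ∈ K` (it fixes `x`, `y`),
`g K g⁻¹ = K`, `g g ≠ 1` (`h = 1`). Let `k ∈ K`. `K` is cyclic (a subgroup of a cyclic group), `K = zpowers c`, `c ≠ 1` because `g g ≠ 1`, `c` has infinite order;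
`g c g⁻¹ = c^j`, and `g⁻¹ c g = c^l`, `j l = 1`, so `j = ± 1`. If `j = -1`: `g g = c^i` and `g (g g) g⁻¹ = g g = c^(-i)`, so `i = 0`, `g g = 1`: contradiction. So `g`
commutes with `c`. -/
def SpecCYH : Prop :=
  ∀ (G V : Type) [Group G] [MulAction G V] (d : V → V → ℕ), TM G d → ∀ (v w : V) (z : G),
    MulAction.stabilizer G v ⊓ MulAction.stabilizer G w = Subgroup.zpowers z →
    (∀ n : ℤ, z ^ n = 1 → n = 0) → Ab G d v w

end Pool.Agent.Lib.MP8a3537.LL2
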