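import Mathlib
import Pool.Agent.Lib.MP_8a3537_gt.LL2.SpecA

/-!
# MP_8a3537_gt, folder LL2, module ABF: a homomorphism which is odd at two elements (helper18)
-/

set_option autoImplicit false

namespace Pool.Agent.Lib.MP8a3537.LL2

open Pool.Agent.Lib.MP8a3537.RO Pool.Agent.Lib.MP8a3537.ROK Pool.Agent.Lib.MP8a3537.LL

namespace ABFM

/-- an element which is not twice another one has an odd coordinate -/
lemma exists_odd {A : Type} [AddCommGroup A] {n : ℕ} (e : Module.Basis (Fin n) ℤ A) (a : A)
    (ha : ∀ k : A, k + k ≠ a) : ∃ i, Odd (e.repr a i) := by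
  by_contra hno
  push Not at hno
  have h1 : ∀ i, ∃ c : ℤ, e.repr a i = c + c := by
    intro i
    have := hno i
    rw [Int.not_odd_iff_even] at this
    exact this
  choose c hc using h1
  apply ha (∑ i, c i • e i)
  apply e.ext_elem
  intro i
  rw [map_add, Finsupp.add_apply, e.repr_sum_self, hc i]

/-- the additive form -/
lemma core {A : Type} [AddCommGroup A] {n : ℕ} (e : Module.Basis (Fin n) ℤ A) (a b : A)
    (ha : ∀ k : A, k + k ≠ a) (hb : ∀ k : A, k + k ≠ b) :
    ∃ φ : A →+ ℤ, Odd (φ a) ∧ Odd (φ b) := by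
  obtain ⟨i, hi⟩ := exists_odd e a ha
  obtain ⟨j, hj⟩ := exists_odd e b hb
  by_cases h1 : Odd (e.repr b i)
  · exact ⟨(e.coord i).toAddMonoidHom, hi, h1⟩
  by_cases h2 : Odd (e.repr a j)
  · exact ⟨(e.coord j).toAddMonoidHom, h2, hj⟩
  rw [Int.not_odd_iff_even] at h1 h2
  exact ⟨(e.coord i + e.coord j).toAddMonoidHom, hi.add_even h2, h1.add_odd hj⟩

end ABFM

open ABFM in
theorem specABF : SpecABF := by
  intro G _ K hfg hK a b ha hb
  letI : CommGroup K :=
    { (inferInstance : Group K) with
      mul_comm := fun x y => Subtype.ext (hK.1 x x.2 y y.2) }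
  haveI h1 : Group.FG K := (Group.fg_iff_subgroup_fg K).2 hfg
  haveI h2 : AddGroup.FG (Additive K) := GroupFG.iff_add_fg.1 h1
  haveI h3 : Module.Finite ℤ (Additive K) := Module.Finite.iff_addGroup_fg.2 h2
  haveI h4 : Module.IsTorsionFree ℤ (Additive K) := by
    refine Module.IsTorsionFree.of_smul_eq_zero fun r m hrm => ?_
    by_cases hr : r = 0
    · exact Or.inl hr
    right
    have h4 : (Additive.toMul m : K) ^ r = 1 := hrm
    have h5 : (Additive.toMul m : K) ^ r.natAbs = 1 := by
      rcases Int.natAbs_eq r with h | h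
      · rw [h, zpow_natCast] at h4
        exact h4
      · rw [h, zpow_neg, zpow_natCast, inv_eq_one] at h4
        exact h4
    have h6 : ((Additive.toMul m : K) : G) ^ r.natAbs = 1 := by
      have := congrArg (Subtype.val) h5
      simpa using this
    have h7 := hK.2 _ (Additive.toMul m : K).2 r.natAbs (by simpa using hr) h6
    have h8 : (Additive.toMul m : K) = 1 := Subtype.ext h7
    exact h8
  obtain ⟨n, e⟩ := Module.basisOfFiniteTypeTorsionFree' (R := ℤ) (M := Additive K)
  obtain ⟨φ, h5, h6⟩ := core e (Additive.ofMul a) (Additive.ofMul b)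
    (fun k hk => ha (Additive.toMul k) hk) (fun k hk => hb (Additive.toMul k) hk)
  exact ⟨{ toFun := fun k => Multiplicative.ofAdd (φ (Additive.ofMul k))
           map_one' := by
             show Multiplicative.ofAdd (φ 0) = 1
             rw [map_zero]
             rfl
           map_mul' := fun x y => by
             show Multiplicative.ofAdd (φ (Additive.ofMul x + Additive.ofMul y)) = _
             rw [map_add]
             rfl }, h5, h6⟩

end Pool.Agent.Lib.MP8a3537.LL2
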