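import Pool.Agent.Lib.MP_8a3537_gt.LL2.SpecA

/-!
# Short chains (MP_8a3537_gt, folder LL2), module ABQ (helper26): torsion-free abelian `K`

`K` finitely generated torsion-free abelian, `g` and `f` commute with `K`, `g g`, `f f` in `K`: the homomorphism of
Theorem Λ, from the infinite cyclic case for a quotient.
-/

set_option autoImplicit false

namespace Pool.Agent.Lib.MP8a3537.LL2

open Pool.Agent.Lib.MP8a3537.RO Pool.Agent.Lib.MP8a3537.ROK Pool.Agent.Lib.MP8a3537.LL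

namespace ABQM

variable {G : Type} [Group G]

lemma sq (K : Subgroup G) (x : G) (hxc : ∀ k ∈ K, x * k = k * x) (hx : x * x ∈ K)
    (hx2 : ∀ k ∈ K, k * x * (k * x) ≠ 1) (k : K) : k * k ≠ ⟨x * x, hx⟩ := by
  intro hk
  have e : (k : G) * k = x * x := congrArg Subtype.val hk
  apply hx2 (k : G)⁻¹ (K.inv_mem k.2)
  have c : x * (k : G)⁻¹ = (k : G)⁻¹ * x := hxc _ (K.inv_mem k.2)
  calc (k : G)⁻¹ * x * ((k : G)⁻¹ * x) = (k : G)⁻¹ * (x * (k : G)⁻¹) * x := by group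
    _ = (k : G)⁻¹ * (k : G)⁻¹ * (x * x) := by rw [c]; group
    _ = 1 := by rw [← e]; group

lemma gen (K : Subgroup G) (φ : K →* Multiplicative ℤ) :
    ∃ z : K, ∀ k : K, ∃ j : ℤ, φ k = φ z ^ j := by
  obtain ⟨⟨c, ⟨z, rfl⟩⟩, hgen⟩ := IsCyclic.exists_generator (α := φ.range)
  refine ⟨z, fun k => ?_⟩
  obtain ⟨j, hj⟩ := hgen ⟨φ k, k, rfl⟩
  exact ⟨j, (congrArg Subtype.val hj).symm⟩

/-- the pull back of the homomorphism -/
lemma pull (K Q1 : Subgroup G) (hK : K ≤ Q1) (K0 : Subgroup Q1) [K0.Normal] (g f : G) (hg : g ∈ Q1) (hf : f ∈ Q1)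
    (Z : Subgroup (Q1 ⧸ K0)) (hZ : ∀ (k : G) (hk : k ∈ K), (QuotientGroup.mk' K0 ⟨k, hK hk⟩) ∈ Z)
    (h : Lam Z (QuotientGroup.mk' K0 ⟨g, hg⟩) (QuotientGroup.mk' K0 ⟨f, hf⟩)) : Lam K g f := by
  obtain ⟨Q', hL, hg', hf', lam, h1, h2, h3⟩ := h
  have hm : ∀ x : (Q'.comap (QuotientGroup.mk' K0)).map Q1.subtype,
      ∃ hx : (x : G) ∈ Q1, QuotientGroup.mk' K0 ⟨x, hx⟩ ∈ Q' := by
    rintro ⟨x, y, hy, rfl⟩
    exact ⟨y.2, hy⟩
  have hin : ∀ (x : G) (hx : x ∈ Q1), QuotientGroup.mk' K0 ⟨x, hx⟩ ∈ Q' →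
      x ∈ (Q'.comap (QuotientGroup.mk' K0)).map Q1.subtype := by
    intro x hx h
    exact ⟨⟨x, hx⟩, h, rfl⟩
  let μ : (Q'.comap (QuotientGroup.mk' K0)).map Q1.subtype →* Multiplicative ℤ :=
    MonoidHom.mk' (fun x => lam ⟨QuotientGroup.mk' K0 ⟨x, (hm x).1⟩, (hm x).2⟩) (by
      intro a b
      rw [← map_mul]
      rfl)
  refine ⟨(Q'.comap (QuotientGroup.mk' K0)).map Q1.subtype, fun k hk => hin k (hK hk) (hL (hZ k hk)),
    hin g hg hg', hin f hf hf', μ, fun l hl => h1 _ (hZ l hl), h2, h3⟩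

lemma ns {A : Type} [Group A] (z g : A) (h : g * z = z * g) : Ns (Subgroup.zpowers z) g := by
  rintro _ ⟨n, rfl⟩
  have hc : Commute g z := h
  have e : g * z ^ n = z ^ n * g := (hc.zpow_right n).eq
  refine ⟨?_, ?_⟩
  · simp only
    rw [e, mul_inv_cancel_right]
    exact ⟨n, rfl⟩
  · simp only
    rw [mul_assoc, ← e, inv_mul_cancel_left]
    exact ⟨n, rfl⟩

end ABQM

open ABQM in
/-- **Module ABQ**. -/
theorem specABQ (hABF : SpecABF) (hLCY : SpecLCY) : SpecABQ := by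
  intro G _ K g f hFG hT hgc hfc hgg hff hg2 hf2
  obtain ⟨φ, ha, hb⟩ := hABF G K hFG hT ⟨g * g, hgg⟩ ⟨f * f, hff⟩ (sq K g hgc hgg hg2)
    (sq K f hfc hff hf2)
  obtain ⟨z, hz⟩ := gen K φ
  -- `φ z` is odd
  have hm : Odd (Multiplicative.toAdd (φ z)) := by
    obtain ⟨j, hj⟩ := hz ⟨g * g, hgg⟩
    rw [hj, toAdd_zpow, smul_eq_mul] at ha
    exact (Int.odd_mul.1 ha).2
  have hm0 : Multiplicative.toAdd (φ z) ≠ 0 := by
    intro h
    rw [h] at hm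
    exact (by decide : ¬ Odd (0 : ℤ)) hm
  have hKQ : K ≤ Subgroup.closure ((K : Set G) ∪ {g, f}) := fun k hk =>
    Subgroup.subset_closure (Or.inl hk)
  have hgQ : g ∈ Subgroup.closure ((K : Set G) ∪ {g, f}) := Subgroup.subset_closure (Or.inr (by simp))
  have hfQ : f ∈ Subgroup.closure ((K : Set G) ∪ {g, f}) := Subgroup.subset_closure (Or.inr (by simp))
  have hcom : ∀ q ∈ Subgroup.closure ((K : Set G) ∪ {g, f}), ∀ k ∈ K, q * k = k * q := by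
    intro q hq k hk
    have h1 : Subgroup.closure ((K : Set G) ∪ {g, f}) ≤ Subgroup.centralizer (K : Set G) := by
      rw [Subgroup.closure_le]
      rintro x (hx | hx)
      · intro k hk
        exact hT.1 k hk x hx
      · rcases hx with rfl | hx
        · intro k hk
          exact (hgc k hk).symm
        · rw [Set.mem_singleton_iff] at hx
          subst hx
          intro k hk
          exact (hfc k hk).symm
    exact (h1 hq k hk).symm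
  obtain ⟨Q1, hQ1⟩ : ∃ Q1 : Subgroup G, Q1 = Subgroup.closure ((K : Set G) ∪ {g, f}) := ⟨_, rfl⟩
  rw [← hQ1] at hKQ hgQ hfQ hcom
  clear hQ1
  let K0 : Subgroup Q1 := (φ.ker.map K.subtype).subgroupOf Q1
  have hK0 : ∀ (x : G) (hx : x ∈ Q1) (hxK : x ∈ K), (⟨x, hx⟩ : Q1) ∈ K0 ↔ φ ⟨x, hxK⟩ = 1 := by
    intro x hx hxK
    constructor
    · rintro ⟨y, hy, hy2⟩
      have e : y = ⟨x, hxK⟩ := Subtype.ext hy2
      rw [← e]
      exact hy
    · intro h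
      exact ⟨⟨x, hxK⟩, h, rfl⟩
  have hK0K : ∀ x : Q1, x ∈ K0 → (x : G) ∈ K := by
    rintro x ⟨y, hy, hy2⟩
    have e : (y : G) = x := hy2
    rw [← e]
    exact y.2
  have : K0.Normal := ⟨by
    intro n hn q
    have e : q * n * q⁻¹ = n := by
      apply Subtype.ext
      have := hcom q q.2 n (hK0K n hn)
      push_cast
      rw [this, mul_inv_cancel_right]
    rw [e]
    exact hn⟩
  -- the classes of the elements of `K`
  have hcl : ∀ (k : G) (hk : k ∈ K), QuotientGroup.mk' K0 ⟨k, hKQ hk⟩ ∈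
      Subgroup.zpowers (QuotientGroup.mk' K0 ⟨z, hKQ z.2⟩) := by
    intro k hk
    obtain ⟨j, hj⟩ := hz ⟨k, hk⟩
    refine ⟨j, ?_⟩
    simp only
    rw [← map_zpow]
    apply (QuotientGroup.eq (s := K0)).2
    have hk' : ((z : G) ^ j)⁻¹ * k ∈ K := K.mul_mem (K.inv_mem (K.zpow_mem z.2 j)) hk
    refine (hK0 (((z : G) ^ j)⁻¹ * k) _ hk').2 ?_
    have e : (⟨((z : G) ^ j)⁻¹ * k, hk'⟩ : K) = (z ^ j)⁻¹ * ⟨k, hk⟩ := rfl
    rw [e, map_mul, map_inv, map_zpow, hj, inv_mul_cancel]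
  have hord : ∀ n : ℤ, (QuotientGroup.mk' K0 ⟨z, hKQ z.2⟩) ^ n = 1 → n = 0 := by
    intro n hn
    rw [← map_zpow] at hn
    have h1 := (QuotientGroup.eq_one_iff (N := K0) _).1 hn
    have h2 := (hK0 ((z : G) ^ n) (Q1.zpow_mem (hKQ z.2) n) (K.zpow_mem z.2 n)).1 h1
    have e : (⟨(z : G) ^ n, K.zpow_mem z.2 n⟩ : K) = z ^ n := rfl
    rw [e, map_zpow] at h2
    have h3 := congrArg Multiplicative.toAdd h2
    rw [toAdd_zpow, toAdd_one, smul_eq_mul] at h3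
    exact (mul_eq_zero.1 h3).resolve_right hm0
  have hflip : ∀ (x : G) (hx : x ∈ Q1) (hxc : ∀ k ∈ K, x * k = k * x) (hxx : x * x ∈ K),
      Odd (Multiplicative.toAdd (φ ⟨x * x, hxx⟩)) →
      ∀ k ∈ Subgroup.zpowers (QuotientGroup.mk' K0 ⟨z, hKQ z.2⟩),
        k * QuotientGroup.mk' K0 ⟨x, hx⟩ * (k * QuotientGroup.mk' K0 ⟨x, hx⟩) ≠ 1 := by
    rintro x hx hxc hxx hodd _ ⟨j, rfl⟩ h
    simp only at h
    rw [← map_zpow, ← map_mul, ← map_mul] at h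
    have h1 := (QuotientGroup.eq_one_iff (N := K0) _).1 h
    have e0 : (z : G) ^ j * x * ((z : G) ^ j * x) = (z : G) ^ (2 * j) * (x * x) := by
      have c : x * (z : G) ^ j = (z : G) ^ j * x := hxc _ (K.zpow_mem z.2 j)
      calc (z : G) ^ j * x * ((z : G) ^ j * x) = (z : G) ^ j * (x * (z : G) ^ j) * x := by group
        _ = (z : G) ^ j * (z : G) ^ j * (x * x) := by rw [c]; group
        _ = (z : G) ^ (2 * j) * (x * x) := by rw [← zpow_add]; congr 2; ring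
    have hk' : (z : G) ^ (2 * j) * (x * x) ∈ K := K.mul_mem (K.zpow_mem z.2 _) hxx
    have h2 : (⟨(z : G) ^ (2 * j) * (x * x), hKQ hk'⟩ : Q1) ∈ K0 := by
      have e1 : (⟨(z : G) ^ (2 * j) * (x * x), hKQ hk'⟩ : Q1) =
          (⟨z, hKQ z.2⟩ : Q1) ^ j * ⟨x, hx⟩ * ((⟨z, hKQ z.2⟩ : Q1) ^ j * ⟨x, hx⟩) := Subtype.ext e0.symm
      rw [e1]
      exact h1
    have h3 := (hK0 _ _ hk').1 h2
    have e2 : (⟨(z : G) ^ (2 * j) * (x * x), hk'⟩ : K) = z ^ (2 * j) * ⟨x * x, hxx⟩ := rfl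
    rw [e2, map_mul, map_zpow] at h3
    have h4 := congrArg Multiplicative.toAdd h3
    rw [toAdd_mul, toAdd_zpow, toAdd_one, smul_eq_mul] at h4
    obtain ⟨r, hr⟩ := hodd
    rw [hr] at h4
    have h5 : 2 * (j * Multiplicative.toAdd (φ z) + r) + 1 = 0 := by linarith
    omega
  have hsq : ∀ (x : G) (hx : x ∈ Q1) (hxx : x * x ∈ K),
      QuotientGroup.mk' K0 ⟨x, hx⟩ * QuotientGroup.mk' K0 ⟨x, hx⟩ ∈
        Subgroup.zpowers (QuotientGroup.mk' K0 ⟨z, hKQ z.2⟩) := by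
    intro x hx hxx
    rw [← map_mul]
    exact hcl (x * x) hxx
  have hns : ∀ (x : G) (hx : x ∈ Q1), Ns (Subgroup.zpowers (QuotientGroup.mk' K0 ⟨z, hKQ z.2⟩))
      (QuotientGroup.mk' K0 ⟨x, hx⟩) := by
    intro x hx
    apply ns
    rw [← map_mul, ← map_mul]
    congr 1
    exact Subtype.ext (hcom x hx z z.2)
  exact pull K Q1 hKQ K0 g f hgQ hfQ _ hcl
    (hLCY (Q1 ⧸ K0) (QuotientGroup.mk' K0 ⟨z, hKQ z.2⟩) (QuotientGroup.mk' K0 ⟨g, hgQ⟩)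
      (QuotientGroup.mk' K0 ⟨f, hfQ⟩) hord (hns g hgQ) (hns f hfQ) (hsq g hgQ hgg) (hsq f hfQ hff)
      (hflip g hgQ hgc hgg ha) (hflip f hfQ hfc hff hb))

end Pool.Agent.Lib.MP8a3537.LL2
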