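import Pool.Agent.Lib.MP_8a3537_gt.LL2.SpecA
import Pool.Agent.Lib.MP_8a3537_gt.ROK.TFA

/-!
# Short chains (MP_8a3537_gt, folder LL2): ABC, chains and lines for abelian stabilizers (helper66)
-/

set_option autoImplicit false

namespace Pool.Agent.Lib.MP8a3537.LL2

open Pool.Agent.Lib.MP8a3537.RO Pool.Agent.Lib.MP8a3537.ROK Pool.Agent.Lib.MP8a3537.LL

namespace ABCM

variable {G V : Type} [Group G] [MulAction G V] {d : V → V → ℕ}

theorem mem_iff {x y : V} {k : G} :
    k ∈ MulAction.stabilizer G x ⊓ MulAction.stabilizer G y ↔ k • x = x ∧ k • y = y := by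
  rw [Subgroup.mem_inf, MulAction.mem_stabilizer_iff, MulAction.mem_stabilizer_iff]

theorem st_le (hd : TM G d) {v w x y : V} (h : d x y = d x v + d v w + d w y) :
    MulAction.stabilizer G x ⊓ MulAction.stabilizer G y ≤
      MulAction.stabilizer G v ⊓ MulAction.stabilizer G w := by
  intro k hk
  rw [mem_iff] at hk ⊢
  have t1 := hd.tri v w y
  have t2 := hd.tri x v y
  have t3 := hd.tri x v w
  have t4 := hd.tri x w y
  refine ⟨(specTFA G V d hd).1 k x v y (by omega) hk.1 hk.2,
    (specTFA G V d hd).1 k x w y (by omega) hk.1 hk.2⟩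

theorem tfa_mono {K L : Subgroup G} (h : K ≤ L) (hL : TFA L) : TFA K :=
  ⟨fun a ha b hb => hL.1 a (h ha) b (h hb), fun a ha => hL.2 a (h ha)⟩

end ABCM

open ABCM in
/-- **ABC** -/
theorem specABC : SpecABC := by
  intro G V _ _ d hd v w hAb
  refine ⟨?_, ?_⟩
  · intro x y u hP hu hor hlt huu hne
    have c0 := hAb.2 (x 0) (y 0) (u 0) (hP 0) (hu 0).1 (hu 0).2 (hne 0)
    have hT := tfa_mono (st_le hd (hP 0)) hAb.1
    obtain ⟨h, hh, hu2⟩ := huu 0
    rw [zero_add] at hu2
    have c2 : ∀ k ∈ MulAction.stabilizer G (x 0) ⊓ MulAction.stabilizer G (y 0),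
        u 2 * k = k * u 2 := by
      intro k hk
      rw [hu2, mul_assoc, c0 k hk, ← mul_assoc, hT.1 h hh k hk, mul_assoc]
    have h10 := (hlt 0).le
    have h21 := hlt 1
    rw [zero_add] at h10
    rw [show (1 : ℕ) + 1 = 2 from rfl] at h21
    apply absurd h21
    apply not_lt_of_ge
    intro k hk
    have ck := c2 k (h10 hk)
    rw [mem_iff] at hk ⊢
    rcases hor 1 with h3 | h3
    · rw [show (1 : ℕ) + 1 = 2 from rfl] at h3
      have h4 : k • x 2 = x 2 := by rw [h3]; exact hk.1
      refine ⟨h4, ?_⟩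
      calc k • y 2 = k • u 2 • x 2 := by rw [(hu 2).1]
        _ = u 2 • k • x 2 := by rw [← mul_smul, ← ck, mul_smul]
        _ = y 2 := by rw [h4, (hu 2).1]
    · rw [show (1 : ℕ) + 1 = 2 from rfl] at h3
      have h4 : k • y 2 = y 2 := by rw [h3]; exact hk.2
      refine ⟨?_, h4⟩
      calc k • x 2 = k • u 2 • y 2 := by rw [(hu 2).2]
        _ = u 2 • k • y 2 := by rw [← mul_smul, ← ck, mul_smul]
        _ = x 2 := by rw [h4, (hu 2).2]
  · intro x y g f hP hg1 hg2 hNs hff hmv hgn hfn
    refine ⟨tfa_mono (st_le hd hP) hAb.1, hAb.2 x y g hP hg1 hg2 hgn, ?_⟩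
    have hffy : f • f • y = y := by
      rw [← mul_smul]
      exact (mem_iff.1 hff).2
    have hK : MulAction.stabilizer G (f • y) ⊓ MulAction.stabilizer G y =
        MulAction.stabilizer G x ⊓ MulAction.stabilizer G y := by
      apply le_antisymm
      · intro k hk
        rw [mem_iff] at hk ⊢
        exact ⟨(specTFA G V d hd).1 k y x (f • y) hmv hk.2 hk.1, hk.2⟩
      · intro k hk
        have h1 := (mem_iff.1 (hNs k hk).2).2
        rw [mem_iff] at hk ⊢
        refine ⟨?_, hk.2⟩
        calc k • f • y = f • (f⁻¹ * k * f) • y := by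
              rw [← mul_smul, ← mul_smul]
              congr 1
              group
          _ = f • y := by rw [h1]
    have hP' : d (f • y) y = d (f • y) v + d v w + d w y := by
      have t1 := hd.tri (f • y) x v
      have t2 := hd.tri (f • y) v y
      have t3 := hd.tri v w y
      have c1 := hd.cm (f • y) y
      have c2 := hd.cm y x
      have c3 := hd.cm x (f • y)
      omega
    have := hAb.2 (f • y) y f hP' hffy rfl (by rw [hK]; exact hfn)
    rw [hK] at this
    exact this

end Pool.Agent.Lib.MP8a3537.LL2
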