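import Pool.Agent.Lib.MP_8a3537_gt.LL2.SpecB

/-! # folder LL2, module CLD: all pairs, without a chain condition (helper30) -/

set_option autoImplicit false

namespace Pool.Agent.Lib.MP8a3537.LL2

open Matrix Pool.Agent.Lib.MP8a3537.UV Pool.Agent.Lib.MP8a3537.AU Pool.Agent.Lib.MP8a3537.RO
open Pool.Agent.Lib.MP8a3537.ROK Pool.Agent.Lib.MP8a3537.LL

theorem specCLD (hSPB : SpecSPB) (hSPD : SpecSPD) : SpecCLD := by
  intro R G V _ _ _ _ d hd Q P hQ hL hB
  have main : ∀ N : ℕ, 1 ≤ N → ∀ x1 x2 : V, P x1 x2 → Cl R G d N x1 x2 := by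
    intro N
    induction N using Nat.strong_induction_on with
    | _ N ih =>
      intro hN x1 x2 hP L X1 X2 Yp Ym hpp hgeo ε n ψ χ hψ hχ hnil
      have hCl : 3 ≤ N → ∀ x1 x2 : V, P x1 x2 → Cl R G d (N - 1) x1 x2 := fun h3 x1 x2 hP =>
        ih (N - 1) (by omega) (by omega) x1 x2 hP
      have st : L = MulAction.stabilizer G x1 ⊓ MulAction.stabilizer G x2 := by
        ext a
        rw [Subgroup.mem_inf, MulAction.mem_stabilizer_iff, MulAction.mem_stabilizer_iff]
        exact hgeo.st a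
      obtain ⟨-, -, s3, s4⟩ := specSYK G L X1 X2 ∅ Yp Ym
      have hppe := s3 hpp
      have hgeoe := s4 V d x1 x2 hgeo
      have z2 : d x2 x2 = 0 := (hd.d0 x2 x2).2 rfl
      refine mDCM R G V d hd N x1 x2 hN (fun h => hCl h x1 x2 hP) L X1 X2 Yp Ym hpp hgeo ?_ ε n ψ χ
        hψ hχ hnil
      clear hψ hχ hnil ψ χ n ε
      intro x hx y hy ε n ψ χ hψ hχ hnil
      by_cases fx : Flip L x
      · obtain ⟨h, hh, hgg, hxd⟩ := ROTAux.exists_flip fx
        have hgX : x * h ∈ X1 := hpp.X1r h hh x hx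
        exact hSPD R G V d hd Q P N hN (hQ N hN) hL hCl hB x1 x2 (x * h) y hP
          (by rw [← st]; exact hgg) L X1 X2 Yp Ym hpp hgeo hgX hy ε n ψ χ
          (fun i j z hz => Or.inl (SGSM.D2_flip hgg hxd (hψ i j z hz))) hχ hnil
      · by_cases fy : Flip L y
        · obtain ⟨k, hk, hff, hyd⟩ := ROTAux.exists_flip fy
          have hfX : y * k ∈ X2 := hpp.X2r k hk y hy
          have hffy : (y * k) • (y * k) • x2 = x2 := by
            rw [← mul_smul]
            exact ((hgeo.st _).1 hff).2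
          have m2 : d x2 ((y * k) • x2) = d x2 x1 + d x1 ((y * k) • x2) :=
            hgeo.mv true false (y * k) x2 hfX (show d x1 x2 = d x1 x2 + d x2 x2 by rw [z2, add_zero])
          have hPl : P ((y * k) • x2) x2 := hL.l x1 x2 (y * k) hP hffy m2
          have h1 : SP R G d N x2 x1 (y * k) x :=
            (hSPB R G V d hd N x2 x1 (y * k) x hN).2
              (by rw [inf_comm, ← st]; exact hff) (by rw [inf_comm, ← st]; exact fx)
              (fun h3 => SGSM.Cl_swap (hCl h3 _ _ hPl))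
          exact (hSPB R G V d hd N x1 x2 x (y * k) hN).1 h1 L X1 X2 Yp Ym hpp hgeo hx hfX ε n ψ χ hψ
            (fun i j z hz => Or.inl (SGSM.D2_flip hff hyd (hχ i j z hz))) hnil
        · have h0 : SuppIn (∅ : Set G) (0 : Matrix (Fin n) (Fin n) (MonoidAlgebra R G)) := by
            intro i j z hz
            exact absurd rfl hz
          exact mNWT R G L X1 X2 ∅ Yp Ym hpp.toPingPong ε n ψ 0 χ
            (fun i j z hz => DCMM.D2_sub hpp hx z (hψ i j z hz)) h0
            (fun i j z hz => DCMM.D2_sub hppe hy z (hχ i j z hz)) ⟨N, hnil⟩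
            (fun i j z hz => SGSM.D2_nonflip fx (hψ i j z hz))
            (fun i j z hz => SGSM.D2_nonflip fy (hχ i j z hz))
  refine ⟨main, ?_⟩
  have hse : ∀ x1 x2 : V, (∀ N, 1 ≤ N → Cl R G d N x1 x2) → SE R G d x1 x2 := by
    intro x1 x2 hcl L g Xb Yp Ym P hg h1 h2 ε n ψ χ hψ hχ hnil
    obtain ⟨N, hN⟩ := hnil
    refine hcl (N + 1) (by omega) L (La L g) Xb Yp Ym P hg ε n ψ χ hψ hχ ?_
    rw [pow_succ, hN, zero_mul]
  intro x1 x2 hP
  exact ⟨hse x1 x2 fun N hN => main N hN x1 x2 hP,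
    hse x2 x1 fun N hN => SGSM.Cl_swap (main N hN x1 x2 hP)⟩

end Pool.Agent.Lib.MP8a3537.LL2
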