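import Pool.Agent.Lib.MP_8a3537_gt.LL2.SpecA
import Pool.Agent.Lib.MP_8a3537_gt.ROK.TFA

/-!
# LL2, module CYH: infinite cyclic stabilizers

If `G_v ∩ G_w` is infinite cyclic, then the condition `Ab` holds.  For `k` in the stabilizer `K` of the exchanged pair and
`a = g g`, the elements `a = z^i`, `k = z^j`, `g k g⁻¹ = z^l` satisfy `z^(l i) = g k^i g⁻¹ = g a^j g⁻¹ = a^j = z^(i j)`.
-/

set_option autoImplicit false

namespace Pool.Agent.Lib.MP8a3537.LL2

open Pool.Agent.Lib.MP8a3537.RO Pool.Agent.Lib.MP8a3537.ROK Pool.Agent.Lib.MP8a3537.LL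

namespace CYHM

variable {G : Type} [Group G]

theorem tfa {z : G} (hz : ∀ n : ℤ, z ^ n = 1 → n = 0) : TFA (Subgroup.zpowers z) := by
  constructor
  · intro a ha b hb
    obtain ⟨i, rfl⟩ := Subgroup.mem_zpowers_iff.1 ha
    obtain ⟨j, rfl⟩ := Subgroup.mem_zpowers_iff.1 hb
    rw [← zpow_add, ← zpow_add, add_comm]
  · intro a ha n hn h
    obtain ⟨i, rfl⟩ := Subgroup.mem_zpowers_iff.1 ha
    have h1 : z ^ (i * (n : ℤ)) = 1 := by
      rw [zpow_mul, zpow_natCast]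
      exact h
    have h2 := hz _ h1
    have h3 : (n : ℤ) ≠ 0 := by exact_mod_cast hn
    have h4 : i = 0 := (mul_eq_zero.1 h2).resolve_right h3
    rw [h4, zpow_zero]

theorem inj {z : G} (hz : ∀ n : ℤ, z ^ n = 1 → n = 0) {i j : ℤ} (h : z ^ i = z ^ j) : i = j := by
  have h1 : z ^ (i - j) = 1 := by
    rw [zpow_sub, h, mul_inv_cancel]
  have := hz _ h1
  omega

/-- `g` commutes with `k` if `g g`, `k` and `g k g⁻¹` are powers of `z`, `g g ≠ 1` -/
theorem comm_of {z g k : G} (hz : ∀ n : ℤ, z ^ n = 1 → n = 0) (ha : g * g ∈ Subgroup.zpowers z)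
    (hk : k ∈ Subgroup.zpowers z) (hc : g * k * g⁻¹ ∈ Subgroup.zpowers z) (h1 : g * g ≠ 1) :
    g * k = k * g := by
  obtain ⟨i, hi⟩ := Subgroup.mem_zpowers_iff.1 ha
  obtain ⟨j, hj⟩ := Subgroup.mem_zpowers_iff.1 hk
  obtain ⟨l, hl⟩ := Subgroup.mem_zpowers_iff.1 hc
  have hi0 : i ≠ 0 := by
    rintro rfl
    rw [zpow_zero] at hi
    exact h1 hi.symm
  have e1 : k ^ i = (g * g) ^ j := by
    rw [← hj, ← hi, ← zpow_mul, ← zpow_mul, mul_comm]
  have e2 : g * (g * g) ^ j * g⁻¹ = (g * g) ^ j := by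
    have h2 : Commute g ((g * g) ^ j) :=
      Commute.zpow_right (Commute.mul_right (Commute.refl g) (Commute.refl g)) j
    rw [h2.eq, mul_assoc, mul_inv_cancel, mul_one]
  have e3 : (g * k * g⁻¹) ^ i = g * k ^ i * g⁻¹ := conj_zpow
  have e4 : z ^ (l * i) = z ^ (j * i) := by
    rw [zpow_mul, hl, e3, e1, e2, ← e1, ← hj, zpow_mul]
  have e5 : l = j := mul_right_cancel₀ hi0 (inj hz e4)
  have e6 : g * k * g⁻¹ = k := by rw [← hl, ← hj, e5]
  calc g * k = g * k * g⁻¹ * g := by rw [mul_assoc, inv_mul_cancel, mul_one]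
    _ = k * g := by rw [e6]

end CYHM

open CYHM in
/-- **CYH**. -/
theorem specCYH : SpecCYH := by
  intro G V _ _ d hd v w z hH hz
  refine ⟨hH ▸ tfa hz, ?_⟩
  intro x y g hxy hgx hgy hne h hh
  -- the stabilizer of the long pair fixes `v` and `w`
  have hK : ∀ k ∈ MulAction.stabilizer G x ⊓ MulAction.stabilizer G y,
      k ∈ Subgroup.zpowers z := by
    intro k hk
    obtain ⟨hkx, hky⟩ := Subgroup.mem_inf.1 hk
    rw [MulAction.mem_stabilizer_iff] at hkx hky
    have t1 := hd.tri x v y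
    have t2 := hd.tri v w y
    have t3 := hd.tri x v w
    have t4 := hd.tri x w y
    rw [← hH, Subgroup.mem_inf, MulAction.mem_stabilizer_iff, MulAction.mem_stabilizer_iff]
    exact ⟨(specTFA G V d hd).1 k x v y (by omega) hkx hky,
      (specTFA G V d hd).1 k x w y (by omega) hkx hky⟩
  have hix : g⁻¹ • x = y := by rw [inv_smul_eq_iff, hgy]
  have hiy : g⁻¹ • y = x := by rw [inv_smul_eq_iff, hgx]
  have hgg : g * g ∈ MulAction.stabilizer G x ⊓ MulAction.stabilizer G y := by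
    rw [Subgroup.mem_inf, MulAction.mem_stabilizer_iff, MulAction.mem_stabilizer_iff, mul_smul,
      mul_smul, hgx, hgy, hgx]
    exact ⟨rfl, rfl⟩
  have hcc : g * h * g⁻¹ ∈ MulAction.stabilizer G x ⊓ MulAction.stabilizer G y := by
    obtain ⟨hhx, hhy⟩ := Subgroup.mem_inf.1 hh
    rw [MulAction.mem_stabilizer_iff] at hhx hhy
    rw [Subgroup.mem_inf, MulAction.mem_stabilizer_iff, MulAction.mem_stabilizer_iff, mul_smul,
      mul_smul, mul_smul, mul_smul, hix, hiy, hhx, hhy, hgx, hgy]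
    exact ⟨rfl, rfl⟩
  have h1 : g * g ≠ 1 := by
    have := hne 1 (one_mem _)
    rwa [one_mul] at this
  exact comm_of hz (hK _ hgg) (hK _ hh) (hK _ hcc) h1

end Pool.Agent.Lib.MP8a3537.LL2
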