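import Pool.Agent.Lib.MP_8a3537_gt.LL2.Spec

/-! # folder LL2, module FLS: the theorem for trees (helper24) -/

set_option autoImplicit false

namespace Pool.Agent.Lib.MP8a3537.LL2

open Matrix Pool.Agent.Lib.MP8a3537.UV Pool.Agent.Lib.MP8a3537.AU Pool.Agent.Lib.MP8a3537.RO
open Pool.Agent.Lib.MP8a3537.ROK Pool.Agent.Lib.MP8a3537.LL

namespace FLSM

/-- the pairs whose path contains the edge, with exchanged ends -/
def Pr (G : Type) {V : Type} [Group G] [MulAction G V] (d : V → V → ℕ) (v w : V) (x y : V) : Prop :=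
  d x y = d x v + d v w + d w y ∧ ∃ g : G, g • x = y ∧ g • y = x

theorem lng {G V : Type} [Group G] [MulAction G V] {d : V → V → ℕ} (hd : TM G d) (v w : V) :
    Lng G d (Pr G d v w) := by
  constructor
  · rintro x1 x2 x ⟨hP, -⟩ h1 h2
    refine ⟨?_, x, rfl, h1⟩
    have t1 := hd.tri w x2 (x • x1)
    have t2 := hd.tri x1 v (x • x1)
    have t3 := hd.tri v w (x • x1)
    omega
  · rintro x1 x2 y ⟨hP, -⟩ h1 h2
    refine ⟨?_, y, h1, rfl⟩
    have t1 := hd.tri (y • x2) x1 v
    have t2 := hd.tri (y • x2) v x2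
    have t3 := hd.tri v w x2
    have c1 := hd.cm (y • x2) x2
    have c2 := hd.cm x2 x1
    have c3 := hd.cm x1 (y • x2)
    omega

end FLSM

open FLSM in
theorem specFLS (hCLN : SpecCLN) (hCHS : SpecCHS) : SpecFLS := by
  intro R G V _ _ _ _ Q T v w hQ hT hact hvw hinv htwo hl hchain ε n ψ μ χ hψ hμ hχ hnil
  have hd : TM G (V := V) T.dist := specFPT G V T hT hact
  have hG := specTRG G V T v w hT hact hvw hinv
  have h1 : T.dist v w = 1 := SimpleGraph.dist_eq_one_iff_adj.2 hvw
  have hline : ∀ x y : V, T.dist x y = T.dist x v + T.dist v w + T.dist w y →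
      (∃ g : G, g • x = y ∧ g • y = x) →
      Q (MulAction.stabilizer G x ⊓ MulAction.stabilizer G y) ∨ HS R G T.dist x y := by
    intro x y hxy _
    refine LLX.hln R G V Q T.dist hd v w ?_ x y ?_ hxy
    · intro x' y' g f e
      rw [h1] at e
      exact hl x' y' g f e
    · intro he
      rw [he, (hd.d0 y y).2 rfl] at hxy
      omega
  have hGP := hCHS R G V T.dist hd Q v w hvw.ne hline (by
    intro x y u hxy
    simp only [h1] at hxy
    exact hchain x y u hxy)
  have hSE := (hCLN R G V T.dist hd Q (Pr G T.dist v w) hQ (lng hd v w)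
    (fun x1 x2 x y hP => hGP x1 x2 x y hP.1 hP.2)).2
  obtain ⟨Yp, Ym, hP⟩ := specTRK G V T v w hT hact hvw hinv htwo
  refine mMNK R G V T.dist hd _ _ _ _ Yp Ym w v hP hG ?_ ?_ ε n ψ μ χ hψ hμ hχ hnil
  · intro g hg hgg
    have h3 : (g * g) • w = w := hgg.2
    rw [mul_smul] at h3
    have h4 : g • w ∈ DD T.dist w v false := by
      refine hG.mv false true g w ⟨hg.1, hg.2⟩ ?_
      change T.dist v w = T.dist v w + T.dist w w
      rw [(hd.d0 w w).2 rfl, Nat.add_zero]
    have h5 : T.dist w (g • w) = T.dist w v + T.dist v (g • w) := h4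
    refine (hSE (g • w) w ⟨?_, g, h3, rfl⟩).2
    have c1 := hd.cm (g • w) w
    have c2 := hd.cm w v
    have c3 := hd.cm v (g • w)
    have c4 := (hd.d0 w w).2 rfl
    omega
  · intro g hg hgg
    have h3 : (g * g) • v = v := hgg.1
    rw [mul_smul] at h3
    have h4 : g • v ∈ DD T.dist w v true := by
      refine hG.mv true false g v ⟨hg.1, hg.2⟩ ?_
      change T.dist w v = T.dist w v + T.dist v v
      rw [(hd.d0 v v).2 rfl, Nat.add_zero]
    have h5 : T.dist v (g • v) = T.dist v w + T.dist w (g • v) := h4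
    refine (hSE v (g • v) ⟨?_, g, rfl, h3⟩).1
    have c4 := (hd.d0 v v).2 rfl
    omega

end Pool.Agent.Lib.MP8a3537.LL2
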