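import Pool.Agent.Lib.MP_8a3537_gt.LL2.SpecB
import Pool.Agent.Lib.MP_8a3537_gt.LL2.FLS

/-! # folder LL2, module FLD: the theorem for trees, without a chain condition (helper30) -/

set_option autoImplicit false

namespace Pool.Agent.Lib.MP8a3537.LL2

open Matrix Pool.Agent.Lib.MP8a3537.UV Pool.Agent.Lib.MP8a3537.AU Pool.Agent.Lib.MP8a3537.RO
open Pool.Agent.Lib.MP8a3537.ROK Pool.Agent.Lib.MP8a3537.LL

open FLSM in
theorem specFLD (hCLD : SpecCLD) : SpecFLD := by
  intro R G V _ _ _ _ Q T v w hQ hT hact hvw hinv htwo hl ε n ψ μ χ hψ hμ hχ hnil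
  have hd : TM G (V := V) T.dist := specFPT G V T hT hact
  have hG := specTRG G V T v w hT hact hvw hinv
  have h1 : T.dist v w = 1 := SimpleGraph.dist_eq_one_iff_adj.2 hvw
  have hSE := (hCLD R G V T.dist hd Q (Pr G T.dist v w) hQ (lng hd v w) (by
    rintro x1 x2 ⟨hP, -⟩ -
    by_cases hq : Q (MulAction.stabilizer G x1 ⊓ MulAction.stabilizer G x2)
    · exact Or.inl hq
    · right
      intro g f hg1 hg2 hff hf1 hf2 n1 n2
      rw [h1] at hP
      exact (hl x1 x2 g f hP hg1 hg2 hff hf1 hf2 n1 n2).resolve_left hq)).2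
  obtain ⟨Yp, Ym, hP⟩ := specTRK G V T v w hT hact hvw hinv htwo
  refine mMNK R G V T.dist hd _ _ _ _ Yp Ym w v hP hG ?_ ?_ ε n ψ μ χ hψ hμ hχ hnil
  · intro g hg hgg
    have h3 : (g * g) • w = w := hgg.2
    rw [mul_smul] at h3
    have h4 : g • w ∈ DD T.dist w v false := by
      refine hG.mv false true g w ⟨hg.1, hg.2⟩ ?_
      change T.dist v w = T.dist v w + T.dist w w
      rw [(hd.d0 w w).2 rfl, Nat.add_zero]
    have h5 : T.dist w (g • w) = T.dist w v + T.dist v (g • w) := h4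
    refine (hSE (g • w) w ⟨?_, g, h3, rfl⟩).2
    have c1 := hd.cm (g • w) w
    have c2 := hd.cm w v
    have c3 := hd.cm v (g • w)
    have c4 := (hd.d0 w w).2 rfl
    omega
  · intro g hg hgg
    have h3 : (g * g) • v = v := hgg.1
    rw [mul_smul] at h3
    have h4 : g • v ∈ DD T.dist w v true := by
      refine hG.mv true false g v ⟨hg.1, hg.2⟩ ?_
      change T.dist w v = T.dist w v + T.dist v v
      rw [(hd.d0 v v).2 rfl, Nat.add_zero]
    have h5 : T.dist v (g • v) = T.dist v w + T.dist w (g • v) := h4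
    refine (hSE v (g • v) ⟨?_, g, rfl, h3⟩).1
    have c4 := (hd.d0 v v).2 rfl
    omega

end Pool.Agent.Lib.MP8a3537.LL2
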