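import Pool.Agent.Lib.MP_8a3537_gt.LL2.Spec

/-!
# Short chains (MP_8a3537_gt, folder LL2), module IDX: the index is preserved
-/

set_option autoImplicit false

namespace Pool.Agent.Lib.MP8a3537.LL2

open Matrix Pool.Agent.Lib.MP8a3537.UV Pool.Agent.Lib.MP8a3537.AU Pool.Agent.Lib.MP8a3537.RO
open Pool.Agent.Lib.MP8a3537.ROK Pool.Agent.Lib.MP8a3537.LL

namespace IDXM

/-- The whole set `X1` satisfies `Sub1`. -/
theorem sub1 {G : Type} [Group G] {H : Subgroup G} {X1 X2 X3 Yp Ym : Set G}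
    (hp : PingPong H X1 X2 X3 Yp Ym) : Sub1 H X1 X2 X3 Yp Ym X1 :=
  ⟨hp, fun _ hx => hx, (specUNQ G H X1 X2 X3 Yp Ym hp).2.2.1 false true, hp.X1i⟩

/-- The type of an index. -/
def ty {α β : Type} : α ⊕ β → Bool
  | Sum.inl _ => true
  | Sum.inr _ => false

section Gen

variable {R G : Type} [Ring R] [Group G]

/-- The words with `k` letters from `false` to `s`, times an element of `La K' g`. -/
def WE (L : Subgroup G) (X1 X2 : Set G) (g : G) (k : ℕ) (s : Bool) : Set G :=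
  {z | ∃ u e, Wd L X1 X2 ∅ k s false u ∧ e ∈ La (Kg L g) g ∧ z = u * e}

/-- The entries of the powers of a matrix with the supports of `nu` are supported in words. -/
theorem pow_supp {a b : Type} [Fintype a] [Fintype b] [DecidableEq a] [DecidableEq b]
    {L : Subgroup G} {X1 X2 : Set G} (M : Matrix (a ⊕ b) (a ⊕ b) (MonoidAlgebra R G))
    (hM : ∀ i j z, (M i j).coeff z ≠ 0 → z ∈ XX X1 X2 ∅ (ty i) (ty j)) :
    ∀ (k : ℕ) (i j : a ⊕ b) (z : G), ((M ^ k) i j).coeff z ≠ 0 →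
      Wd L X1 X2 ∅ k (ty i) (ty j) z := by
  intro k
  induction k with
  | zero =>
    intro i j z hz
    rw [pow_zero, Matrix.one_apply] at hz
    split_ifs at hz with hij
    · subst hij
      by_cases h1 : z = 1
      · rw [h1]
        exact Wd.base L.one_mem
      · exact absurd (NILAux.coeff_one_ne z h1) hz
    · exact absurd rfl hz
  | succ k ih =>
    intro i j z hz
    rw [pow_succ', Matrix.mul_apply, MonoidAlgebra.coeff_sum, Finsupp.finsetSum_apply] at hz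
    obtain ⟨l, -, hl⟩ := Finset.exists_ne_zero_of_sum_ne_zero hz
    obtain ⟨u, v, hu, hv, e⟩ := NILAux.coeff_mul_ne _ _ _ hl
    rw [← e]
    exact Wd.cons (hM i l u hu) (ih l j v hv)

/-- Cancellation of `Ξ`, row by row. -/
theorem cnc_rows {L K : Subgroup G} {r n : ℕ} {Ξ : Matrix (Fin r) (Fin n) (MonoidAlgebra R G)}
    (hC : Cnc L K Ξ) (W : Bool → Set G)
    (hW : ∀ s, ∀ w ∈ W s, ∀ w' ∈ W s, ∀ t ∈ L, ∀ t' ∈ L, w * t = w' * t' → t' * t⁻¹ ∈ K)
    {m : Type} (Y : Matrix m (Fin r) (MonoidAlgebra R G)) (sY : m → Bool)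
    (hs : ∀ i j z, (Y i j).coeff z ≠ 0 → z ∈ W (sY i)) (h0 : Y * Ξ = 0) : Y = 0 := by
  ext1 i j
  have h1 : (Y.submatrix (fun _ : Unit => i) id) * Ξ = 0 := by
    ext1 u v
    have := congrFun (congrFun h0 i) v
    rw [Matrix.mul_apply] at this ⊢
    exact this
  have h2 := hC (W (sY i)) (hW (sY i)) Unit (Y.submatrix (fun _ : Unit => i) id)
    (fun _ j z hz => hs i j z hz) h1
  exact congrFun (congrFun h2 ()) j

end Gen

/-- The sets `WE k s` satisfy the hypothesis in `Cnc`. -/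
theorem we_cnc {G : Type} [Group G] (hUWD : SpecUWD) {L : Subgroup G} {X1 X2 Yp Ym : Set G}
    (hp : PingPong L X1 X2 ∅ Yp Ym) {g : G} (hg : g ∈ X1) (hgg : g * g ∈ L) (k : ℕ) (s : Bool) :
    ∀ w ∈ WE L X1 X2 g k s, ∀ w' ∈ WE L X1 X2 g k s, ∀ t ∈ L, ∀ t' ∈ L,
      w * t = w' * t' → t' * t⁻¹ ∈ Kg L g := by
  obtain ⟨-, hLa, -, -, -⟩ := mSBK G L X1 X2 ∅ Yp Ym hp g hg hgg
  rintro w ⟨u, e, hu, he, rfl⟩ w' ⟨u', e', hu', he', rfl⟩ t ht t' ht' h
  have ym : ∀ x ∈ La (Kg L g) g, ∀ t ∈ L, x * t ∈ YB Yp Ym false := by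
    intro x hx t ht
    have := hp.Ypl t ht 1 hp.Yp1
    rw [mul_one] at this
    exact hp.X1Y x (hLa x hx).1 t this
  have h1 : u * (e * t) = u' * (e' * t') := by rw [← mul_assoc, ← mul_assoc, h]
  have h2 := hUWD G L X1 X2 ∅ Yp Ym hp k s false u u' (e * t) (e' * t') hu hu' (ym e he t ht)
    (ym e' he' t' ht') h1
  obtain ⟨l, hl, rfl⟩ := he
  obtain ⟨l', hl', rfl⟩ := he'
  have hlL : l ∈ L := ((mem_Kg L g l).1 hl).1
  have hlL' : l' ∈ L := ((mem_Kg L g l').1 hl').1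
  -- `g (t t'⁻¹) g⁻¹ = l⁻¹ h l'`
  have h3 : g * (t' * t⁻¹) * g⁻¹ = l'⁻¹ * (u⁻¹ * u')⁻¹ * l := by
    have e1 : l * g * t = (u⁻¹ * u') * (l' * g * t') := by
      calc l * g * t = u⁻¹ * (u * (l * g * t)) := by group
        _ = u⁻¹ * (u' * (l' * g * t')) := by rw [h1]
        _ = (u⁻¹ * u') * (l' * g * t') := by group
    have e2 : g * t' = l'⁻¹ * (u⁻¹ * u')⁻¹ * (l * g * t) := by
      rw [e1]
      group
    calc g * (t' * t⁻¹) * g⁻¹ = (g * t') * t⁻¹ * g⁻¹ := by group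
      _ = l'⁻¹ * (u⁻¹ * u')⁻¹ * (l * g * t) * t⁻¹ * g⁻¹ := by rw [e2]
      _ = l'⁻¹ * (u⁻¹ * u')⁻¹ * l := by group
  have h4 : g * (t' * t⁻¹) * g⁻¹ ∈ L := by
    rw [h3]
    exact L.mul_mem (L.mul_mem (L.inv_mem hlL') (L.inv_mem h2)) hlL
  rw [mem_Kg]
  refine ⟨L.mul_mem ht' (L.inv_mem ht), ?_⟩
  have h5 : g⁻¹ * (t' * t⁻¹) * g = (g * g)⁻¹ * (g * (t' * t⁻¹) * g⁻¹) * (g * g) := by group
  rw [h5]
  exact L.mul_mem (L.mul_mem (L.inv_mem hgg) h4) hgg

end IDXM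

open IDXM in
theorem specIDX (hUWD : SpecUWD) : SpecIDX := by
  intro R G _ _ _ L X1 X2 Yp Ym hp g hg hgg ε n r N hN Ξ ψ' χ hΞ hC hψ hχ hnu
  obtain ⟨-, hLa, ⟨hLs, hLi, -⟩, -, -⟩ := mSBK G L X1 X2 ∅ Yp Ym hp g hg hgg
  obtain ⟨w1, -, w3, -, -⟩ := mWDA G L X1 X2 ∅ Yp Ym X1 (sub1 hp)
  obtain ⟨k, rfl⟩ : ∃ k, N = k + 1 := ⟨N - 1, by omega⟩
  set α : Matrix (Fin r) (Fin r) (MonoidAlgebra R G) := ψ' + (ε : ℤ) • ψ'ᴴ with hα
  set b : Matrix (Fin n) (Fin n) (MonoidAlgebra R G) := χ + (ε : ℤ) • χᴴ with hb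
  have ea : Ξᴴ * ψ' * Ξ + (ε : ℤ) • (Ξᴴ * ψ' * Ξ)ᴴ = Ξᴴ * α * Ξ := by
    rw [hα, Matrix.conjTranspose_mul, Matrix.conjTranspose_mul,
      Matrix.conjTranspose_conjTranspose, Matrix.mul_add, Matrix.add_mul, Matrix.mul_smul,
      Matrix.smul_mul, Matrix.mul_assoc Ξᴴ ψ'ᴴ Ξ]
  have eth : Ξ * χ * Ξᴴ + (ε : ℤ) • (Ξ * χ * Ξᴴ)ᴴ = Ξ * b * Ξᴴ := by
    rw [hb, Matrix.conjTranspose_mul, Matrix.conjTranspose_mul,
      Matrix.conjTranspose_conjTranspose, Matrix.mul_add, Matrix.add_mul, Matrix.mul_smul,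
      Matrix.smul_mul, Matrix.mul_assoc Ξ χᴴ Ξᴴ]
  rw [ea] at hnu
  rw [eth]
  -- supports
  have hΞs : SuppIn (L : Set G) Ξᴴ := NILAux.supp_mono (NILAux.supp_star hΞ)
    (fun x hx => (Subgroup.inv_mem_iff L).1 hx)
  have sα : SuppIn (La (Kg L g) g) α := by
    refine NILAux.supp_add hψ (NILAux.supp_smul _ (NILAux.supp_mono (NILAux.supp_star hψ) ?_))
    intro x hx
    have := hLi x⁻¹ hx
    rwa [inv_inv] at this
  have sb : SuppIn X2 b := by
    refine NILAux.supp_add hχ (NILAux.supp_smul _ (NILAux.supp_mono (NILAux.supp_star hχ) ?_))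
    intro x hx
    have := hp.X2i x⁻¹ hx
    rwa [inv_inv] at this
  have sΞb : SuppIn X2 (Ξ * b) := NILAux.supp_mul hΞ sb hp.X2l
  have sθ : SuppIn X2 (Ξ * b * Ξᴴ) :=
    NILAux.supp_mul sΞb hΞs (fun x hx y hy => hp.X2r y hy x hx)
  -- the matrices
  have ha : Ξᴴ * α * Ξ = Ξᴴ * α * Ξ := rfl
  have hm : (0 : Matrix (Fin n) (Fin n) (MonoidAlgebra R G)) =
      (0 : Matrix (Fin n) (Fin r) (MonoidAlgebra R G)) * Ξ := (Matrix.zero_mul Ξ).symm
  set M := NILAux.NN ε (0 : Matrix (Fin n) (Fin n) (MonoidAlgebra R G)) b Ξ α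
    (0 : Matrix (Fin n) (Fin r) (MonoidAlgebra R G)) with hMdef
  have hPP : M ^ (k + 1) * NILAux.PP Ξ = 0 := by
    have := NILAux.PP_pow ε (b := b) ha hm (k + 1)
    rw [hnu, Matrix.mul_zero] at this
    exact this.symm
  -- supports of `M`
  have sM : ∀ i j z, (M i j).coeff z ≠ 0 → z ∈ XX X1 X2 ∅ (ty i) (ty j) := by
    intro i j z hz
    rcases i with i | i <;> rcases j with j | j
    · exfalso
      apply hz
      have : M (Sum.inl i) (Sum.inl j) = (Ξ * (0 : Matrix (Fin n) (Fin r) (MonoidAlgebra R G))) i j :=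
        rfl
      rw [this, Matrix.mul_zero]
      rfl
    · exact NILAux.supp_smul (ε : ℤ) sΞb i j z hz
    · have s1 : SuppIn X1 (Ξᴴ * α) :=
        NILAux.supp_mul hΞs (NILAux.supp_mono sα (fun x hx => (hLa x hx).1)) hp.X1l
      exact s1 i j z hz
    · exfalso
      apply hz
      have : M (Sum.inr i) (Sum.inr j) =
        ((0 : Matrix (Fin n) (Fin n) (MonoidAlgebra R G))ᴴ) i j := rfl
      rw [this, Matrix.conjTranspose_zero]
      rfl
  have pM := pow_supp (L := L) M sM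
  -- `M ^ (k + 1) = 0`
  have hM0 : M ^ (k + 1) = 0 := by
    have c1 : (M ^ (k + 1)).toCols₁ * Ξ = 0 := by
      ext1 i j
      have h := congrFun (congrFun hPP i) (Sum.inl j)
      rw [← fromCols_toCols (M ^ (k + 1))] at h
      unfold NILAux.PP at h
      rw [fromCols_mul_fromBlocks] at h
      simp only [Matrix.mul_zero, Matrix.mul_one, add_zero, zero_add] at h
      exact h
    have c2 : (M ^ (k + 1)).toCols₂ = 0 := by
      ext1 i j
      have h := congrFun (congrFun hPP i) (Sum.inr j)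
      rw [← fromCols_toCols (M ^ (k + 1))] at h
      unfold NILAux.PP at h
      rw [fromCols_mul_fromBlocks] at h
      simp only [Matrix.mul_zero, Matrix.mul_one, add_zero, zero_add] at h
      exact h
    have c3 : (M ^ (k + 1)).toCols₁ = 0 := by
      refine cnc_rows hC (WE L X1 X2 g k) (we_cnc hUWD hp hg hgg k) _ ty ?_ c1
      intro i j z hz
      have e1 : (M ^ (k + 1)).toCols₁ i j = (M ^ (k + 1)) i (Sum.inl j) := rfl
      rw [e1, pow_succ, Matrix.mul_apply, MonoidAlgebra.coeff_sum,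
        Finsupp.finsetSum_apply] at hz
      obtain ⟨l, -, hl⟩ := Finset.exists_ne_zero_of_sum_ne_zero hz
      obtain ⟨u, v, hu, hv, e⟩ := NILAux.coeff_mul_ne _ _ _ hl
      have hw := pM k i l u hu
      rcases l with l | l
      · exact (sM _ _ _ hv).elim
      · have e2 : M (Sum.inr l) (Sum.inl j) = (Ξᴴ * α) l j := rfl
        rw [e2, Matrix.mul_apply, MonoidAlgebra.coeff_sum, Finsupp.finsetSum_apply] at hv
        obtain ⟨q, -, hq⟩ := Finset.exists_ne_zero_of_sum_ne_zero hv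
        obtain ⟨u', v', hu', hv', e'⟩ := NILAux.coeff_mul_ne _ _ _ hq
        refine ⟨u * u', v', (w1 k _ _ u u' (hΞs _ _ _ hu') hw).2, sα _ _ _ hv', ?_⟩
        rw [← e, ← e', mul_assoc]
    rw [← fromCols_toCols (M ^ (k + 1)), c2, c3, fromCols_zero]
  -- the matrix `ν'`
  have hQQ := NILAux.QQ_pow ε (b := b) (a' := α) (p := Ξ) hm (k + 1)
  rw [← hMdef, hM0, Matrix.zero_mul, Matrix.mul_zero] at hQQ
  set V := nu ε α 0 (Ξ * b * Ξᴴ) with hV
  have sV : ∀ i j z, (V i j).coeff z ≠ 0 → z ∈ XX X1 X2 ∅ (ty i) (ty j) := by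
    intro i j z hz
    rcases i with i | i <;> rcases j with j | j
    · exact (hz rfl).elim
    · exact NILAux.supp_smul (ε : ℤ) sθ i j z hz
    · exact (hLa z (sα i j z hz)).1
    · exfalso
      apply hz
      have : V (Sum.inr i) (Sum.inr j) =
        ((0 : Matrix (Fin r) (Fin r) (MonoidAlgebra R G))ᴴ) i j := rfl
      rw [this, Matrix.conjTranspose_zero]
      rfl
  have pV := pow_supp (L := L) V sV
  have r1 : (V ^ (k + 1)).toRows₁ = 0 := by
    ext1 i j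
    have h := congrFun (congrFun hQQ (Sum.inl i)) j
    rw [← fromRows_toRows (V ^ (k + 1))] at h
    unfold NILAux.QQ at h
    rw [fromBlocks_mul_fromRows] at h
    simp only [Matrix.zero_mul, Matrix.one_mul, add_zero, zero_add] at h
    exact h
  have r2 : Ξᴴ * (V ^ (k + 1)).toRows₂ = 0 := by
    ext1 i j
    have h := congrFun (congrFun hQQ (Sum.inr i)) j
    rw [← fromRows_toRows (V ^ (k + 1))] at h
    unfold NILAux.QQ at h
    rw [fromBlocks_mul_fromRows] at h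
    simp only [Matrix.zero_mul, Matrix.one_mul, add_zero, zero_add] at h
    exact h
  have r3 : ((V ^ (k + 1)).toRows₂)ᴴ * Ξ = 0 := by
    have := congrArg Matrix.conjTranspose r2
    rwa [Matrix.conjTranspose_mul, Matrix.conjTranspose_conjTranspose,
      Matrix.conjTranspose_zero] at this
  have r4 : ((V ^ (k + 1)).toRows₂)ᴴ = 0 := by
    refine cnc_rows hC (WE L X1 X2 g k) (we_cnc hUWD hp hg hgg k) _ (fun i => !(ty i)) ?_ r3
    intro t j z hz
    rw [Matrix.conjTranspose_apply, star_coeff] at hz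
    have hz1 : ((V ^ (k + 1)) (Sum.inr j) t).coeff z⁻¹ ≠ 0 := by
      intro h
      apply hz
      have e1 : (V ^ (k + 1)).toRows₂ j t = (V ^ (k + 1)) (Sum.inr j) t := rfl
      rw [e1, h, star_zero]
    rw [pow_succ', Matrix.mul_apply, MonoidAlgebra.coeff_sum, Finsupp.finsetSum_apply] at hz1
    obtain ⟨l, -, hl⟩ := Finset.exists_ne_zero_of_sum_ne_zero hz1
    obtain ⟨u, v, hu, hv, e⟩ := NILAux.coeff_mul_ne _ _ _ hl
    have hw := pV k l t v hv
    rcases l with l | l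
    · refine ⟨v⁻¹, u⁻¹, w3 k _ _ v hw, hLi u (sα _ _ _ hu), ?_⟩
      rw [← _root_.mul_inv_rev, e, inv_inv]
    · exact (Set.notMem_empty _ (sV _ _ _ hu)).elim
  have r5 : (V ^ (k + 1)).toRows₂ = 0 := by
    have := congrArg Matrix.conjTranspose r4
    rwa [Matrix.conjTranspose_conjTranspose, Matrix.conjTranspose_zero] at this
  rw [← fromRows_toRows (V ^ (k + 1)), r1, r5, fromRows_zero]

end Pool.Agent.Lib.MP8a3537.LL2
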