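import Pool.Agent.Lib.MP_8a3537_gt.LL2.Spec
import Pool.Agent.Lib.MP_8a3537_gt.UV.EMV
import Pool.Agent.Lib.MP_8a3537_gt.UV.NIL

/-!
# LL2, module SGV: a flip, forms
-/

set_option autoImplicit false

namespace Pool.Agent.Lib.MP8a3537.LL2

open Matrix Pool.Agent.Lib.MP8a3537.UV Pool.Agent.Lib.MP8a3537.AU Pool.Agent.Lib.MP8a3537.RO
open Pool.Agent.Lib.MP8a3537.ROK Pool.Agent.Lib.MP8a3537.LL

theorem specSGV (hFAT : SpecFAT) (hIDX : SpecIDX) : SpecSGV := by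
  intro R G _ _ _ L X1 X2 Yp Ym hpp g hg hgg c hc ε n N hN ψ χ hψ hχ hnil hall
  obtain ⟨r, Ξ, ψ', hΞ, hψ', e, hCnc⟩ := hFAT R G L g hgg n ψ hψ
  have hΞs : SuppIn (L : Set G) Ξᴴ := by
    refine NILAux.supp_mono (NILAux.supp_star hΞ) ?_
    intro x hx
    have h1 : x⁻¹ ∈ L := hx
    exact inv_mem_iff.1 h1
  have hκc : SuppIn c (Ξ * χ * Ξᴴ) := by
    have h1 : SuppIn c (Ξ * χ) := NILAux.supp_mul hΞ hχ (fun x hx y hy => hc.bi.1 x hx y hy)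
    exact NILAux.supp_mul h1 hΞs (fun x hx y hy => hc.bi.2 y hy x hx)
  have hnil' := hIDX R G L X1 X2 Yp Ym hpp g hg hgg ε n r N hN Ξ ψ' χ hΞ hCnc hψ'
    (NILAux.supp_mono hχ hc.sub) (by rw [← e]; exact hnil)
  have h := hall r ψ' (Ξ * χ * Ξᴴ) hψ' hκc hnil'
  have h2 := specEmv (MonoidAlgebra R G) ε n r ψ' 0 χ Ξ
  rw [Matrix.mul_zero, Matrix.zero_mul] at h2
  rw [e]
  exact h2 h

end Pool.Agent.Lib.MP8a3537.LL2
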