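import Pool.Agent.Lib.MP_8a3537_gt.LL2.Spec

/-!
# Short chains (MP_8a3537_gt, folder LL2), module SPB: a flip and a non-flip, the exchange
-/

set_option autoImplicit false

namespace Pool.Agent.Lib.MP8a3537.LL2

open Matrix Pool.Agent.Lib.MP8a3537.UV Pool.Agent.Lib.MP8a3537.AU Pool.Agent.Lib.MP8a3537.RO
open Pool.Agent.Lib.MP8a3537.ROK Pool.Agent.Lib.MP8a3537.LL

namespace SPBM

variable {G : Type} [Group G]

theorem eq_inf {V : Type} [MulAction G V] {d : V → V → ℕ} {L : Subgroup G} {X1 X2 X3 : Set G}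
    {x1 x2 : V} (hg : Geo d L X1 X2 X3 x1 x2) :
    L = MulAction.stabilizer G x1 ⊓ MulAction.stabilizer G x2 := by
  ext a
  rw [Subgroup.mem_inf, MulAction.mem_stabilizer_iff, MulAction.mem_stabilizer_iff]
  exact hg.st a

theorem dc_mono {L' L : Subgroup G} (h : L' ≤ L) {x y : G} (hy : y ∈ dc L' x) : y ∈ dc L x := by
  obtain ⟨a, ha, b, hb, e⟩ := hy
  exact ⟨a, h ha, b, h hb, e⟩

theorem D2_sub {L : Subgroup G} {X1 X2 Yp Ym : Set G} (P : PPK L X1 X2 ∅ Yp Ym) {z w : G}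
    (hz : z ∈ X2) (hw : w ∈ D2 L z) : w ∈ X2 := by
  have h1 : ∀ z ∈ X2, ∀ w ∈ dc L z, w ∈ X2 := by
    rintro z hz w ⟨a, ha, b, hb, rfl⟩
    exact P.X2r b hb _ (P.X2l a ha z hz)
  rcases hw with hw | hw
  · exact h1 z hz w hw
  · exact h1 _ (P.X2i z hz) w hw

theorem self_dc (L : Subgroup G) (x : G) : x ∈ dc L x :=
  ⟨1, L.one_mem, 1, L.one_mem, by group⟩

end SPBM

open SPBM LL.SGSM in
theorem specSPB (hSTP : SpecSTP) : SpecSPB := by
  intro R G V _ _ _ _ d hT N x1 x2 x y hN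
  refine ⟨?_, ?_⟩
  · intro h L X1 X2 Yp Ym P hg hx hy ε n ψ χ hψ hχ hν
    obtain ⟨-, -, s3, s4⟩ := specSYK G L X1 X2 ∅ Yp Ym
    exact swapUF (h L X2 X1 Ym Yp (s3 P) (s4 V d x1 x2 hg) hy hx ε n χ ψ hχ hψ (swap0 ε hν))
  · intro hxx hy hCl L X1 X2 Yp Ym P hg hx1 hy2 ε n ψ χ hψ hχ hν
    have hL := eq_inf hg
    subst hL
    refine hSTP R G V d hT N x1 x2 hN _ X1 X2 Yp Ym P hg x hx1 hxx y hy2 hCl ?_ ε n ψ χ hψ hχ hν
    intro y' hy' L' X1' X2' Yp' Ym' P' hg' hx' hy'' ε' n' ψ' χ' hψ' hχ' hν'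
    obtain ⟨hgK, hxq, -⟩ := mBLG G V d hT _ X1 X2 ∅ Yp Ym x1 x2 P.toPingPong hg x hx1 hxx
    -- `L' ≤ L`
    have hle : L' ≤ MulAction.stabilizer G x1 ⊓ MulAction.stabilizer G x2 := by
      intro a ha
      exact ((mem_Kg _ _ _).1 ((hgK.st a).2 ((hg'.st a).1 ha))).1
    have hxxL : x * x ∈ L' := by
      rw [hg'.st]
      refine ⟨?_, ?_⟩
      · rw [mul_smul, hxq]
      · rw [mul_smul, hxq]
    have hinv1 : x⁻¹ • x1 = x • x1 := by
      rw [inv_smul_eq_iff, hxq]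
    have hinv2 : x⁻¹ • x • x1 = x1 := inv_smul_smul x x1
    have hNs : Ns L' x := by
      intro h hh
      obtain ⟨h1, h2⟩ := (hg'.st h).1 hh
      rw [hg'.st, hg'.st]
      refine ⟨⟨?_, ?_⟩, ?_, ?_⟩
      · rw [mul_smul, mul_smul, hinv1, h2, hxq]
      · rw [mul_smul, mul_smul, hinv2, h1]
      · rw [mul_smul, mul_smul, h2, hinv2]
      · rw [mul_smul, mul_smul, hxq, h1, hinv1]
    have hnf : ¬ Flip L' y' := by
      intro hf
      exact D2_nonflip hy hy' (dc_mono hle hf)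
    refine LL.specSGN LL.mDWP LL.specDWG R G V d hT N x1 (x • x1) hN hCl L' X1' X2' Yp' Ym' P' hg' x
      hx' hxxL hNs ε' n' ψ' χ' ?_ ?_ ?_ hν'
    · intro i j z hz
      rcases hψ' i j z hz with h | h
      · exact h
      · exact dc_trans (RO.ELMAux.dc_inv L' x hxxL (self_dc L' x)) h
    · exact fun i j z hz => D2_sub P' hy'' (hχ' i j z hz)
    · exact fun i j z hz => D2_nonflip hnf (hχ' i j z hz)

end Pool.Agent.Lib.MP8a3537.LL2
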