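import Pool.Agent.Lib.MP_8a3537_gt.LL2.SpecB

/-! # folder LL2, module SPD: two flips, without a chain condition (helper30) -/

set_option autoImplicit false

namespace Pool.Agent.Lib.MP8a3537.LL2

open Matrix Pool.Agent.Lib.MP8a3537.UV Pool.Agent.Lib.MP8a3537.AU Pool.Agent.Lib.MP8a3537.RO
open Pool.Agent.Lib.MP8a3537.ROK Pool.Agent.Lib.MP8a3537.LL

theorem specSPD (hSTP : SpecSTP) (hSPB : SpecSPB) (hSGV : SpecSGV) : SpecSPD := by
  intro R G V _ _ _ _ d hd Q P N hN hQ hL hCl hB x1 x2 x y hP hxx L X1 X2 Yp Ym hpp hgeo hx hy ε n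
    ψ χ hψ hχ hnil
  have st : L = MulAction.stabilizer G x1 ⊓ MulAction.stabilizer G x2 := by
    ext a
    rw [Subgroup.mem_inf, MulAction.mem_stabilizer_iff, MulAction.mem_stabilizer_iff]
    exact hgeo.st a
  have z1 : d x1 x1 = 0 := (hd.d0 x1 x1).2 rfl
  have m1 : d x1 (x • x1) = d x1 x2 + d x2 (x • x1) :=
    hgeo.mv false true x x1 hx (show d x2 x1 = d x2 x1 + d x1 x1 by rw [z1, add_zero])
  have hxx1 : x • x • x1 = x1 := by
    have := (Subgroup.mem_inf.1 hxx).1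
    rw [MulAction.mem_stabilizer_iff, mul_smul] at this
    exact this
  have hPq : P x1 (x • x1) := hL.r x1 x2 x hP hxx1 m1
  refine hSTP R G V d hd N x1 x2 hN L X1 X2 Yp Ym hpp hgeo x hx (by rw [st]; exact hxx) y hy
    (fun h => hCl h x1 (x • x1) hPq) ?_ ε n ψ χ hψ hχ hnil
  intro y' hy'
  clear hψ hχ hnil ψ χ n ε
  have hxx' : x * x ∈ MulAction.stabilizer G x1 ⊓ MulAction.stabilizer G (x • x1) := by
    rw [Subgroup.mem_inf, MulAction.mem_stabilizer_iff, MulAction.mem_stabilizer_iff, mul_smul,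
      mul_smul, hxx1]
    exact ⟨rfl, rfl⟩
  by_cases hfl : Flip (MulAction.stabilizer G x1 ⊓ MulAction.stabilizer G (x • x1)) y'
  swap
  · exact (hSPB R G V d hd N x1 (x • x1) x y' hN).2 hxx' hfl
      (fun h => hCl h x1 (x • x1) hPq)
  intro L' X1' X2' Yp' Ym' hpp' hgeo' hx' hy'' ε n ψ χ hψ hχ hnil
  have st' : L' = MulAction.stabilizer G x1 ⊓ MulAction.stabilizer G (x • x1) := by
    ext a
    rw [Subgroup.mem_inf, MulAction.mem_stabilizer_iff, MulAction.mem_stabilizer_iff]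
    exact hgeo'.st a
  obtain ⟨-, -, s3, s4⟩ := specSYK G L' X1' X2' ∅ Yp' Ym'
  have hppe := s3 hpp'
  rcases hB x1 (x • x1) hPq ⟨x, rfl, hxx1⟩ with hq | hb
  · exact hQ x1 (x • x1) hq L' X1' X2' Yp' Ym' hpp' hgeo' ε n ψ χ
      (fun i j z hz => DCMM.D2_sub hpp' hx' z (hψ i j z hz))
      (fun i j z hz => DCMM.D2_sub hppe hy'' z (hχ i j z hz)) hnil
  rw [← st'] at hfl
  obtain ⟨k, hk, hff, hyd⟩ := ROTAux.exists_flip hfl
  have hfX : y' * k ∈ X2' := hpp'.X2r k hk y' hy''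
  -- `x` normalizes `L'`
  have hxi : x⁻¹ • x1 = x • x1 := by rw [inv_smul_eq_iff]; exact hxx1.symm
  have hNs : Ns L' x := by
    intro h hh
    rw [st', Subgroup.mem_inf, MulAction.mem_stabilizer_iff, MulAction.mem_stabilizer_iff] at hh
    obtain ⟨ha, hb'⟩ := hh
    constructor
    · rw [st', Subgroup.mem_inf, MulAction.mem_stabilizer_iff, MulAction.mem_stabilizer_iff, mul_smul,
        mul_smul, mul_smul, mul_smul, hxi, hb', hxx1, inv_smul_smul, ha]
      exact ⟨rfl, rfl⟩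
    · rw [st', Subgroup.mem_inf, MulAction.mem_stabilizer_iff, MulAction.mem_stabilizer_iff, mul_smul,
        mul_smul, mul_smul, mul_smul, hxx1, ha, hb', inv_smul_smul, hxi]
      exact ⟨rfl, rfl⟩
  have hxxL : x * x ∈ L' := by rw [st']; exact hxx'
  have hc : Pt L' X1' (D2 L' x) := DCMM.pt_D2 hpp' hx'
  have hcLa : ∀ z ∈ D2 L' x, z ∈ La L' x := by
    rintro z (hz | hz)
    · exact SGSM.dc_La hNs hz
    · refine SGSM.dc_La hNs (SGSM.dc_trans ?_ hz)
      exact ⟨(x * x)⁻¹, L'.inv_mem hxxL, 1, L'.one_mem, by group⟩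
  refine SGSM.swapUF (hSGV R G L' X2' X1' Ym' Yp' hppe.toPingPong (y' * k) hfX hff (D2 L' x) hc ε n N
    hN χ ψ (fun i j z hz => SGSM.D2_flip hff hyd (hχ i j z hz)) hψ (SGSM.swap0 ε hnil) ?_)
  intro r χ' κ hχ' hκ hnil'
  refine SGSM.swapUF ?_
  -- the two-step condition
  have z2 : d (x • x1) (x • x1) = 0 := (hd.d0 _ _).2 rfl
  have m2 : d (x • x1) ((y' * k) • x • x1) = d (x • x1) x1 + d x1 ((y' * k) • x • x1) :=
    hgeo'.mv true false (y' * k) (x • x1) hfX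
      (show d x1 (x • x1) = d x1 (x • x1) + d (x • x1) (x • x1) by rw [z2, add_zero])
  have n1 : ∀ h ∈ L', h * x * (h * x) ≠ 1 := by
    intro h hh e
    exact hpp'.X1n _ (hpp'.X1l h hh x hx') (inv_eq_of_mul_eq_one_right e)
  have n2 : ∀ h ∈ L', h * (y' * k) * (h * (y' * k)) ≠ 1 := by
    intro h hh e
    exact hpp'.X2n _ (hpp'.X2l h hh _ hfX) (inv_eq_of_mul_eq_one_right e)
  have hne : (y' * k) • x • x1 ≠ x1 := by
    intro e2
    have hffs : (y' * k) • (y' * k) • x • x1 = x • x1 := by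
      rw [← mul_smul]
      exact ((hgeo'.st _).1 hff).2
    have f1 : (y' * k) • x1 = x • x1 := by
      rw [e2] at hffs
      exact hffs
    have hl : x⁻¹ * (y' * k) ∈ L' := by
      refine (hgeo'.st _).2 ⟨?_, ?_⟩
      · rw [mul_smul, f1, inv_smul_smul]
      · rw [mul_smul, e2]
        exact hxi
    have hf1 : y' * k ∈ X1' := by
      have := hpp'.X1r _ hl x hx'
      rwa [mul_inv_cancel_left] at this
    have y1 : y' * k ∈ Ym' := by
      have := hpp'.X1Y _ hf1 1 hpp'.Yp1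
      rwa [mul_one] at this
    have y2 : y' * k ∈ Yp' := by
      have := hpp'.X2Y _ hfX 1 hpp'.Ym1
      rwa [mul_one] at this
    exact hpp'.xh true false _ hfX (hpp'.yy _ y2 y1)
  rw [st'] at hff n1 n2 hχ'
  have hblk := hb x (y' * k) rfl hxx1 hff m2 hne n1 n2
  rw [← st'] at hblk hχ'
  have h4 := SGSM.swap0 ε hnil'
  exact hblk ε r κ χ' (fun i j z hz => hcLa z (hκ i j z hz)) hχ' ⟨N, h4⟩

end Pool.Agent.Lib.MP8a3537.LL2
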