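import Pool.Agent.Lib.MP_8a3537_gt.LL2.Spec

/-!
# No chain condition (MP_8a3537_gt, folder LL2): Specs (helper30)

The recursion of `LL2/Spec.lean` can be stopped after two steps. Both `x` and `y` are flips of the pair `x1`, `x2`.
Step 1 (`STP`): the pair `x1`, `q = x x1`, the pieces `x`, `y'`; `x` exchanges `x1` and `q`. Step 2 (`SGV` for `y'`, with
`c = K' x`, which is not cut again): forms with supports in `K' x` and `Kg K' y' * y'`. So no chain condition is needed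
if these forms are stably hyperbolic (or belong to the class of forms).

Modules as in `LL2/Spec.lean`.
-/

set_option autoImplicit false

namespace Pool.Agent.Lib.MP8a3537.LL2

open Matrix Pool.Agent.Lib.MP8a3537.UV Pool.Agent.Lib.MP8a3537.AU Pool.Agent.Lib.MP8a3537.RO
open Pool.Agent.Lib.MP8a3537.ROK Pool.Agent.Lib.MP8a3537.LL

section Geometry

variable (R G : Type) {V : Type} [Ring R] [StarRing R] [Group G] [MulAction G V] (d : V → V → ℕ)

/-- The two-step condition for the pair `x1`, `x2`. -/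
def HB (x1 x2 : V) : Prop :=
  ∀ g f : G, g • x1 = x2 → g • x2 = x1 →
    f * f ∈ MulAction.stabilizer G x1 ⊓ MulAction.stabilizer G x2 →
    d x2 (f • x2) = d x2 x1 + d x1 (f • x2) → f • x2 ≠ x1 →
    (∀ h ∈ MulAction.stabilizer G x1 ⊓ MulAction.stabilizer G x2, h * g * (h * g) ≠ 1) →
    (∀ h ∈ MulAction.stabilizer G x1 ⊓ MulAction.stabilizer G x2, h * f * (h * f) ≠ 1) →
    Blk R (La (MulAction.stabilizer G x1 ⊓ MulAction.stabilizer G x2) g)
      (La (Kg (MulAction.stabilizer G x1 ⊓ MulAction.stabilizer G x2) f) f)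

end Geometry

/-- **SPD** (size 150, deps `SpecSTP`, `SpecSPB`, `SpecSGV`): two flips.

PROOF. See the head of the file. `q = x x1`, `K' = stabilizer x1 ⊓ stabilizer q`, `P x1 q` (`Lng.r`). STP: let `y' ∈ D2 L y`. If `Q K'`: `Cl` for the
pair `x1`, `q`. If `y'` is not a flip of `K'`: SPB, part 2. Otherwise `y'' = y' k`, `y'' y'' ∈ K'`; take data `L'` (`= K'`), `X1'`, `X2'` with the ends `x1`, `q`,
`x ∈ X1'`, `y'' ∈ X2'`; SGV for the exchanged data, `g = y''`, `c = D2 L' x` (`⊆ La L' x`, because `x` normalizes `L'`); its hypothesis is `HB` for `x1`, `q`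
(exchanged by `swapUF`, `swap0`); `y'' q ≠ x1`: otherwise `x⁻¹ y''` fixes `x1` and `q`, so `y'' ∈ X1'`, a contradiction as in `SGSM.lines`. -/
def SpecSPD : Prop :=
  ∀ (R G V : Type) [Ring R] [StarRing R] [Group G] [MulAction G V] (d : V → V → ℕ), TM G d →
    ∀ (Q : Subgroup G → Prop) (P : V → V → Prop) (N : ℕ), 1 ≤ N →
    (∀ x1 x2 : V, Q (MulAction.stabilizer G x1 ⊓ MulAction.stabilizer G x2) →
      Cl R G d N x1 x2) → Lng G d P → (3 ≤ N → ∀ x1 x2 : V, P x1 x2 → Cl R G d (N - 1) x1 x2) →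
    (∀ x1 x2 : V, P x1 x2 → (∃ g : G, g • x1 = x2 ∧ g • x2 = x1) →
      Q (MulAction.stabilizer G x1 ⊓ MulAction.stabilizer G x2) ∨ HB R G d x1 x2) →
    ∀ (x1 x2 : V) (x y : G), P x1 x2 →
      x * x ∈ MulAction.stabilizer G x1 ⊓ MulAction.stabilizer G x2 → SP R G d N x1 x2 x y

/-- **CLD** (size 150, deps `SpecSPB`, `SpecSPD`): all pairs of the class `P` (as CLN). -/
def SpecCLD : Prop :=
  ∀ (R G V : Type) [Ring R] [StarRing R] [Group G] [MulAction G V] (d : V → V → ℕ), TM G d →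
    ∀ (Q : Subgroup G → Prop) (P : V → V → Prop),
    (∀ N : ℕ, 1 ≤ N → ∀ x1 x2 : V,
      Q (MulAction.stabilizer G x1 ⊓ MulAction.stabilizer G x2) → Cl R G d N x1 x2) →
    Lng G d P →
    (∀ x1 x2 : V, P x1 x2 → (∃ g : G, g • x1 = x2 ∧ g • x2 = x1) →
      Q (MulAction.stabilizer G x1 ⊓ MulAction.stabilizer G x2) ∨ HB R G d x1 x2) →
    (∀ N : ℕ, 1 ≤ N → ∀ x1 x2 : V, P x1 x2 → Cl R G d N x1 x2) ∧
    ∀ x1 x2 : V, P x1 x2 → SE R G d x1 x2 ∧ SE R G d x2 x1

/-- **FLD** (size 120, dep `SpecCLD`): the theorem for trees without a chain condition (as FLS). -/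
def SpecFLD : Prop :=
  ∀ (R G V : Type) [Ring R] [StarRing R] [Group G] [MulAction G V] (Q : Subgroup G → Prop)
    (T : SimpleGraph V) (v w : V),
    (∀ N : ℕ, 1 ≤ N → ∀ x y : V,
      Q (MulAction.stabilizer G x ⊓ MulAction.stabilizer G y) → Cl R G T.dist N x y) →
    T.IsTree → (∀ (g : G) (x y : V), T.Adj x y → T.Adj (g • x) (g • y)) → T.Adj v w →
    (∀ g : G, ¬ (g • v = w ∧ g • w = v)) →
    (∀ g : G, g * g = 1 → (g • v = v ↔ g • w = w)) →
    (∀ (x y : V) (g f : G), T.dist x y = T.dist x v + 1 + T.dist w y → g • x = y →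
      g • y = x → f * f ∈ MulAction.stabilizer G x ⊓ MulAction.stabilizer G y →
      T.dist y (f • y) = T.dist y x + T.dist x (f • y) → f • y ≠ x →
      (∀ h ∈ MulAction.stabilizer G x ⊓ MulAction.stabilizer G y, h * g * (h * g) ≠ 1) →
      (∀ h ∈ MulAction.stabilizer G x ⊓ MulAction.stabilizer G y, h * f * (h * f) ≠ 1) →
      Q (MulAction.stabilizer G x ⊓ MulAction.stabilizer G y) ∨
        Blk R (La (MulAction.stabilizer G x ⊓ MulAction.stabilizer G y) g)
          (La (Kg (MulAction.stabilizer G x ⊓ MulAction.stabilizer G y) f) f)) →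
    ∀ (ε : ℤˣ) (n : ℕ) (ψ μ χ : Matrix (Fin n) (Fin n) (MonoidAlgebra R G)),
      SuppIn {g | g • v = v ∧ g • w ≠ w} ψ → SuppIn {g | g • v = w} μ →
      SuppIn {g | g • w = w ∧ g • v ≠ v} χ →
      IsNilpotent (nu ε (ψ + (ε : ℤ) • ψᴴ) μ (χ + (ε : ℤ) • χᴴ)) →
      StablyHyperbolic ε (UF ψ μ χ)

end Pool.Agent.Lib.MP8a3537.LL2
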